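import Mathlib

set_option autoImplicit false

/-! Arithmetic of exponents. -/

namespace Pool.Agent.D0H30.ES

open scoped ENNReal NNReal

/-- `2^x` -/
noncomputable def pw (x : ℝ) : ℝ := (2 : ℝ) ^ x

theorem pw_pos (x : ℝ) : 0 < pw x := Real.rpow_pos_of_pos (by norm_num) x
theorem pw_nonneg (x : ℝ) : 0 ≤ pw x := (pw_pos x).le
theorem pw_add (x y : ℝ) : pw (x + y) = pw x * pw y := Real.rpow_add (by norm_num) x y
theorem pw_rpow (x y : ℝ) : pw x ^ y = pw (x * y) := (Real.rpow_mul (by norm_num) x y).symm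
theorem pw_natpow (x : ℝ) (n : ℕ) : pw x ^ n = pw (x * n) := by
  rw [← pw_rpow, Real.rpow_natCast]
theorem pw_le {x y : ℝ} (h : x ≤ y) : pw x ≤ pw y :=
  Real.rpow_le_rpow_of_exponent_le (by norm_num) h
theorem pw_zero : pw 0 = 1 := Real.rpow_zero _
theorem pw_one : pw 1 = 2 := Real.rpow_one _
theorem pw_two : pw 2 = 4 := by
  unfold pw; norm_num

/-- the functional `L = 2k + (d-1)(k+ν)` -/
def LL (d : ℝ) (k ν : ℝ) : ℝ := 2 * k + (d - 1) * (k + ν)

/-- the exponent of the threshold -/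
noncomputable def tau (d k ν k' ν' : ℝ) : ℝ :=
  (ν + ν') / d - ((k + ν) + (k' + ν')) / (2 * d) + |(k + ν) - (k' + ν')| / (4 * d)

/-- the exponent of the near bound -/
noncomputable def E1 (d k ν k' ν' : ℝ) : ℝ :=
  ((k + ν) + (k' + ν')) * (d - 1) / (2 * d) + (ν + ν' + min (k + ν) (k' + ν')) / (2 * d)

theorem near_exp {d : ℝ} (hd : 2 ≤ d) (k ν k' ν' : ℝ) :
    (k - ν) / d + (k' - ν') / d + E1 d k ν k' ν' + tau d k ν k' ν' / 2 =
      (LL d k ν + LL d k' ν') / (2 * d) - |(k + ν) - (k' + ν')| / (8 * d) := by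
  have hd0 : d ≠ 0 := by linarith
  have hmin : min (k + ν) (k' + ν') = ((k + ν) + (k' + ν')) / 2 - |(k + ν) - (k' + ν')| / 2 := by
    rcases le_total (k + ν) (k' + ν') with h | h
    · rw [min_eq_left h, abs_of_nonpos (by linarith)]; ring
    · rw [min_eq_right h, abs_of_nonneg (by linarith)]; ring
  unfold E1 tau LL
  rw [hmin]
  field_simp
  ring

theorem far_exp {d : ℝ} (hd : 2 ≤ d) (k ν k' ν' : ℝ) :
    (k - ν) / d + (k' - ν') / d + (ν + ν') + tau d k ν k' ν' * (1 - d) ≤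
      (LL d k ν + LL d k' ν') / (2 * d) - |(k + ν) - (k' + ν')| / (8 * d) := by
  have hd0 : 0 < d := by linarith
  have h1 : (k - ν) / d + (k' - ν') / d + (ν + ν') + tau d k ν k' ν' * (1 - d) =
      (LL d k ν + LL d k' ν') / (2 * d) - (d - 1) * |(k + ν) - (k' + ν')| / (4 * d) := by
    unfold tau LL
    field_simp
    ring
  rw [h1]
  have h2 : |(k + ν) - (k' + ν')| / (8 * d) ≤ (d - 1) * |(k + ν) - (k' + ν')| / (4 * d) := by
    rw [div_le_div_iff₀ (by positivity) (by positivity)]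
    have h3 := abs_nonneg ((k + ν) - (k' + ν'))
    nlinarith [mul_nonneg h3 hd0.le, mul_nonneg (mul_nonneg h3 hd0.le) (by linarith : 0 ≤ d - 2)]
  linarith

/-- the decay rate -/
noncomputable def rr (d : ℝ) : ℝ := pw (-(1 / (12 * d ^ 2)))

theorem rr_pos (d : ℝ) : 0 < rr d := pw_pos _

theorem rr_lt_one {d : ℝ} (hd : 2 ≤ d) : rr d < 1 := by
  unfold rr pw
  apply Real.rpow_lt_one_of_one_lt_of_neg (by norm_num)
  have : 0 < 1 / (12 * d ^ 2) := by positivity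
  linarith

theorem decay {d : ℝ} (hd : 2 ≤ d) (k ν k' ν' : ℤ) :
    pw (-|LL d k ν - LL d k' ν'| / (2 * d) - |((k : ℝ) + ν) - (k' + ν')| / (8 * d)) ≤
      rr d ^ (k - k').natAbs * rr d ^ (ν - ν').natAbs := by
  have hd0 : 0 < d := by linarith
  unfold rr
  rw [pw_natpow, pw_natpow, ← pw_add]
  apply pw_le
  have e1 : (((k - k').natAbs : ℕ) : ℝ) = |(k : ℝ) - k'| := by
    rw [Nat.cast_natAbs]; push_cast; rfl
  have e2 : (((ν - ν').natAbs : ℕ) : ℝ) = |(ν : ℝ) - ν'| := by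
    rw [Nat.cast_natAbs]; push_cast; rfl
  rw [e1, e2]
  set X : ℝ := |LL d k ν - LL d k' ν'| with hX
  set M : ℝ := |((k : ℝ) + ν) - (k' + ν')| with hM
  set K : ℝ := |(k : ℝ) - k'| with hK
  set N : ℝ := |(ν : ℝ) - ν'| with hN
  have hX0 : 0 ≤ X := abs_nonneg _
  have hM0 : 0 ≤ M := abs_nonneg _
  have h1 : 2 * K ≤ X + (d - 1) * M := by
    have e : 2 * ((k : ℝ) - k') = (LL d k ν - LL d k' ν') - (d - 1) * (((k : ℝ) + ν) - (k' + ν')) := by
      unfold LL; ring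
    have e3 : 2 * K = |2 * ((k : ℝ) - k')| := by
      rw [abs_mul, abs_of_pos (by norm_num : (0 : ℝ) < 2)]
    rw [e3, e]
    refine (abs_sub _ _).trans ?_
    rw [abs_mul, abs_of_nonneg (by linarith : 0 ≤ d - 1)]
  have h2 : N ≤ M + K := by
    have e : (ν : ℝ) - ν' = (((k : ℝ) + ν) - (k' + ν')) - ((k : ℝ) - k') := by ring
    rw [hN, e]
    exact abs_sub _ _
  have h3 : (K + N) ≤ 12 * d ^ 2 * (X / (2 * d) + M / (8 * d)) := by
    have e : 12 * d ^ 2 * (X / (2 * d) + M / (8 * d)) = 6 * d * X + 3 / 2 * d * M := by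
      field_simp
      ring
    rw [e]
    nlinarith [mul_nonneg hd0.le hX0, mul_nonneg hd0.le hM0]
  have h4 : (K + N) / (12 * d ^ 2) ≤ X / (2 * d) + M / (8 * d) := by
    rw [div_le_iff₀ (by positivity)]
    linarith
  have e5 : -(1 / (12 * d ^ 2)) * K + -(1 / (12 * d ^ 2)) * N = -((K + N) / (12 * d ^ 2)) := by
    ring
  rw [e5, neg_div]
  linarith

/-- comparison with the block masses -/
theorem block_mass {d : ℝ} (hd : 2 ≤ d) (k ν k' ν' : ℤ) (T T' : ℝ≥0∞) :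
    ENNReal.ofReal (pw ((LL d k ν + LL d k' ν') / (2 * d) - |((k : ℝ) + ν) - (k' + ν')| / (8 * d))) *
      min T T' ≤
    ENNReal.ofReal (rr d ^ (k - k').natAbs * rr d ^ (ν - ν').natAbs) *
      (ENNReal.ofReal (pw (LL d k ν / d)) * T + ENNReal.ofReal (pw (LL d k' ν' / d)) * T') := by
  have hd0 : 0 < d := by linarith
  have key : ∀ A B : ℝ, A ≤ B → pw ((A + B) / (2 * d)) = pw (B / d) * pw (-|A - B| / (2 * d)) := by
    intro A B hAB
    rw [← pw_add]
    congr 1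
    rw [abs_of_nonpos (by linarith)]
    field_simp
    ring
  set M : ℝ := |((k : ℝ) + ν) - (k' + ν')| with hM
  have e0 : pw ((LL d k ν + LL d k' ν') / (2 * d) - M / (8 * d)) =
      pw ((LL d k ν + LL d k' ν') / (2 * d)) * pw (-(M / (8 * d))) := by
    rw [← pw_add]; congr 1
  have hdec := decay hd k ν k' ν'
  rw [← hM] at hdec
  have e2 : pw (-|LL d k ν - LL d k' ν'| / (2 * d) - M / (8 * d)) =
      pw (-|LL d k ν - LL d k' ν'| / (2 * d)) * pw (-(M / (8 * d))) := by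
    rw [← pw_add]; congr 1
  rw [e2] at hdec
  rcases le_total (LL d k ν) (LL d k' ν') with h | h
  · calc _ ≤ ENNReal.ofReal (pw ((LL d k ν + LL d k' ν') / (2 * d) - M / (8 * d))) * T' := by
          gcongr; exact min_le_right _ _
      _ = ENNReal.ofReal (pw (-|LL d k ν - LL d k' ν'| / (2 * d)) * pw (-(M / (8 * d)))) *
          (ENNReal.ofReal (pw (LL d k' ν' / d)) * T') := by
          rw [e0, key _ _ h, ← mul_assoc, ← ENNReal.ofReal_mul (mul_nonneg (pw_nonneg _) (pw_nonneg _))]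
          congr 2
          ring
      _ ≤ _ := by
          gcongr
          exact le_add_self
  · calc _ ≤ ENNReal.ofReal (pw ((LL d k ν + LL d k' ν') / (2 * d) - M / (8 * d))) * T := by
          gcongr; exact min_le_left _ _
      _ = ENNReal.ofReal (pw (-|LL d k ν - LL d k' ν'| / (2 * d)) * pw (-(M / (8 * d)))) *
          (ENNReal.ofReal (pw (LL d k ν / d)) * T) := by
          rw [e0, add_comm (LL d k ν), key _ _ h, abs_sub_comm, ← mul_assoc,
            ← ENNReal.ofReal_mul (mul_nonneg (pw_nonneg _) (pw_nonneg _))]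
          congr 2
          ring
      _ ≤ _ := by
          gcongr
          exact le_self_add

/-- the total decay -/
noncomputable def CD (d : ℝ) : ℝ≥0∞ :=
  ∑' p : ℤ × ℤ, ENNReal.ofReal (rr d ^ p.1.natAbs * rr d ^ p.2.natAbs)

theorem summable_natAbs {r : ℝ} (h0 : 0 ≤ r) (h1 : r < 1) : Summable fun i : ℤ => r ^ i.natAbs := by
  apply Summable.of_nat_of_neg
  · simpa using summable_geometric_of_lt_one h0 h1
  · simpa using summable_geometric_of_lt_one h0 h1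

theorem CD_ne_top {d : ℝ} (hd : 2 ≤ d) : CD d ≠ ∞ := by
  unfold CD
  have h := summable_natAbs (rr_pos d).le (rr_lt_one hd)
  have h2 : Summable fun p : ℤ × ℤ => rr d ^ p.1.natAbs * rr d ^ p.2.natAbs :=
    h.mul_of_nonneg h (fun i => pow_nonneg (rr_pos d).le _) (fun i => pow_nonneg (rr_pos d).le _)
  rw [← ENNReal.ofReal_tsum_of_nonneg _ h2]
  · exact ENNReal.ofReal_ne_top
  · intro p
    exact mul_nonneg (pow_nonneg (rr_pos d).le _) (pow_nonneg (rr_pos d).le _)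

/-- summation over pairs of blocks -/
theorem sum_pairs (d : ℝ) (Λ : Finset (ℤ × ℤ)) (J : ℤ × ℤ → ℝ≥0∞) :
    ∑ p ∈ Λ, ∑ q ∈ Λ, ENNReal.ofReal (rr d ^ (p.1 - q.1).natAbs * rr d ^ (p.2 - q.2).natAbs) *
      (J p + J q) ≤ 2 * CD d * ∑ p ∈ Λ, J p := by
  have h1 : ∀ p : ℤ × ℤ, ∑ q ∈ Λ, ENNReal.ofReal (rr d ^ (p.1 - q.1).natAbs *
      rr d ^ (p.2 - q.2).natAbs) ≤ CD d := by
    intro p
    refine (ENNReal.sum_le_tsum _).trans (le_of_eq ?_)
    unfold CD
    exact (Equiv.subLeft p).tsum_eq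
      (fun q : ℤ × ℤ => ENNReal.ofReal (rr d ^ q.1.natAbs * rr d ^ q.2.natAbs))
  have h2 : ∑ p ∈ Λ, ∑ q ∈ Λ, ENNReal.ofReal (rr d ^ (p.1 - q.1).natAbs *
      rr d ^ (p.2 - q.2).natAbs) * J p ≤ CD d * ∑ p ∈ Λ, J p := by
    rw [Finset.mul_sum]
    apply Finset.sum_le_sum
    intro p _
    rw [← Finset.sum_mul]
    gcongr
    exact h1 p
  have h3 : ∑ p ∈ Λ, ∑ q ∈ Λ, ENNReal.ofReal (rr d ^ (p.1 - q.1).natAbs *
      rr d ^ (p.2 - q.2).natAbs) * J q ≤ CD d * ∑ p ∈ Λ, J p := by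
    rw [Finset.sum_comm]
    refine le_trans (le_of_eq ?_) h2
    apply Finset.sum_congr rfl
    intro q _
    apply Finset.sum_congr rfl
    intro p _
    rw [← Int.natAbs_neg (p.1 - q.1), ← Int.natAbs_neg (p.2 - q.2), neg_sub, neg_sub]
  calc _ = (∑ p ∈ Λ, ∑ q ∈ Λ, ENNReal.ofReal (rr d ^ (p.1 - q.1).natAbs *
      rr d ^ (p.2 - q.2).natAbs) * J p) + (∑ p ∈ Λ, ∑ q ∈ Λ, ENNReal.ofReal
      (rr d ^ (p.1 - q.1).natAbs * rr d ^ (p.2 - q.2).natAbs) * J q) := by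
        simp only [mul_add, Finset.sum_add_distrib]
    _ ≤ (CD d * ∑ p ∈ Λ, J p) + (CD d * ∑ p ∈ Λ, J p) := add_le_add h2 h3
    _ = _ := by ring

end Pool.Agent.D0H30.ES
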