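import Mathlib

set_option autoImplicit false

/-! One-dimensional integrals. -/

namespace Pool.Agent.D0H30.ES

open MeasureTheory Filter Topology Set
open scoped ENNReal NNReal

theorem lint_abs (g : ℝ → ℝ≥0∞) :
    ∫⁻ v, g |v| = 2 * ∫⁻ v in Ioi (0 : ℝ), g v := by
  have h1 : ∫⁻ v, g |v| = (∫⁻ v in Ioi (0 : ℝ), g |v|) + ∫⁻ v in Iic (0 : ℝ), g |v| := by
    rw [← lintegral_add_compl _ (measurableSet_Ioi (a := (0 : ℝ))), compl_Ioi]
  have h2 : ∫⁻ v in Ioi (0 : ℝ), g |v| = ∫⁻ v in Ioi (0 : ℝ), g v := by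
    apply setLIntegral_congr_fun measurableSet_Ioi
    intro v hv
    simp only
    rw [abs_of_pos hv]
  have h3 : ∫⁻ v in Iic (0 : ℝ), g |v| = ∫⁻ v in Ioi (0 : ℝ), g v := by
    have e1 : ∫⁻ v in Iic (0 : ℝ), g |v| = ∫⁻ v in Iio (0 : ℝ), g |v| :=
      (setLIntegral_congr Iio_ae_eq_Iic).symm
    have e2 : ∫⁻ v in Iio (0 : ℝ), g |v| = ∫⁻ v, (Iio (0 : ℝ)).indicator (fun v => g |v|) v :=
      (lintegral_indicator measurableSet_Iio _).symm
    have e3 : ∫⁻ v in Ioi (0 : ℝ), g v = ∫⁻ v, (Ioi (0 : ℝ)).indicator (fun v => g v) v :=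
      (lintegral_indicator measurableSet_Ioi _).symm
    rw [e1, e2, e3, ← lintegral_neg_eq_self]
    apply lintegral_congr
    intro v
    by_cases hv : 0 < v
    · rw [indicator_of_mem (show v ∈ Ioi (0 : ℝ) from hv),
        indicator_of_mem (show -v ∈ Iio (0 : ℝ) by simpa using hv), abs_neg, abs_of_pos hv]
    · rw [indicator_of_notMem (show v ∉ Ioi (0 : ℝ) from hv),
        indicator_of_notMem (show -v ∉ Iio (0 : ℝ) by simpa using hv)]
  rw [h1, h2, h3, two_mul]

/-- the near integral -/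
theorem near_int {u : ℝ} (hu : 0 < u) :
    ∫⁻ v, (fun r : ℝ => if r < u then ENNReal.ofReal (r ^ (-(1 / 2) : ℝ)) else 0) |v| ≤
      ENNReal.ofReal (4 * u ^ (1 / 2 : ℝ)) := by
  rw [lint_abs fun r : ℝ => if r < u then ENNReal.ofReal (r ^ (-(1 / 2) : ℝ)) else 0]
  have h1 : ∫⁻ v in Ioi (0 : ℝ), (if v < u then ENNReal.ofReal (v ^ (-(1 / 2) : ℝ)) else 0) ≤
      ∫⁻ v in Ioc 0 u, ENNReal.ofReal (v ^ (-(1 / 2) : ℝ)) := by
    rw [← lintegral_indicator measurableSet_Ioi, ← lintegral_indicator measurableSet_Ioc]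
    refine lintegral_mono fun v => ?_
    by_cases hv : 0 < v
    · rw [indicator_of_mem (show v ∈ Ioi (0 : ℝ) from hv)]
      by_cases hvu : v < u
      · rw [if_pos hvu, indicator_of_mem (show v ∈ Ioc 0 u from ⟨hv, hvu.le⟩)]
      · rw [if_neg hvu]; exact zero_le
    · rw [indicator_of_notMem (show v ∉ Ioi (0 : ℝ) from hv)]
      exact zero_le
  have hii : IntervalIntegrable (fun v : ℝ => v ^ (-(1 / 2) : ℝ)) volume 0 u :=
    intervalIntegral.intervalIntegrable_rpow' (by norm_num)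
  have h2 : ∫⁻ v in Ioc 0 u, ENNReal.ofReal (v ^ (-(1 / 2) : ℝ)) =
      ENNReal.ofReal (2 * u ^ (1 / 2 : ℝ)) := by
    rw [← ofReal_integral_eq_lintegral_ofReal]
    · congr 1
      rw [← intervalIntegral.integral_of_le hu.le, integral_rpow (Or.inl (by norm_num))]
      have e : (-(1 / 2) : ℝ) + 1 = 1 / 2 := by norm_num
      rw [e, Real.zero_rpow (by norm_num)]
      ring
    · exact (intervalIntegrable_iff_integrableOn_Ioc_of_le hu.le).1 hii
    · filter_upwards [ae_restrict_mem measurableSet_Ioc] with v hv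
      exact Real.rpow_nonneg hv.1.le _
  calc _ ≤ 2 * ∫⁻ v in Ioc 0 u, ENNReal.ofReal (v ^ (-(1 / 2) : ℝ)) := by gcongr
    _ = ENNReal.ofReal (4 * u ^ (1 / 2 : ℝ)) := by
      rw [h2]
      have : (4 : ℝ) * u ^ (1 / 2 : ℝ) = 2 * (2 * u ^ (1 / 2 : ℝ)) := by ring
      rw [this, ENNReal.ofReal_mul (by norm_num : (0 : ℝ) ≤ 2)]
      norm_num

/-- the far integral -/
theorem far_int {u : ℝ} (hu : 0 < u) {d : ℝ} (hd : 2 ≤ d) :
    ∫⁻ v, (fun r : ℝ => if r < u then 0 else ENNReal.ofReal (r ^ (-d))) |v| ≤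
      ENNReal.ofReal (2 * u ^ (1 - d)) := by
  rw [lint_abs fun r : ℝ => if r < u then 0 else ENNReal.ofReal (r ^ (-d))]
  have h1 : ∫⁻ v in Ioi (0 : ℝ), (if v < u then 0 else ENNReal.ofReal (v ^ (-d))) ≤
      ∫⁻ v in Ici u, ENNReal.ofReal (v ^ (-d)) := by
    rw [← lintegral_indicator measurableSet_Ioi, ← lintegral_indicator measurableSet_Ici]
    refine lintegral_mono fun v => ?_
    by_cases hv : 0 < v
    · rw [indicator_of_mem (show v ∈ Ioi (0 : ℝ) from hv)]
      by_cases hvu : v < u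
      · rw [if_pos hvu]; exact zero_le
      · rw [if_neg hvu, indicator_of_mem (show v ∈ Ici u from not_lt.1 hvu)]
    · rw [indicator_of_notMem (show v ∉ Ioi (0 : ℝ) from hv)]
      exact zero_le
  have h2 : ∫⁻ v in Ici u, ENNReal.ofReal (v ^ (-d)) ≤ ENNReal.ofReal (u ^ (1 - d)) := by
    rw [setLIntegral_congr Ioi_ae_eq_Ici.symm, ← ofReal_integral_eq_lintegral_ofReal]
    · apply ENNReal.ofReal_le_ofReal
      rw [integral_Ioi_rpow_of_lt (by linarith) hu]
      have e : -d + 1 = -(d - 1) := by ring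
      have e2 : (1 : ℝ) - d = -(d - 1) := by ring
      rw [e, e2, neg_div_neg_eq]
      exact div_le_self (Real.rpow_nonneg hu.le _) (by linarith)
    · exact integrableOn_Ioi_rpow_of_lt (by linarith) hu
    · filter_upwards [ae_restrict_mem measurableSet_Ioi] with v hv
      exact Real.rpow_nonneg (hu.le.trans (le_of_lt hv)) _
  calc _ ≤ 2 * ENNReal.ofReal (u ^ (1 - d)) := by
        gcongr
        exact h1.trans h2
    _ = ENNReal.ofReal (2 * u ^ (1 - d)) := by
      rw [ENNReal.ofReal_mul (by norm_num : (0 : ℝ) ≤ 2)]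
      norm_num

/-- convolution-type bound -/
theorem block_conv (h : ℝ → ℝ≥0∞) (hh : Measurable h) (T T' : Set ℝ) :
    ∫⁻ a in T, ∫⁻ t in T', h (t - a) ≤ (∫⁻ v, h v) * min (volume T) (volume T') := by
  rw [mul_min]
  apply le_min
  · calc ∫⁻ a in T, ∫⁻ t in T', h (t - a) ≤ ∫⁻ a in T, ∫⁻ v, h v := by
          refine lintegral_mono fun a => ?_
          refine (setLIntegral_le_lintegral _ _).trans ?_
          rw [lintegral_sub_right_eq_self (fun v => h v) a]
      _ = (∫⁻ v, h v) * volume T := by rw [setLIntegral_const]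
  · rw [lintegral_lintegral_swap]
    · calc ∫⁻ t in T', ∫⁻ a in T, h (t - a) ≤ ∫⁻ t in T', ∫⁻ v, h v := by
            refine lintegral_mono fun t => ?_
            refine (setLIntegral_le_lintegral _ _).trans ?_
            rw [lintegral_sub_left_eq_self (fun v => h v) t]
        _ = (∫⁻ v, h v) * volume T' := by rw [setLIntegral_const]
    · exact (hh.comp (measurable_snd.sub measurable_fst)).aemeasurable

end Pool.Agent.D0H30.ES
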