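import Pool.Agent.D0H30.ES.PId
import Pool.Agent.D0H30.ES.TimeInt
import Pool.Agent.D0H30.ES.Arith

set_option autoImplicit false

/-! The blocks on which the density and the measures of its level sets are nearly constant. -/

namespace Pool.Agent.D0H30.ES

open MeasureTheory Filter Topology FourierTransform
open scoped ENNReal NNReal InnerProductSpace

variable {d : ℕ} {ι : Type*} (s : Finset ι) (f : ι → L2 d) (R : ℝ)

/-- the level set `2^k ≤ ρ < 2^{k+1}` -/
def lev (k : ℤ) : Set (ℝ × Rd d) :=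
  {z | ENNReal.ofReal (pw k) ≤ rho s f z ∧ rho s f z < ENNReal.ofReal (pw (k + 1))}

theorem lev_meas (k : ℤ) : MeasurableSet (lev s f k) :=
  (measurableSet_le measurable_const (rho_meas s f)).inter
    (measurableSet_lt (rho_meas s f) measurable_const)

/-- the measure of a time slice of the level set -/
noncomputable def nn (k : ℤ) (t : ℝ) : ℝ≥0∞ := volume {x : Rd d | (t, x) ∈ lev s f k}

theorem nn_meas (k : ℤ) : Measurable (nn s f k) := measurable_measure_prodMk_left (lev_meas s f k)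

/-- the times with `2^ν ≤ n_k(t) < 2^{ν+1}` -/
def TT (p : ℤ × ℤ) : Set ℝ := {t | |t| ≤ R ∧ ENNReal.ofReal (pw p.2) ≤ nn s f p.1 t ∧
  nn s f p.1 t < ENNReal.ofReal (pw (p.2 + 1))}

theorem TT_meas (p : ℤ × ℤ) : MeasurableSet (TT s f R p) := by
  have h1 : MeasurableSet {t : ℝ | |t| ≤ R} :=
    measurableSet_le measurable_norm measurable_const
  exact h1.inter ((measurableSet_le measurable_const (nn_meas s f p.1)).inter
    (measurableSet_lt (nn_meas s f p.1) measurable_const))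

/-- the block -/
def GG (p : ℤ × ℤ) : Set (ℝ × Rd d) := {z | z.1 ∈ TT s f R p ∧ z ∈ lev s f p.1}

theorem GG_meas (p : ℤ × ℤ) : MeasurableSet (GG s f R p) :=
  (measurable_fst (TT_meas s f R p)).inter (lev_meas s f p.1)

/-- a time slice of the block -/
def GS (p : ℤ × ℤ) (t : ℝ) : Set (Rd d) := {x | (t, x) ∈ GG s f R p}

theorem GS_meas (p : ℤ × ℤ) (t : ℝ) : MeasurableSet (GS s f R p t) :=
  measurable_prodMk_left (GG_meas s f R p)

theorem GS_empty {p : ℤ × ℤ} {t : ℝ} (h : t ∉ TT s f R p) : GS s f R p t = ∅ := by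
  ext x
  simp only [GS, GG, Set.mem_ofPred_eq, Set.mem_empty_iff_false, iff_false]
  exact fun hc => h hc.1

theorem GS_vol {p : ℤ × ℤ} {t : ℝ} (h : t ∈ TT s f R p) :
    volume (GS s f R p t) = nn s f p.1 t := by
  unfold nn
  congr 1
  ext x
  simp only [GS, GG, Set.mem_ofPred_eq]
  exact ⟨fun hx => hx.2, fun hx => ⟨h, hx⟩⟩

theorem GS_le (p : ℤ × ℤ) (t : ℝ) : volume (GS s f R p t) ≤ ENNReal.ofReal (2 * pw p.2) := by
  by_cases h : t ∈ TT s f R p
  · rw [GS_vol s f R h]
    refine h.2.2.le.trans (le_of_eq ?_)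
    rw [pw_add, pw_one, mul_comm]
  · rw [GS_empty s f R h, measure_empty]
    exact zero_le

theorem GS_le_ind (p : ℤ × ℤ) (t : ℝ) : volume (GS s f R p t) ≤
    (TT s f R p).indicator (fun _ => ENNReal.ofReal (2 * pw p.2)) t := by
  by_cases h : t ∈ TT s f R p
  · rw [Set.indicator_of_mem h]
    exact GS_le s f R p t
  · rw [GS_empty s f R h, measure_empty]
    exact zero_le

theorem GS_ne_top (p : ℤ × ℤ) (t : ℝ) : volume (GS s f R p t) ≠ ∞ :=
  ne_top_of_le_ne_top ENNReal.ofReal_ne_top (GS_le s f R p t)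

theorem GS_rho (p : ℤ × ℤ) (t : ℝ) : ∫⁻ x in GS s f R p t, rho s f (t, x) ≤
    ENNReal.ofReal (4 * pw ((p.1 : ℝ) + p.2)) := by
  calc ∫⁻ x in GS s f R p t, rho s f (t, x)
      ≤ ∫⁻ x in GS s f R p t, ENNReal.ofReal (pw ((p.1 : ℝ) + 1)) := by
        apply setLIntegral_mono measurable_const
        intro x hx
        exact hx.2.2.le
    _ = ENNReal.ofReal (pw ((p.1 : ℝ) + 1)) * volume (GS s f R p t) := setLIntegral_const _ _
    _ ≤ ENNReal.ofReal (pw ((p.1 : ℝ) + 1)) * ENNReal.ofReal (2 * pw p.2) := by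
        gcongr
        exact GS_le s f R p t
    _ = ENNReal.ofReal (4 * pw ((p.1 : ℝ) + p.2)) := by
        rw [← ENNReal.ofReal_mul (pw_nonneg _), pw_add, pw_one, pw_add]
        congr 1
        ring

/-- the weight of a block -/
noncomputable def wt (d : ℕ) (p : ℤ × ℤ) : ℝ := pw (((p.1 : ℝ) - p.2) / d)

theorem wt_nonneg (d : ℕ) (p : ℤ × ℤ) : 0 ≤ wt d p := pw_nonneg _

open Classical in
/-- the weight function -/
noncomputable def WW (Λ : Finset (ℤ × ℤ)) : Weight d where
  V := fun z => ∑ p ∈ Λ, wt d p * (GG s f R p).indicator (fun _ => (1 : ℝ)) z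
  meas := Finset.measurable_sum _ fun p _ =>
    (measurable_const.indicator (GG_meas s f R p)).const_mul _
  nonneg := fun z => Finset.sum_nonneg fun p _ =>
    mul_nonneg (wt_nonneg d p) (Set.indicator_nonneg (fun _ _ => zero_le_one) z)
  C := ∑ p ∈ Λ, wt d p
  bound := fun z => Finset.sum_le_sum fun p _ => by
    refine mul_le_of_le_one_right (wt_nonneg d p) ?_
    exact Set.indicator_le_self' (fun _ _ => zero_le_one) z
  R := R
  supp := fun t x ht => Finset.sum_eq_zero fun p _ => by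
    rw [Set.indicator_of_notMem, mul_zero]
    intro h
    exact absurd h.1.1 (not_le.2 ht)

theorem WW_V (Λ : Finset (ℤ × ℤ)) (z : ℝ × Rd d) :
    (WW s f R Λ).V z = ∑ p ∈ Λ, wt d p * (GG s f R p).indicator (fun _ => (1 : ℝ)) z := rfl

theorem WW_ofReal (Λ : Finset (ℤ × ℤ)) (z : ℝ × Rd d) :
    ENNReal.ofReal ((WW s f R Λ).V z) =
      ∑ p ∈ Λ, ENNReal.ofReal (wt d p) * (GG s f R p).indicator (fun _ => (1 : ℝ≥0∞)) z := by
  rw [WW_V, ENNReal.ofReal_sum_of_nonneg]
  · apply Finset.sum_congr rfl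
    intro p _
    rw [ENNReal.ofReal_mul (wt_nonneg d p)]
    congr 1
    by_cases h : z ∈ GG s f R p
    · rw [Set.indicator_of_mem h, Set.indicator_of_mem h, ENNReal.ofReal_one]
    · rw [Set.indicator_of_notMem h, Set.indicator_of_notMem h, ENNReal.ofReal_zero]
  · intro p _
    exact mul_nonneg (wt_nonneg d p) (Set.indicator_nonneg (fun _ _ => zero_le_one) z)

theorem vv_eq (Λ : Finset (ℤ × ℤ)) (g : L2 d) (t : ℝ) :
    vv (WW s f R Λ) g t =
      ∑ p ∈ Λ, ((wt d p : ℝ) : ℂ) • cut (GS s f R p t) (GS_meas s f R p t) (propagator t g) := by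
  apply Lp.ext
  have h1 : ∀ᵐ x : Rd d, ∀ p ∈ Λ, cut (GS s f R p t) (GS_meas s f R p t) (propagator t g) x =
      (GS s f R p t).indicator (propagator t g : Rd d → ℂ) x :=
    (ae_ball_iff (Finset.countable_toSet Λ)).2 fun p _ => cut_coe _ _ _
  filter_upwards [vv_coe (WW s f R Λ) g t, h1,
    coeFn_sum_smul Λ (fun p => ((wt d p : ℝ) : ℂ))
      (fun p => cut (GS s f R p t) (GS_meas s f R p t) (propagator t g))] with x h2 h3 h4
  rw [h2, h4, WW_V, Complex.ofReal_sum, Finset.sum_mul]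
  apply Finset.sum_congr rfl
  intro p hp
  rw [h3 p hp, Complex.ofReal_mul, mul_assoc]
  congr 1
  by_cases h : x ∈ GS s f R p t
  · rw [Set.indicator_of_mem h, Set.indicator_of_mem (show (t, x) ∈ GG s f R p from h),
      Complex.ofReal_one, one_mul]
  · rw [Set.indicator_of_notMem h, Set.indicator_of_notMem (show (t, x) ∉ GG s f R p from h),
      Complex.ofReal_zero, zero_mul]

/-- the pairing of two blocks -/
noncomputable def bp (p q : ℤ × ℤ) (a t : ℝ) : ℂ :=
  pair s f (GS s f R p a) (GS s f R q t) (GS_meas s f R p a) (GS_meas s f R q t) a t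

theorem pair_expand (Λ : Finset (ℤ × ℤ)) (a t : ℝ) :
    ‖∑ j ∈ s, ⟪propagator (t - a) (vv (WW s f R Λ) (f j) a), vv (WW s f R Λ) (f j) t⟫_ℂ‖ₑ ≤
      ∑ p ∈ Λ, ∑ q ∈ Λ, ENNReal.ofReal (wt d p * wt d q) * ‖bp s f R p q a t‖ₑ := by
  have h1 : ∑ j ∈ s, ⟪propagator (t - a) (vv (WW s f R Λ) (f j) a), vv (WW s f R Λ) (f j) t⟫_ℂ =
      ∑ p ∈ Λ, ∑ q ∈ Λ, (((wt d p * wt d q : ℝ)) : ℂ) * bp s f R p q a t := by
    have h2 : ∀ j ∈ s, ⟪propagator (t - a) (vv (WW s f R Λ) (f j) a),
        vv (WW s f R Λ) (f j) t⟫_ℂ = ∑ p ∈ Λ, ∑ q ∈ Λ, (((wt d p * wt d q : ℝ)) : ℂ) *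
          ⟪propagator (t - a) (cut (GS s f R p a) (GS_meas s f R p a) (propagator a (f j))),
            cut (GS s f R q t) (GS_meas s f R q t) (propagator t (f j))⟫_ℂ := by
      intro j _
      rw [vv_eq, vv_eq, ← propL_apply, map_sum, sum_inner]
      apply Finset.sum_congr rfl
      intro p _
      rw [inner_sum]
      apply Finset.sum_congr rfl
      intro q _
      rw [map_smul, inner_smul_left, inner_smul_right, propL_apply, Complex.conj_ofReal]
      push_cast
      ring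
    rw [Finset.sum_congr rfl h2, Finset.sum_comm]
    apply Finset.sum_congr rfl
    intro p _
    rw [Finset.sum_comm]
    apply Finset.sum_congr rfl
    intro q _
    unfold bp pair
    rw [Finset.mul_sum]
  rw [h1]
  refine (enorm_sum_le _ _).trans (Finset.sum_le_sum fun p _ => ?_)
  refine (enorm_sum_le _ _).trans (Finset.sum_le_sum fun q _ => ?_)
  rw [enorm_mul]
  gcongr
  rw [← ofReal_norm, Complex.norm_real,
    Real.norm_of_nonneg (mul_nonneg (wt_nonneg d p) (wt_nonneg d q))]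

theorem gam2_ind (p q : ℤ × ℤ) (a t : ℝ) :
    gam2 s f (GS s f R p a) (GS s f R q t) a t =
      ∫⁻ x, ∫⁻ y, (GG s f R p).indicator (fun _ => (1 : ℝ≥0∞)) (a, x) *
        ((GG s f R q).indicator (fun _ => (1 : ℝ≥0∞)) (t, y) * ‖gam s f (a, x) (t, y)‖ₑ ^ 2) := by
  unfold gam2
  rw [← lintegral_indicator (GS_meas s f R p a)]
  apply lintegral_congr
  intro x
  by_cases hx : x ∈ GS s f R p a
  · rw [Set.indicator_of_mem hx, ← lintegral_indicator (GS_meas s f R q t)]
    apply lintegral_congr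
    intro y
    rw [Set.indicator_of_mem (show (a, x) ∈ GG s f R p from hx), one_mul]
    by_cases hy : y ∈ GS s f R q t
    · rw [Set.indicator_of_mem hy, Set.indicator_of_mem (show (t, y) ∈ GG s f R q from hy), one_mul]
    · rw [Set.indicator_of_notMem hy, Set.indicator_of_notMem (show (t, y) ∉ GG s f R q from hy),
        zero_mul]
  · rw [Set.indicator_of_notMem hx]
    have : (a, x) ∉ GG s f R p := hx
    simp [Set.indicator_of_notMem this]

theorem gam2_meas (p q : ℤ × ℤ) :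
    Measurable fun b : ℝ × ℝ => gam2 s f (GS s f R p b.1) (GS s f R q b.2) b.1 b.2 := by
  simp only [gam2_ind]
  have h1 : Measurable fun c : ((ℝ × ℝ) × Rd d) × Rd d =>
      (GG s f R p).indicator (fun _ => (1 : ℝ≥0∞)) (c.1.1.1, c.1.2) *
        ((GG s f R q).indicator (fun _ => (1 : ℝ≥0∞)) (c.1.1.2, c.2) *
          ‖gam s f (c.1.1.1, c.1.2) (c.1.1.2, c.2)‖ₑ ^ 2) := by
    have m1 : Measurable fun c : ((ℝ × ℝ) × Rd d) × Rd d => (c.1.1.1, c.1.2) := by fun_prop
    have m2 : Measurable fun c : ((ℝ × ℝ) × Rd d) × Rd d => (c.1.1.2, c.2) := by fun_prop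
    exact ((measurable_const.indicator (GG_meas s f R p)).comp m1).mul
      (((measurable_const.indicator (GG_meas s f R q)).comp m2).mul
        (((gam_meas s f).comp (m1.prodMk m2)).enorm.pow_const 2))
  exact (h1.lintegral_prod_right' (ν := volume)).lintegral_prod_right' (ν := volume)

end Pool.Agent.D0H30.ES
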