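import Pool.Agent.D0H30.ES.Blocks

set_option autoImplicit false

/-! The main inequality. -/

namespace Pool.Agent.D0H30.ES

open MeasureTheory Filter Topology FourierTransform
open scoped ENNReal NNReal InnerProductSpace

variable {d : ℕ} {ι : Type*} (s : Finset ι) (f : ι → L2 d) (R : ℝ)

/-- the threshold -/
noncomputable def ust (d : ℕ) (p q : ℤ × ℤ) : ℝ := pw (tau d p.1 p.2 q.1 q.2)

theorem ust_pos (d : ℕ) (p q : ℤ × ℤ) : 0 < ust d p q := pw_pos _

/-- the kernel of the near part -/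
noncomputable def hn (d : ℕ) (p q : ℤ × ℤ) (v : ℝ) : ℝ≥0∞ :=
  (fun r : ℝ => if r < ust d p q then ENNReal.ofReal (r ^ (-(1 / 2) : ℝ)) else 0) |v|

/-- the kernel of the far part -/
noncomputable def hf (d : ℕ) (p q : ℤ × ℤ) (v : ℝ) : ℝ≥0∞ :=
  (fun r : ℝ => if r < ust d p q then 0 else ENNReal.ofReal (r ^ (-(d : ℝ)))) |v|

theorem hn_meas (d : ℕ) (p q : ℤ × ℤ) : Measurable (hn d p q) := by
  unfold hn
  refine Measurable.comp (g := fun r : ℝ => if r < ust d p q then
    ENNReal.ofReal (r ^ (-(1 / 2) : ℝ)) else 0) ?_ measurable_norm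
  refine Measurable.ite (measurableSet_lt measurable_id measurable_const) ?_ measurable_const
  exact (measurable_id.pow_const _).ennreal_ofReal

theorem hf_meas (d : ℕ) (p q : ℤ × ℤ) : Measurable (hf d p q) := by
  unfold hf
  refine Measurable.comp (g := fun r : ℝ => if r < ust d p q then 0 else
    ENNReal.ofReal (r ^ (-(d : ℝ)))) ?_ measurable_norm
  refine Measurable.ite (measurableSet_lt measurable_id measurable_const) measurable_const ?_
  exact (measurable_id.pow_const _).ennreal_ofReal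

/-- indicator of the times of a block -/
noncomputable def tI (p : ℤ × ℤ) (t : ℝ) : ℝ≥0∞ := (TT s f R p).indicator (fun _ => (1 : ℝ≥0∞)) t

theorem tI_meas (p : ℤ × ℤ) : Measurable (tI s f R p) :=
  measurable_const.indicator (TT_meas s f R p)

theorem disp_le {d : ℕ} {v : ℝ} (hv : v ≠ 0) : disp d v ≤ |v| ^ (-((d : ℝ) / 2)) := by
  have hv' : 0 < |v| := abs_pos.2 hv
  unfold disp
  rw [Real.rpow_neg hv'.le, ← Real.inv_rpow hv'.le]
  apply Real.rpow_le_rpow (by positivity) _ (by positivity)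
  rw [← one_div]
  apply one_div_le_one_div_of_le hv'
  have : 1 ≤ 4 * Real.pi := by nlinarith [Real.pi_gt_three]
  nlinarith

theorem min_rpow {x a b θ : ℝ} (hx : 0 ≤ x) (ha : x ≤ a) (hb : x ≤ b) (h0 : 0 ≤ θ) (h1 : θ ≤ 1) :
    x ≤ a ^ (1 - θ) * b ^ θ := by
  rcases hx.eq_or_lt with h | h
  · rw [← h]
    exact mul_nonneg (Real.rpow_nonneg (hx.trans ha) _) (Real.rpow_nonneg (hx.trans hb) _)
  · calc x = x ^ (1 - θ) * x ^ θ := by
          rw [← Real.rpow_add h]
          norm_num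
      _ ≤ a ^ (1 - θ) * b ^ θ := by
          apply mul_le_mul (Real.rpow_le_rpow hx ha (by linarith)) (Real.rpow_le_rpow hx hb h0)
            (Real.rpow_nonneg hx _) (Real.rpow_nonneg (hx.trans ha) _)

/-- the first bound in real form -/
theorem bp_bound1 (p q : ℤ × ℤ) (a t : ℝ) :
    ‖bp s f R p q a t‖ ≤ 4 * pw ((((p.1 : ℝ) + p.2) + ((q.1 : ℝ) + q.2)) / 2) := by
  have h1 := pair_bound1 s f (GS s f R p a) (GS s f R q t) (GS_meas s f R p a)
    (GS_meas s f R q t) a t
  have h2 : ‖bp s f R p q a t‖ₑ ≤ ENNReal.ofReal (4 * pw ((((p.1 : ℝ) + p.2) + ((q.1 : ℝ) + q.2)) / 2)) := by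
    refine h1.trans ?_
    calc _ ≤ (ENNReal.ofReal (4 * pw ((p.1 : ℝ) + p.2))) ^ (1 / 2 : ℝ) *
          (ENNReal.ofReal (4 * pw ((q.1 : ℝ) + q.2))) ^ (1 / 2 : ℝ) := by
          gcongr
          · exact GS_rho s f R p a
          · exact GS_rho s f R q t
      _ = _ := by
          rw [ENNReal.ofReal_rpow_of_nonneg (mul_nonneg (by norm_num) (pw_nonneg _)) (by norm_num),
            ENNReal.ofReal_rpow_of_nonneg (mul_nonneg (by norm_num) (pw_nonneg _)) (by norm_num),
            ← ENNReal.ofReal_mul (Real.rpow_nonneg (mul_nonneg (by norm_num) (pw_nonneg _)) _)]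
          congr 1
          rw [← pw_two, ← pw_add, ← pw_add, pw_rpow, pw_rpow, ← pw_add, ← pw_add]
          congr 1
          ring
  rw [← ofReal_norm] at h2
  exact (ENNReal.ofReal_le_ofReal_iff (mul_nonneg (by norm_num) (pw_nonneg _))).1 h2

theorem gam2_le (hf : Orthonormal ℂ f) (p q : ℤ × ℤ) (a t : ℝ) :
    gam2 s f (GS s f R p a) (GS s f R q t) a t ≤
      ENNReal.ofReal (4 * pw (min ((p.1 : ℝ) + p.2) ((q.1 : ℝ) + q.2))) := by
  rcases le_total ((p.1 : ℝ) + p.2) ((q.1 : ℝ) + q.2) with h | h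
  · rw [min_eq_left h]
    exact (gam2_le_left s f hf _ _ a t).trans (GS_rho s f R p a)
  · rw [min_eq_right h]
    exact (gam2_le_right s f hf _ _ a t).trans (GS_rho s f R q t)

/-- the second bound in real form -/
theorem bp_bound2 (hf : Orthonormal ℂ f) (p q : ℤ × ℤ) {a t : ℝ} (hat : a ≠ t) :
    ‖bp s f R p q a t‖ ≤ 4 * pw (((p.2 : ℝ) + q.2 + min ((p.1 : ℝ) + p.2) ((q.1 : ℝ) + q.2)) / 2) *
      |t - a| ^ (-((d : ℝ) / 2)) := by
  have h1 := pair_bound2 s f (GS s f R p a) (GS s f R q t) (GS_meas s f R p a)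
    (GS_meas s f R q t) (GS_ne_top s f R p a) (GS_ne_top s f R q t) hat
  have hnn : 0 ≤ |t - a| ^ (-((d : ℝ) / 2)) := Real.rpow_nonneg (abs_nonneg _) _
  have h2 : ‖bp s f R p q a t‖ₑ ≤ ENNReal.ofReal (4 * pw (((p.2 : ℝ) + q.2 +
      min ((p.1 : ℝ) + p.2) ((q.1 : ℝ) + q.2)) / 2) * |t - a| ^ (-((d : ℝ) / 2))) := by
    refine h1.trans ?_
    calc _ ≤ ENNReal.ofReal (|t - a| ^ (-((d : ℝ) / 2))) *
          ((ENNReal.ofReal (2 * pw p.2) * ENNReal.ofReal (2 * pw q.2)) ^ (1 / 2 : ℝ) *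
          (ENNReal.ofReal (4 * pw (min ((p.1 : ℝ) + p.2) ((q.1 : ℝ) + q.2)))) ^ (1 / 2 : ℝ)) := by
          gcongr
          · exact disp_le (sub_ne_zero.2 hat.symm)
          · exact GS_le s f R p a
          · exact GS_le s f R q t
          · exact gam2_le s f R hf p q a t
      _ = _ := by
          rw [← ENNReal.ofReal_mul (mul_nonneg (by norm_num) (pw_nonneg _)),
            ENNReal.ofReal_rpow_of_nonneg (mul_nonneg (mul_nonneg (by norm_num) (pw_nonneg _))
              (mul_nonneg (by norm_num) (pw_nonneg _))) (by norm_num),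
            ENNReal.ofReal_rpow_of_nonneg (mul_nonneg (by norm_num) (pw_nonneg _)) (by norm_num),
            ← ENNReal.ofReal_mul (Real.rpow_nonneg (mul_nonneg (mul_nonneg (by norm_num)
              (pw_nonneg _)) (mul_nonneg (by norm_num) (pw_nonneg _))) _),
            ← ENNReal.ofReal_mul hnn]
          congr 1
          rw [mul_comm]
          congr 1
          have e1 : 2 * pw (p.2 : ℝ) * (2 * pw (q.2 : ℝ)) = pw (2 + p.2 + q.2) := by
            rw [pw_add, pw_add, pw_two]; ring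
          rw [e1, ← pw_two, ← pw_add, ← pw_add, pw_rpow, pw_rpow, ← pw_add]
          congr 1
          ring
  rw [← ofReal_norm] at h2
  exact (ENNReal.ofReal_le_ofReal_iff (mul_nonneg (mul_nonneg (by norm_num) (pw_nonneg _)) hnn)).1 h2

/-- the near bound -/
theorem bp_near (hd : 2 ≤ d) (hf : Orthonormal ℂ f) (p q : ℤ × ℤ) {a t : ℝ} (hat : a ≠ t) :
    ‖bp s f R p q a t‖ ≤ 4 * pw (E1 d p.1 p.2 q.1 q.2) * |t - a| ^ (-(1 / 2) : ℝ) := by
  have hd' : (2 : ℝ) ≤ d := by exact_mod_cast hd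
  have hd0 : (0 : ℝ) < d := by linarith
  have h1 := bp_bound1 s f R p q a t
  have h2 := bp_bound2 s f R hf p q hat
  have h3 := min_rpow (θ := 1 / (d : ℝ)) (norm_nonneg _) h1 h2 (by positivity)
    (by rw [div_le_one hd0]; linarith)
  refine h3.trans (le_of_eq ?_)
  have hv : 0 < |t - a| := abs_pos.2 (sub_ne_zero.2 hat.symm)
  rw [Real.mul_rpow (mul_nonneg (by norm_num) (pw_nonneg _)) (Real.rpow_nonneg hv.le _),
    ← Real.rpow_mul hv.le, ← mul_assoc, ← pw_two, ← pw_add, ← pw_add, ← pw_add, pw_rpow, pw_rpow,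
    ← pw_add]
  congr 2
  · unfold E1
    field_simp
    ring
  · field_simp

/-- a pairing of blocks vanishes outside their times -/
theorem bp_zero (p q : ℤ × ℤ) {a t : ℝ} (h : a ∉ TT s f R p ∨ t ∉ TT s f R q) :
    bp s f R p q a t = 0 := by
  have h1 := pair_bound1 s f (GS s f R p a) (GS s f R q t) (GS_meas s f R p a)
    (GS_meas s f R q t) a t
  have h2 : ‖bp s f R p q a t‖ₑ ≤ 0 := by
    refine h1.trans (le_of_eq ?_)
    rcases h with h | h
    · rw [GS_empty s f R h]
      simp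
    · rw [GS_empty s f R h]
      simp
  rwa [nonpos_iff_eq_zero, enorm_eq_zero] at h2

/-- the near/far splitting -/
theorem bp_split (hd : 2 ≤ d) (hfo : Orthonormal ℂ f) (p q : ℤ × ℤ) {a t : ℝ} (hat : a ≠ t) :
    ‖bp s f R p q a t‖ₑ ≤
      ENNReal.ofReal (4 * pw (E1 d p.1 p.2 q.1 q.2)) *
        (tI s f R p a * tI s f R q t * hn d p q (t - a)) +
      (ENNReal.ofReal (4 * pw ((p.2 : ℝ) + q.2)) *
        (tI s f R p a * tI s f R q t * hf d p q (t - a))) ^ (1 / 2 : ℝ) *
        (gam2 s f (GS s f R p a) (GS s f R q t) a t) ^ (1 / 2 : ℝ) := by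
  by_cases ha : a ∈ TT s f R p
  swap
  · rw [bp_zero s f R p q (Or.inl ha), enorm_zero]
    exact zero_le
  by_cases ht : t ∈ TT s f R q
  swap
  · rw [bp_zero s f R p q (Or.inr ht), enorm_zero]
    exact zero_le
  have e1 : tI s f R p a = 1 := Set.indicator_of_mem ha _
  have e2 : tI s f R q t = 1 := Set.indicator_of_mem ht _
  have hv : 0 < |t - a| := abs_pos.2 (sub_ne_zero.2 hat.symm)
  rw [e1, e2, one_mul, one_mul, one_mul]
  by_cases h : |t - a| < ust d p q
  · refine le_trans ?_ le_self_add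
    have e3 : hn d p q (t - a) = ENNReal.ofReal (|t - a| ^ (-(1 / 2) : ℝ)) := by
      unfold hn
      simp only
      rw [if_pos h]
    rw [e3, ← ENNReal.ofReal_mul (mul_nonneg (by norm_num) (pw_nonneg _)), ← ofReal_norm]
    exact ENNReal.ofReal_le_ofReal (bp_near s f R hd hfo p q hat)
  · refine le_trans ?_ le_add_self
    have e3 : hf d p q (t - a) = ENNReal.ofReal (|t - a| ^ (-(d : ℝ))) := by
      unfold hf
      simp only
      rw [if_neg h]
    have h1 := pair_bound2 s f (GS s f R p a) (GS s f R q t) (GS_meas s f R p a)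
      (GS_meas s f R q t) (GS_ne_top s f R p a) (GS_ne_top s f R q t) hat
    refine h1.trans ?_
    rw [← mul_assoc]
    gcongr
    rw [e3]
    calc _ ≤ ENNReal.ofReal (|t - a| ^ (-((d : ℝ) / 2))) *
          (ENNReal.ofReal (2 * pw p.2) * ENNReal.ofReal (2 * pw q.2)) ^ (1 / 2 : ℝ) := by
          gcongr
          · exact disp_le (sub_ne_zero.2 hat.symm)
          · exact GS_le s f R p a
          · exact GS_le s f R q t
      _ = _ := by
          have e4 : (ENNReal.ofReal (4 * pw ((p.2 : ℝ) + q.2)) *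
              ENNReal.ofReal (|t - a| ^ (-(d : ℝ)))) ^ (1 / 2 : ℝ) =
              (ENNReal.ofReal (4 * pw ((p.2 : ℝ) + q.2))) ^ (1 / 2 : ℝ) *
              (ENNReal.ofReal (|t - a| ^ (-(d : ℝ)))) ^ (1 / 2 : ℝ) :=
            ENNReal.mul_rpow_of_nonneg _ _ (by norm_num : (0 : ℝ) ≤ 1 / 2)
          have e5 : ENNReal.ofReal (2 * pw p.2) * ENNReal.ofReal (2 * pw q.2) =
              ENNReal.ofReal (4 * pw ((p.2 : ℝ) + q.2)) := by
            rw [← ENNReal.ofReal_mul (mul_nonneg (by norm_num) (pw_nonneg _))]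
            congr 1
            rw [pw_add]; ring
          have e6 : (ENNReal.ofReal (|t - a| ^ (-(d : ℝ)))) ^ (1 / 2 : ℝ) =
              ENNReal.ofReal (|t - a| ^ (-((d : ℝ) / 2))) := by
            rw [ENNReal.ofReal_rpow_of_nonneg (Real.rpow_nonneg hv.le _) (by norm_num),
              ← Real.rpow_mul hv.le]
            congr 2
            ring
          rw [e4, e5, e6, mul_comm]

end Pool.Agent.D0H30.ES
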