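import Mathlib

set_option autoImplicit false

/-! Definitions for the endpoint Strichartz estimate for orthonormal systems. -/

namespace Pool.Agent.D0H30.ES

open MeasureTheory Filter Topology FourierTransform
open scoped ENNReal NNReal

/-- `ℝ^d`. -/
abbrev Rd (d : ℕ) := EuclideanSpace ℝ (Fin d)

/-- `L²(ℝ^d)`. -/
noncomputable abbrev L2 (d : ℕ) := Lp ℂ 2 (volume : Measure (Rd d))

/-- The symbol `e^{-it|2πξ|²}` of `e^{itΔ}` (with the normalisation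
`𝓕 f (ξ) = ∫ e^{-2πi⟨x,ξ⟩} f(x) dx` of the Fourier transform). -/
noncomputable def symbol (d : ℕ) (t : ℝ) (ξ : Rd d) : ℂ :=
  Complex.exp (-((t * (2 * Real.pi * ‖ξ‖) ^ 2 : ℝ) : ℂ) * Complex.I)

theorem norm_symbol (d : ℕ) (t : ℝ) (ξ : Rd d) : ‖symbol d t ξ‖ = 1 := by
  unfold symbol
  rw [← Complex.ofReal_neg, Complex.norm_exp_ofReal_mul_I]

theorem continuous_symbol (d : ℕ) : Continuous fun z : ℝ × Rd d => symbol d z.1 z.2 := by
  unfold symbol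
  fun_prop

theorem memLp_symbol_mul {d : ℕ} (t : ℝ) (g : L2 d) :
    MemLp (fun ξ => symbol d t ξ * g ξ) 2 volume := by
  have h1 : AEStronglyMeasurable (fun ξ => symbol d t ξ * g ξ) volume :=
    (((continuous_symbol d).comp (by fun_prop : Continuous fun ξ : Rd d => (t, ξ))).aestronglyMeasurable).mul
      (Lp.memLp g).1
  exact (Lp.memLp g).of_le h1 (Eventually.of_forall fun ξ => by
    rw [norm_mul, norm_symbol, one_mul])

/-- The free Schrödinger propagator `e^{itΔ}` on `L²(ℝ^d)`: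
the Fourier transform of `e^{itΔ} f` is `e^{-it|2πξ|²} (𝓕 f)(ξ)`. -/
noncomputable def propagator {d : ℕ} (t : ℝ) (f : L2 d) : L2 d :=
  𝓕⁻ ((memLp_symbol_mul t (𝓕 f)).toLp (fun ξ => symbol d t ξ * (𝓕 f : L2 d) ξ))

/-- The mixed norm `‖F‖_{L^p_t L^q_x} = (∫ ‖F(t,·)‖_{L^q}^p dt)^{1/p}`. -/
noncomputable def mixedNorm {d : ℕ} (p q : ℝ) (F : ℝ → Rd d → ℂ) : ℝ≥0∞ :=
  (∫⁻ t, ((∫⁻ x, ‖F t x‖ₑ ^ q) ^ (1 / q)) ^ p) ^ (1 / p)

/-- The decreasing rearrangement of `|lam|`: `rearr lam n` is the term with index `n + 1` (that is,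
`rearr lam 0 ≥ rearr lam 1 ≥ ...`). -/
noncomputable def rearr {ι : Type} (lam : ι → ℂ) (n : ℕ) : ℝ≥0∞ :=
  sInf {s : ℝ≥0∞ | {i | s < ‖lam i‖ₑ}.encard ≤ n}

/-- The norm `∑_{j ≥ 1} j^{1/α - 1} lam*_j` of the Lorentz sequence space `ℓ^{α,1}`. -/
noncomputable def lorentzNorm {ι : Type} (α : ℝ) (lam : ι → ℂ) : ℝ≥0∞ :=
  ∑' n : ℕ, ENNReal.ofReal (((n : ℝ) + 1) ^ (1 / α - 1)) * rearr lam n

/-- The density `∑_j lam_j |e^{itΔ} f_j|²`. -/
noncomputable def density {d : ℕ} {ι : Type} (lam : ι → ℂ) (f : ι → L2 d) (t : ℝ) (x : Rd d) : ℂ :=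
  ∑' j, lam j * ((‖propagator t (f j) x‖ ^ 2 : ℝ) : ℂ)

end Pool.Agent.D0H30.ES
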