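import Pool.Agent.D0H30.ES.Total

set_option autoImplicit false

/-! From the blocks to the mixed norm, finite systems. -/

namespace Pool.Agent.D0H30.ES

open MeasureTheory Filter Topology FourierTransform
open scoped ENNReal NNReal InnerProductSpace

/-- subadditivity of `x ↦ x^θ` for series -/
theorem tsum_rpow_le {κ : Type*} (a : κ → ℝ≥0∞) {θ : ℝ} (h0 : 0 < θ) (h1 : θ ≤ 1) :
    (∑' i, a i) ^ θ ≤ ∑' i, a i ^ θ := by
  have hfin : ∀ S : Finset κ, (∑ i ∈ S, a i) ^ θ ≤ ∑ i ∈ S, a i ^ θ := by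
    intro S
    classical
    induction S using Finset.induction_on with
    | empty => simp [h0]
    | insert i S hi ih =>
      rw [Finset.sum_insert hi, Finset.sum_insert hi]
      refine (ENNReal.rpow_add_le_add_rpow _ _ h0.le h1).trans ?_
      gcongr
  have h2 : Tendsto (fun S : Finset κ => (∑ i ∈ S, a i) ^ θ) atTop (𝓝 ((∑' i, a i) ^ θ)) :=
    (ENNReal.continuous_rpow_const.tendsto _).comp ENNReal.summable.hasSum
  exact le_of_tendsto h2 (Eventually.of_forall fun S => (hfin S).trans (ENNReal.sum_le_tsum S))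

/-- dyadic localisation of a positive finite number -/
theorem exists_dyadic {x : ℝ≥0∞} (h0 : x ≠ 0) (h1 : x ≠ ∞) :
    ∃ k : ℤ, ENNReal.ofReal (pw k) ≤ x ∧ x < ENNReal.ofReal (pw (k + 1)) := by
  obtain ⟨y, hy0, rfl⟩ : ∃ y : ℝ, 0 < y ∧ x = ENNReal.ofReal y :=
    ⟨x.toReal, ENNReal.toReal_pos h0 h1, (ENNReal.ofReal_toReal h1).symm⟩
  obtain ⟨k, hk1, hk2⟩ := exists_mem_Ico_zpow hy0 (by norm_num : (1 : ℝ) < 2)
  refine ⟨k, ?_, ?_⟩
  · apply ENNReal.ofReal_le_ofReal
    unfold pw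
    rwa [Real.rpow_intCast]
  · rw [ENNReal.ofReal_lt_ofReal_iff (pw_pos _)]
    unfold pw
    have : ((k : ℝ) + 1) = ((k + 1 : ℤ) : ℝ) := by push_cast; ring
    rw [this, Real.rpow_intCast]
    exact hk2

variable {d : ℕ} {ι : Type*} (s : Finset ι) (f : ι → L2 d)

theorem rho_ne_top (z : ℝ × Rd d) : rho s f z ≠ ∞ := by
  unfold rho
  exact (ENNReal.sum_lt_top.2 fun j _ => ENNReal.pow_lt_top enorm_lt_top).ne

theorem nn_ne_top (hfo : Orthonormal ℂ f) (k : ℤ) (t : ℝ) : nn s f k t ≠ ∞ := by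
  have h1 : ENNReal.ofReal (pw k) * nn s f k t ≤ s.card := by
    rw [← rho_lint s f t hfo]
    have hm : Measurable fun x : Rd d => rho s f (t, x) := (rho_meas s f).comp measurable_prodMk_left
    refine le_trans ?_ (mul_meas_ge_le_lintegral₀ hm.aemeasurable (ENNReal.ofReal (pw k)))
    gcongr
    apply measure_mono
    intro x hx
    exact hx.1
  intro h
  rw [h, ENNReal.mul_top (by simpa using pw_pos _)] at h1
  exact absurd h1 (by simp)

/-- the exponents -/
noncomputable def pp (d : ℕ) : ℝ := ((d : ℝ) + 1) / d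
noncomputable def qq (d : ℕ) : ℝ := ((d : ℝ) + 1) / (d - 1)

/-- the bound at one time -/
theorem slice_bound (hd : 2 ≤ d) (hfo : Orthonormal ℂ f) (R : ℝ) {t : ℝ} (ht : |t| ≤ R) :
    (∫⁻ x, rho s f (t, x) ^ qq d) ^ (((d : ℝ) - 1) / d) ≤
      ∑' p : ℤ × ℤ, 4 * (ENNReal.ofReal (pw (LL d p.1 p.2 / d)) *
        (TT s f R p).indicator (fun _ => (1 : ℝ≥0∞)) t) := by
  have hd' : (2 : ℝ) ≤ d := by exact_mod_cast hd
  have hd0 : (0 : ℝ) < d := by linarith
  have hd1 : (0 : ℝ) < (d : ℝ) - 1 := by linarith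
  have hq : 0 < qq d := by unfold qq; positivity
  set θ : ℝ := ((d : ℝ) - 1) / d with hθ
  have hθ0 : 0 < θ := by positivity
  have hθ1 : θ ≤ 1 := by rw [hθ, div_le_one hd0]; linarith
  -- the space integral
  have h1 : ∫⁻ x, rho s f (t, x) ^ qq d ≤
      ∑' k : ℤ, ENNReal.ofReal (pw (((k : ℝ) + 1) * qq d)) * nn s f k t := by
    have h2 : ∀ x : Rd d, rho s f (t, x) ^ qq d ≤ ∑' k : ℤ,
        ({x : Rd d | (t, x) ∈ lev s f k}.indicator
          (fun _ => ENNReal.ofReal (pw (((k : ℝ) + 1) * qq d))) x) := by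
      intro x
      by_cases h0 : rho s f (t, x) = 0
      · rw [h0, ENNReal.zero_rpow_of_pos hq]
        exact zero_le
      · obtain ⟨k, hk1, hk2⟩ := exists_dyadic h0 (rho_ne_top s f (t, x))
        refine le_trans ?_ (ENNReal.le_tsum k)
        rw [Set.indicator_of_mem (show x ∈ {x : Rd d | (t, x) ∈ lev s f k} from ⟨hk1, hk2⟩)]
        calc rho s f (t, x) ^ qq d ≤ (ENNReal.ofReal (pw ((k : ℝ) + 1))) ^ qq d := by
              gcongr
          _ = _ := by
              rw [ENNReal.ofReal_rpow_of_nonneg (pw_nonneg _) hq.le, pw_rpow]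
    have hms : ∀ k : ℤ, MeasurableSet {x : Rd d | (t, x) ∈ lev s f k} := fun k =>
      measurable_prodMk_left (lev_meas s f k)
    calc ∫⁻ x, rho s f (t, x) ^ qq d ≤ ∫⁻ x, ∑' k : ℤ,
        ({x : Rd d | (t, x) ∈ lev s f k}.indicator
          (fun _ => ENNReal.ofReal (pw (((k : ℝ) + 1) * qq d))) x) := lintegral_mono h2
      _ = ∑' k : ℤ, ∫⁻ x, ({x : Rd d | (t, x) ∈ lev s f k}.indicator
          (fun _ => ENNReal.ofReal (pw (((k : ℝ) + 1) * qq d))) x) :=
          lintegral_tsum fun k => (measurable_const.indicator (hms k)).aemeasurable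
      _ = _ := by
          congr 1
          ext k
          rw [lintegral_indicator (hms k), setLIntegral_const]
          rfl
  calc (∫⁻ x, rho s f (t, x) ^ qq d) ^ θ ≤
        (∑' k : ℤ, ENNReal.ofReal (pw (((k : ℝ) + 1) * qq d)) * nn s f k t) ^ θ := by
        gcongr
    _ ≤ ∑' k : ℤ, (ENNReal.ofReal (pw (((k : ℝ) + 1) * qq d)) * nn s f k t) ^ θ :=
        tsum_rpow_le _ hθ0 hθ1
    _ ≤ ∑' k : ℤ, ∑' ν : ℤ, 4 * (ENNReal.ofReal (pw (LL d k ν / d)) *
        (TT s f R (k, ν)).indicator (fun _ => (1 : ℝ≥0∞)) t) := by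
        apply ENNReal.tsum_le_tsum
        intro k
        by_cases h0 : nn s f k t = 0
        · rw [h0, mul_zero, ENNReal.zero_rpow_of_pos hθ0]
          exact zero_le
        · obtain ⟨ν, hν1, hν2⟩ := exists_dyadic h0 (nn_ne_top s f hfo k t)
          refine le_trans ?_ (ENNReal.le_tsum ν)
          rw [Set.indicator_of_mem (show t ∈ TT s f R (k, ν) from ⟨ht, hν1, hν2⟩), mul_one]
          calc (ENNReal.ofReal (pw (((k : ℝ) + 1) * qq d)) * nn s f k t) ^ θ ≤
                (ENNReal.ofReal (pw (((k : ℝ) + 1) * qq d)) *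
                  ENNReal.ofReal (pw ((ν : ℝ) + 1))) ^ θ := by
                gcongr
            _ = 4 * ENNReal.ofReal (pw (LL d k ν / d)) := by
                rw [← ENNReal.ofReal_mul (pw_nonneg _), ← pw_add,
                  ENNReal.ofReal_rpow_of_nonneg (pw_nonneg _) hθ0.le, pw_rpow]
                have e4 : (4 : ℝ≥0∞) = ENNReal.ofReal 4 := by norm_num
                rw [e4, ← ENNReal.ofReal_mul (by norm_num), ← pw_two, ← pw_add]
                congr 2
                unfold qq LL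
                rw [hθ]
                field_simp
                ring
    _ = _ := by
        rw [← ENNReal.tsum_prod]

theorem lint_le_blocks (hd : 2 ≤ d) (hfo : Orthonormal ℂ f) (R : ℝ) :
    ∫⁻ t in {t : ℝ | |t| ≤ R}, (∫⁻ x, rho s f (t, x) ^ qq d) ^ (((d : ℝ) - 1) / d) ≤
      16 * KK d * s.card := by
  have hmT : ∀ p : ℤ × ℤ, Measurable fun t : ℝ => 4 * (ENNReal.ofReal (pw (LL d p.1 p.2 / d)) *
        (TT s f R p).indicator (fun _ => (1 : ℝ≥0∞)) t) := fun p =>
    ((measurable_const.indicator (TT_meas s f R p)).const_mul _).const_mul _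
  have hms : MeasurableSet {t : ℝ | |t| ≤ R} := measurableSet_le measurable_norm measurable_const
  calc _ ≤ ∫⁻ t in {t : ℝ | |t| ≤ R}, ∑' p : ℤ × ℤ, 4 * (ENNReal.ofReal (pw (LL d p.1 p.2 / d)) *
        (TT s f R p).indicator (fun _ => (1 : ℝ≥0∞)) t) := by
        apply setLIntegral_mono (Measurable.tsum hmT)
        intro t ht
        exact slice_bound s f hd hfo R ht
    _ ≤ ∫⁻ t, ∑' p : ℤ × ℤ, 4 * (ENNReal.ofReal (pw (LL d p.1 p.2 / d)) *
        (TT s f R p).indicator (fun _ => (1 : ℝ≥0∞)) t) := setLIntegral_le_lintegral _ _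
    _ = ∑' p : ℤ × ℤ, 4 * JJ s f R p := by
        rw [lintegral_tsum fun p => (hmT p).aemeasurable]
        congr 1
        ext p
        rw [lintegral_const_mul' _ _ (by norm_num), lintegral_const_mul' _ _ ENNReal.ofReal_ne_top,
          lintegral_indicator (TT_meas s f R p), setLIntegral_const, one_mul]
        rfl
    _ = 4 * ∑' p : ℤ × ℤ, JJ s f R p := ENNReal.tsum_mul_left
    _ ≤ 4 * (4 * KK d * s.card) := by
        gcongr
        rw [ENNReal.tsum_eq_iSup_sum]
        exact iSup_le fun Λ => blocks_bound s f R hd hfo Λ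
    _ = 16 * KK d * s.card := by ring

/-- **The estimate for finite orthonormal systems.** -/
theorem finite_bound (hd : 2 ≤ d) (hfo : Orthonormal ℂ f) :
    ∫⁻ t, (∫⁻ x, rho s f (t, x) ^ qq d) ^ (((d : ℝ) - 1) / d) ≤ 16 * KK d * s.card := by
  have h1 : (⋃ n : ℕ, {t : ℝ | |t| ≤ n}) = Set.univ := by
    ext t
    simp only [Set.mem_iUnion, Set.mem_ofPred_eq, Set.mem_univ, iff_true]
    exact exists_nat_ge |t|
  have h2 := setLIntegral_iUnion_of_directed (μ := (volume : Measure ℝ))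
    (fun t => (∫⁻ x, rho s f (t, x) ^ qq d) ^ (((d : ℝ) - 1) / d))
    (s := fun n : ℕ => {t : ℝ | |t| ≤ n})
    (Monotone.directed_le fun m n hmn t ht => by
      have : (m : ℝ) ≤ n := by exact_mod_cast hmn
      exact le_trans (show |t| ≤ (m : ℝ) from ht) this)
  rw [h1, Measure.restrict_univ] at h2
  rw [h2]
  exact iSup_le fun n => lint_le_blocks s f hd hfo n

end Pool.Agent.D0H30.ES
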