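import Pool.Agent.D0H30.ES.Lor

set_option autoImplicit false

/-! The endpoint estimate. -/

namespace Pool.Agent.D0H30.ES

open MeasureTheory Filter Topology
open scoped ENNReal NNReal

variable {d : ℕ}

/-- the majorant of the density -/
noncomputable def maj {ι : Type} (lam : ι → ℂ) (f : ι → L2 d) (z : ℝ × Rd d) : ℝ≥0∞ :=
  ∑' j, ‖lam j‖ₑ * ‖uu (f j) z‖ₑ ^ 2

theorem maj_meas {ι : Type} [Countable ι] (lam : ι → ℂ) (f : ι → L2 d) :
    Measurable (maj lam f) := by
  unfold maj
  apply Measurable.tsum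
  intro j
  exact ((uu_meas (f j)).enorm.pow_const 2).const_mul _

theorem maj_le {ι : Type} (lam : ι → ℂ) (f : ι → L2 d) (A : ℤ → Finset ι)
    (hA : ∀ m, (A m : Set ι) = lset lam m) (z : ℝ × Rd d) :
    maj lam f z ≤ ∑' m : ℤ, ENNReal.ofReal (pw (m + 1)) * rho (A m) f z := by
  classical
  unfold maj
  have h1 : ∀ j : ι, ‖lam j‖ₑ * ‖uu (f j) z‖ₑ ^ 2 ≤
      ∑' m : ℤ, (if j ∈ A m then ENNReal.ofReal (pw (m + 1)) * ‖uu (f j) z‖ₑ ^ 2 else 0) := by
    intro j
    by_cases h0 : ‖lam j‖ₑ = 0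
    · rw [h0, zero_mul]
      exact zero_le
    obtain ⟨k, hk1, hk2⟩ := exists_dyadic h0 enorm_ne_top
    have hj : j ∈ A k := by
      have : j ∈ (A k : Set ι) := by
        rw [hA]
        exact ⟨hk1, hk2⟩
      exact this
    refine le_trans ?_ (ENNReal.le_tsum k)
    rw [if_pos hj]
    gcongr
  refine (ENNReal.tsum_le_tsum h1).trans ?_
  rw [ENNReal.tsum_comm]
  apply ENNReal.tsum_le_tsum
  intro m
  unfold rho
  rw [tsum_eq_sum (s := A m) (fun j hj => if_neg hj), Finset.mul_sum]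
  apply Finset.sum_le_sum
  intro j hj
  rw [if_pos hj]

/-- the constant -/
noncomputable def CE (d : ℕ) : ℝ≥0∞ := 4 * (16 * KK d) ^ (1 / pp d)

theorem pp_one_le (hd : 2 ≤ d) : 1 ≤ pp d := by
  have hd' : (2 : ℝ) ≤ d := by exact_mod_cast hd
  unfold pp
  rw [le_div_iff₀ (by linarith)]
  linarith

theorem qq_one_le (hd : 2 ≤ d) : 1 ≤ qq d := by
  have hd' : (2 : ℝ) ≤ d := by exact_mod_cast hd
  unfold qq
  rw [le_div_iff₀ (by linarith)]
  linarith

theorem CE_ne_top (hd : 2 ≤ d) : CE d ≠ ∞ := by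
  unfold CE
  apply ENNReal.mul_ne_top (by norm_num)
  apply ENNReal.rpow_ne_top_of_nonneg
  · have := pp_one_le hd
    positivity
  · exact ENNReal.mul_ne_top (by norm_num) (KK_ne_top hd)

theorem mn_maj_le (hd : 2 ≤ d) {ι : Type} [Countable ι] (lam : ι → ℂ) (f : ι → L2 d)
    (hfo : Orthonormal ℂ f) (hlam : lorentzNorm (pp d) lam ≠ ∞) :
    mn (pp d) (qq d) (maj lam f) ≤ CE d * lorentzNorm (pp d) lam := by
  have hp := pp_one_le hd
  have hq := qq_one_le hd
  have hfin := fun m => lset_finite lam hp hlam m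
  set A : ℤ → Finset ι := fun m => (hfin m).toFinset with hAdef
  have hA : ∀ m, (A m : Set ι) = lset lam m := fun m => (hfin m).coe_toFinset
  calc mn (pp d) (qq d) (maj lam f) ≤
        mn (pp d) (qq d) (fun z => ∑' m : ℤ, ENNReal.ofReal (pw (m + 1)) * rho (A m) f z) :=
        mn_mono (by linarith) (by linarith) (maj_le lam f A hA)
    _ ≤ ∑' m : ℤ, mn (pp d) (qq d) (fun z => ENNReal.ofReal (pw (m + 1)) * rho (A m) f z) :=
        mn_tsum hp hq (fun (m : ℤ) z => ENNReal.ofReal (pw (m + 1)) * rho (A m) f z)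
          fun m => (rho_meas (A m) f).const_mul _
    _ ≤ ∑' m : ℤ, (2 * (16 * KK d) ^ (1 / pp d)) *
          (ENNReal.ofReal (pw m) * ((A m).card : ℝ≥0∞) ^ (1 / pp d)) := by
        apply ENNReal.tsum_le_tsum
        intro m
        rw [mn_const_mul (by linarith) (by linarith) _ ENNReal.ofReal_ne_top]
        calc _ ≤ ENNReal.ofReal (pw (m + 1)) * (16 * KK d * (A m).card) ^ (1 / pp d) := by
              gcongr
              exact mn_rho hd (A m) f hfo
          _ = _ := by
              rw [ENNReal.mul_rpow_of_nonneg _ _ (by positivity)]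
              have e1 : ENNReal.ofReal (pw ((m : ℝ) + 1)) = 2 * ENNReal.ofReal (pw m) := by
                rw [pw_add, ENNReal.ofReal_mul (pw_nonneg _), mul_comm]
                congr 1
                unfold pw
                norm_num
              rw [e1]
              ring
    _ ≤ (2 * (16 * KK d) ^ (1 / pp d)) * (2 * lorentzNorm (pp d) lam) := by
        rw [ENNReal.tsum_mul_left]
        gcongr
        exact dyadic_le_lorentz hp lam A hA
    _ = CE d * lorentzNorm (pp d) lam := by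
        unfold CE
        ring

theorem ae_uu {ι : Type} [Countable ι] (f : ι → L2 d) (t : ℝ) :
    ∀ᵐ x, ∀ j, uu (f j) (t, x) = propagator t (f j) x := by
  rw [ae_all_iff]
  intro j
  exact uu_ae (f j) t

theorem enorm_density_le {ι : Type} (lam : ι → ℂ) (f : ι → L2 d) (t : ℝ) (x : Rd d)
    (h : ∀ j, uu (f j) (t, x) = propagator t (f j) x) :
    ‖density lam f t x‖ₑ ≤ maj lam f (t, x) := by
  unfold density maj
  refine enorm_tsum_le_tsum_enorm.trans (le_of_eq ?_)
  congr 1
  ext j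
  rw [enorm_mul, h j]
  congr 1
  rw [← ofReal_norm, Complex.norm_real, norm_pow, norm_norm, ENNReal.ofReal_pow (norm_nonneg _),
    ofReal_norm]

theorem mixedNorm_density_le {p q : ℝ} (hp : 0 < p) (hq : 0 < q) {ι : Type} [Countable ι]
    (lam : ι → ℂ) (f : ι → L2 d) :
    mixedNorm p q (density lam f) ≤ mn p q (maj lam f) := by
  unfold mixedNorm mn
  apply ENNReal.rpow_le_rpow _ (by positivity)
  apply lintegral_mono
  intro t
  apply ENNReal.rpow_le_rpow _ hp.le
  apply ENNReal.rpow_le_rpow _ (by positivity)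
  apply lintegral_mono_ae
  filter_upwards [ae_uu f t] with x hx
  gcongr
  exact enorm_density_le lam f t x hx

theorem summable_density (hd : 2 ≤ d) {ι : Type} [Countable ι] (lam : ι → ℂ) (f : ι → L2 d)
    (hfo : Orthonormal ℂ f) (hlam : lorentzNorm (pp d) lam ≠ ∞) :
    ∀ᵐ t : ℝ, ∀ᵐ x : Rd d, Summable fun j => lam j * ((‖propagator t (f j) x‖ ^ 2 : ℝ) : ℂ) := by
  have hp := pp_one_le hd
  have hq := qq_one_le hd
  have h1 : mn (pp d) (qq d) (maj lam f) ≠ ∞ :=
    ne_top_of_le_ne_top (ENNReal.mul_ne_top (CE_ne_top hd) hlam) (mn_maj_le hd lam f hfo hlam)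
  have h2 : ∫⁻ t, ((∫⁻ x, maj lam f (t, x) ^ qq d) ^ (1 / qq d)) ^ pp d ≠ ∞ := by
    intro h
    apply h1
    unfold mn
    rw [h]
    exact ENNReal.top_rpow_of_pos (by positivity)
  have h3 := ae_lt_top ((inner_meas (qq d) (maj_meas lam f)).pow_const (pp d)) h2
  filter_upwards [h3] with t ht
  have h4 : ∫⁻ x, maj lam f (t, x) ^ qq d ≠ ∞ := by
    intro h
    rw [h, ENNReal.top_rpow_of_pos (by positivity), ENNReal.top_rpow_of_pos (by positivity)] at ht
    exact lt_irrefl _ ht
  have h5 := ae_lt_top (((maj_meas lam f).comp measurable_prodMk_left).pow_const (qq d)) h4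
  filter_upwards [h5, ae_uu f t] with x hx hu
  have h6 : maj lam f (t, x) ≠ ∞ := by
    intro h
    simp only [Function.comp_apply, h] at hx
    rw [ENNReal.top_rpow_of_pos (by positivity)] at hx
    exact lt_irrefl _ hx
  unfold maj at h6
  apply Summable.of_norm
  have h7 := ENNReal.summable_toReal h6
  refine h7.congr fun j => ?_
  rw [hu j, ENNReal.toReal_mul, toReal_enorm, ENNReal.toReal_pow, toReal_enorm, norm_mul,
    Complex.norm_real, norm_pow, norm_norm]

theorem measurable_density {ι : Type} [Countable ι] (lam : ι → ℂ) (f : ι → L2 d) :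
    ∃ G : ℝ × Rd d → ℂ, Measurable G ∧ ∀ t, ∀ᵐ x, density lam f t x = G (t, x) := by
  refine ⟨fun z => ∑' j, lam j * ((‖uu (f j) z‖ ^ 2 : ℝ) : ℂ), ?_, ?_⟩
  · apply Measurable.tsum
    intro j
    exact (Complex.measurable_ofReal.comp ((uu_meas (f j)).norm.pow_const 2)).const_mul _
  · intro t
    filter_upwards [ae_uu f t] with x hx
    unfold density
    simp only [hx]

theorem measurable_inner {ι : Type} [Countable ι] (lam : ι → ℂ) (f : ι → L2 d) (q : ℝ) :
    Measurable fun t => (∫⁻ x, ‖density lam f t x‖ₑ ^ q) ^ (1 / q) := by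
  obtain ⟨G, hG, h⟩ := measurable_density lam f
  have h1 : (fun t => (∫⁻ x, ‖density lam f t x‖ₑ ^ q) ^ (1 / q)) =
      fun t => (∫⁻ x, ‖G (t, x)‖ₑ ^ q) ^ (1 / q) := by
    ext t
    congr 1
    apply lintegral_congr_ae
    filter_upwards [h t] with x hx
    rw [hx]
  rw [h1]
  exact inner_meas q hG.enorm

end Pool.Agent.D0H30.ES
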