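import Pool.Agent.D0H30.ES.Ops

set_option autoImplicit false

/-! The kernel of the projection onto the span of the orthonormal system. -/

namespace Pool.Agent.D0H30.ES

open MeasureTheory Filter Topology FourierTransform
open scoped ENNReal NNReal InnerProductSpace

variable {d : ℕ} {ι : Type*}

/-- the kernel `∑_j conj(u_j(s,x)) u_j(t,y)` -/
noncomputable def gam (s : Finset ι) (f : ι → L2 d) (z w : ℝ × Rd d) : ℂ :=
  ∑ j ∈ s, (starRingEnd ℂ) (uu (f j) z) * uu (f j) w

/-- the density `∑_j |u_j|²` -/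
noncomputable def rho (s : Finset ι) (f : ι → L2 d) (z : ℝ × Rd d) : ℝ≥0∞ :=
  ∑ j ∈ s, ‖uu (f j) z‖ₑ ^ 2

theorem rho_meas (s : Finset ι) (f : ι → L2 d) : Measurable (rho s f) :=
  Finset.measurable_sum _ fun j _ => (uu_meas (f j)).enorm.pow_const 2

theorem gam_meas (s : Finset ι) (f : ι → L2 d) :
    Measurable fun p : (ℝ × Rd d) × (ℝ × Rd d) => gam s f p.1 p.2 := by
  apply Finset.measurable_sum
  intro j _
  exact (Complex.continuous_conj.measurable.comp ((uu_meas (f j)).comp measurable_fst)).mul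
    ((uu_meas (f j)).comp measurable_snd)

theorem gam_swap (s : Finset ι) (f : ι → L2 d) (z w : ℝ × Rd d) :
    gam s f w z = (starRingEnd ℂ) (gam s f z w) := by
  unfold gam
  rw [map_sum]
  apply Finset.sum_congr rfl
  intro j _
  rw [map_mul, Complex.conj_conj, mul_comm]

theorem enorm_gam_swap (s : Finset ι) (f : ι → L2 d) (z w : ℝ × Rd d) :
    ‖gam s f w z‖ₑ = ‖gam s f z w‖ₑ := by
  rw [gam_swap, ← ofReal_norm, ← ofReal_norm, Complex.norm_conj]

theorem rho_lint (s : Finset ι) (f : ι → L2 d) (t : ℝ) (hf : Orthonormal ℂ f) :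
    ∫⁻ x, rho s f (t, x) = s.card := by
  unfold rho
  rw [lintegral_finsetSum]
  · simp only [lintegral_uu_sq]
    have : ∀ j ∈ s, ‖f j‖ₑ ^ 2 = 1 := by
      intro j _
      rw [← ofReal_norm, hf.1 j]
      simp
    rw [Finset.sum_congr rfl this]
    simp
  · intro j _
    exact ((uu_meas (f j)).comp measurable_prodMk_left).enorm.pow_const 2

theorem coeFn_sum_smul {X : Type*} [MeasurableSpace X] {μ : Measure X} (s : Finset ι) (c : ι → ℂ)
    (a : ι → Lp ℂ 2 μ) :
    ((∑ j ∈ s, c j • a j : Lp ℂ 2 μ) : X → ℂ) =ᵐ[μ] fun x => ∑ j ∈ s, c j * a j x := by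
  classical
  induction s using Finset.induction_on with
  | empty =>
    simp only [Finset.sum_empty]
    exact Lp.coeFn_zero _ _ _
  | insert i s hi ih =>
    rw [Finset.sum_insert hi]
    filter_upwards [Lp.coeFn_add (c i • a i) (∑ j ∈ s, c j • a j), Lp.coeFn_smul (c i) (a i), ih]
      with x h1 h2 h3
    rw [h1, Pi.add_apply, h2, h3, Finset.sum_insert hi, Pi.smul_apply, smul_eq_mul]

/-- orthonormality in the second variable -/
theorem gam_row (s : Finset ι) (f : ι → L2 d) (hf : Orthonormal ℂ f) (z : ℝ × Rd d) (t : ℝ) :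
    ∫⁻ y, ‖gam s f z (t, y)‖ₑ ^ 2 = rho s f z := by
  have hft : Orthonormal ℂ fun j => propagator t (f j) := by
    constructor
    · intro j
      rw [norm_propagator, hf.1 j]
    · intro i j hij
      change ⟪propagator t (f i), propagator t (f j)⟫_ℂ = 0
      rw [inner_propagator_propagator]
      exact hf.2 hij
  have h1 : ∫⁻ y, ‖gam s f z (t, y)‖ₑ ^ 2 =
      ∫⁻ y, ‖(∑ j ∈ s, (starRingEnd ℂ) (uu (f j) z) • propagator t (f j) : L2 d) y‖ₑ ^ 2 := by
    apply lintegral_congr_ae
    have h2 : ∀ᵐ y : Rd d, ∀ j ∈ s, uu (f j) (t, y) = (propagator t (f j) : Rd d → ℂ) y :=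
      (ae_ball_iff (Finset.countable_toSet s)).2 fun j _ => uu_ae (f j) t
    filter_upwards [h2, coeFn_sum_smul s (fun j => (starRingEnd ℂ) (uu (f j) z))
      (fun j => propagator t (f j))] with y h3 h4
    rw [h4]
    unfold gam
    rw [Finset.sum_congr rfl fun j hj => by rw [h3 j hj]]
  rw [h1, lintegral_sq]
  have h5 := hft.inner_sum (fun j => (starRingEnd ℂ) (uu (f j) z))
    (fun j => (starRingEnd ℂ) (uu (f j) z)) s
  have h6 : ‖∑ j ∈ s, (starRingEnd ℂ) (uu (f j) z) • propagator t (f j)‖ ^ 2 =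
      ∑ j ∈ s, ‖uu (f j) z‖ ^ 2 := by
    rw [inner_self_eq_norm_sq_to_K] at h5
    have h7 : (((‖∑ j ∈ s, (starRingEnd ℂ) (uu (f j) z) • propagator t (f j)‖ ^ 2 : ℝ)) : ℂ) =
        ((∑ j ∈ s, ‖uu (f j) z‖ ^ 2 : ℝ) : ℂ) := by
      rw [Complex.ofReal_pow]
      refine h5.trans ?_
      rw [Complex.ofReal_sum]
      apply Finset.sum_congr rfl
      intro j _
      rw [Complex.conj_conj, Complex.mul_conj, Complex.normSq_eq_norm_sq]
    exact Complex.ofReal_injective h7
  rw [← ofReal_norm, ← ENNReal.ofReal_pow (norm_nonneg _), h6, ENNReal.ofReal_sum_of_nonneg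
    (fun j _ => by positivity)]
  unfold rho
  apply Finset.sum_congr rfl
  intro j _
  rw [← ofReal_norm, ENNReal.ofReal_pow (norm_nonneg _)]

theorem gam_row' (s : Finset ι) (f : ι → L2 d) (hf : Orthonormal ℂ f) (z : ℝ × Rd d) (t : ℝ) :
    ∫⁻ x, ‖gam s f (t, x) z‖ₑ ^ 2 = rho s f z := by
  rw [← gam_row s f hf z t]
  apply lintegral_congr
  intro x
  rw [enorm_gam_swap]

/-- the `L²` norm of the kernel over a product of sets -/
noncomputable def gam2 (s : Finset ι) (f : ι → L2 d) (A B : Set (Rd d)) (a t : ℝ) : ℝ≥0∞ :=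
  ∫⁻ x in A, ∫⁻ y in B, ‖gam s f (a, x) (t, y)‖ₑ ^ 2

theorem gam2_le_left (s : Finset ι) (f : ι → L2 d) (hf : Orthonormal ℂ f) (A B : Set (Rd d))
    (a t : ℝ) : gam2 s f A B a t ≤ ∫⁻ x in A, rho s f (a, x) := by
  unfold gam2
  refine lintegral_mono fun x => ?_
  rw [← gam_row s f hf (a, x) t]
  exact setLIntegral_le_lintegral _ _

theorem gam2_le_right (s : Finset ι) (f : ι → L2 d) (hf : Orthonormal ℂ f) (A B : Set (Rd d))
    (a t : ℝ) : gam2 s f A B a t ≤ ∫⁻ y in B, rho s f (t, y) := by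
  unfold gam2
  rw [lintegral_lintegral_swap]
  · refine lintegral_mono fun y => ?_
    rw [← gam_row' s f hf (t, y) a]
    exact setLIntegral_le_lintegral _ _
  · refine Measurable.aemeasurable ?_
    have h1 : Measurable fun p : Rd d × Rd d => ((a, p.1), (t, p.2)) := by fun_prop
    exact ((gam_meas s f).comp h1).enorm.pow_const 2

/-- cut-off of an element of `L²` to a measurable set -/
noncomputable def cut (A : Set (Rd d)) (hA : MeasurableSet A) (g : L2 d) : L2 d :=
  ((Lp.memLp g).indicator hA).toLp _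

theorem cut_coe (A : Set (Rd d)) (hA : MeasurableSet A) (g : L2 d) :
    (cut A hA g : Rd d → ℂ) =ᵐ[volume] A.indicator (g : Rd d → ℂ) :=
  ((Lp.memLp g).indicator hA).coeFn_toLp

theorem cut_norm (A : Set (Rd d)) (hA : MeasurableSet A) (f : L2 d) (t : ℝ) :
    ‖cut A hA (propagator t f)‖ₑ ^ 2 = ∫⁻ x in A, ‖uu f (t, x)‖ₑ ^ 2 := by
  rw [← lintegral_sq, ← lintegral_indicator hA]
  apply lintegral_congr_ae
  filter_upwards [cut_coe A hA (propagator t f), uu_ae f t] with x h1 h2
  rw [h1]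
  by_cases hx : x ∈ A
  · rw [Set.indicator_of_mem hx, Set.indicator_of_mem hx, h2]
  · rw [Set.indicator_of_notMem hx, Set.indicator_of_notMem hx]
    simp

theorem cut_sum (s : Finset ι) (f : ι → L2 d) (A : Set (Rd d)) (hA : MeasurableSet A) (t : ℝ) :
    ∑ j ∈ s, ‖cut A hA (propagator t (f j))‖ₑ ^ 2 = ∫⁻ x in A, rho s f (t, x) := by
  unfold rho
  rw [lintegral_finsetSum]
  · simp only [cut_norm]
  · intro j _
    exact ((uu_meas (f j)).comp measurable_prodMk_left).enorm.pow_const 2

/-- the pairing of two cut-offs -/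
noncomputable def pair (s : Finset ι) (f : ι → L2 d) (A B : Set (Rd d)) (hA : MeasurableSet A)
    (hB : MeasurableSet B) (a t : ℝ) : ℂ :=
  ∑ j ∈ s, ⟪propagator (t - a) (cut A hA (propagator a (f j))), cut B hB (propagator t (f j))⟫_ℂ

theorem pair_bound1 (s : Finset ι) (f : ι → L2 d) (A B : Set (Rd d)) (hA : MeasurableSet A)
    (hB : MeasurableSet B) (a t : ℝ) :
    ‖pair s f A B hA hB a t‖ₑ ≤ (∫⁻ x in A, rho s f (a, x)) ^ (1 / 2 : ℝ) *
      (∫⁻ y in B, rho s f (t, y)) ^ (1 / 2 : ℝ) := by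
  rw [← cut_sum s f A hA a, ← cut_sum s f B hB t]
  have h1 : ‖pair s f A B hA hB a t‖ₑ ≤ ∑ j ∈ s, ‖cut A hA (propagator a (f j))‖ₑ *
      ‖cut B hB (propagator t (f j))‖ₑ := by
    unfold pair
    refine (enorm_sum_le _ _).trans ?_
    apply Finset.sum_le_sum
    intro j _
    rw [← ofReal_norm, ← ofReal_norm, ← ofReal_norm, ← ENNReal.ofReal_mul (norm_nonneg _)]
    apply ENNReal.ofReal_le_ofReal
    refine (norm_inner_le_norm _ _).trans ?_
    rw [norm_propagator]
  refine h1.trans ?_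
  have h2 := ENNReal.inner_le_Lp_mul_Lq s (fun j => ‖cut A hA (propagator a (f j))‖ₑ)
    (fun j => ‖cut B hB (propagator t (f j))‖ₑ) (p := 2) (q := 2)
    (Real.HolderConjugate.two_two)
  simpa using h2

theorem cut_integrable (A : Set (Rd d)) (hA : MeasurableSet A) (hfin : volume A ≠ ∞) (g : L2 d) :
    Integrable (cut A hA g : Rd d → ℂ) := by
  have h1 : Integrable (A.indicator (g : Rd d → ℂ)) := by
    rw [integrable_indicator_iff hA]
    have : IsFiniteMeasure (volume.restrict A : Measure (Rd d)) :=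
      ⟨by rw [Measure.restrict_apply_univ]; exact hfin.lt_top⟩
    exact ((Lp.memLp g).restrict A).integrable (by norm_num)
  exact h1.congr (cut_coe A hA g).symm

theorem pair_bound2 (s : Finset ι) (f : ι → L2 d) (A B : Set (Rd d)) (hA : MeasurableSet A)
    (hB : MeasurableSet B) (hAf : volume A ≠ ∞) (hBf : volume B ≠ ∞) {a t : ℝ} (hat : a ≠ t) :
    ‖pair s f A B hA hB a t‖ₑ ≤ ENNReal.ofReal (disp d (t - a)) *
      ((volume A * volume B) ^ (1 / 2 : ℝ) * gam2 s f A B a t ^ (1 / 2 : ℝ)) := by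
  have h0 := kernel_bound s (fun j => cut A hA (propagator a (f j)))
    (fun j => cut B hB (propagator t (f j))) (fun j _ => cut_integrable A hA hAf _)
    (fun j _ => cut_integrable B hB hBf _) (sub_ne_zero.2 hat.symm)
  refine h0.trans ?_
  gcongr
  have h1 : ∫⁻ x, ∫⁻ y, ‖∑ j ∈ s, (starRingEnd ℂ) (cut A hA (propagator a (f j)) x) *
      cut B hB (propagator t (f j)) y‖ₑ = ∫⁻ x in A, ∫⁻ y in B, ‖gam s f (a, x) (t, y)‖ₑ := by
    rw [← lintegral_indicator hA]
    apply lintegral_congr_ae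
    have h2 : ∀ᵐ x : Rd d, ∀ j ∈ s, cut A hA (propagator a (f j)) x =
        A.indicator (fun x => uu (f j) (a, x)) x := by
      refine (ae_ball_iff (Finset.countable_toSet s)).2 fun j _ => ?_
      filter_upwards [cut_coe A hA (propagator a (f j)), uu_ae (f j) a] with x h3 h4
      rw [h3]
      by_cases hx : x ∈ A
      · rw [Set.indicator_of_mem hx, Set.indicator_of_mem hx, h4]
      · rw [Set.indicator_of_notMem hx, Set.indicator_of_notMem hx]
    have h2' : ∀ᵐ y : Rd d, ∀ j ∈ s, cut B hB (propagator t (f j)) y =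
        B.indicator (fun y => uu (f j) (t, y)) y := by
      refine (ae_ball_iff (Finset.countable_toSet s)).2 fun j _ => ?_
      filter_upwards [cut_coe B hB (propagator t (f j)), uu_ae (f j) t] with x h3 h4
      rw [h3]
      by_cases hx : x ∈ B
      · rw [Set.indicator_of_mem hx, Set.indicator_of_mem hx, h4]
      · rw [Set.indicator_of_notMem hx, Set.indicator_of_notMem hx]
    filter_upwards [h2] with x hx
    by_cases hxA : x ∈ A
    · rw [Set.indicator_of_mem hxA, ← lintegral_indicator hB]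
      apply lintegral_congr_ae
      filter_upwards [h2'] with y hy
      by_cases hyB : y ∈ B
      · rw [Set.indicator_of_mem hyB]
        unfold gam
        rw [Finset.sum_congr rfl fun j hj => by
          rw [hx j hj, hy j hj, Set.indicator_of_mem hxA, Set.indicator_of_mem hyB]]
      · rw [Set.indicator_of_notMem hyB]
        rw [Finset.sum_congr rfl fun j hj => by
          rw [hy j hj, Set.indicator_of_notMem hyB, mul_zero]]
        simp
    · rw [Set.indicator_of_notMem hxA]
      have : ∀ y, ∑ j ∈ s, (starRingEnd ℂ) (cut A hA (propagator a (f j)) x) *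
          cut B hB (propagator t (f j)) y = 0 := by
        intro y
        apply Finset.sum_eq_zero
        intro j hj
        rw [hx j hj, Set.indicator_of_notMem hxA, map_zero, zero_mul]
      simp [this]
  rw [h1]
  have hm : Measurable fun p : Rd d × Rd d => gam s f (a, p.1) (t, p.2) :=
    (gam_meas s f).comp (by fun_prop : Measurable fun p : Rd d × Rd d => ((a, p.1), (t, p.2)))
  have h5 : ∫⁻ x in A, ∫⁻ y in B, ‖gam s f (a, x) (t, y)‖ₑ =
      ∫⁻ p, ‖gam s f (a, p.1) (t, p.2)‖ₑ ∂((volume.restrict A).prod (volume.restrict B)) := by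
    rw [lintegral_prod _ hm.enorm.aemeasurable]
  have h6 : gam2 s f A B a t =
      ∫⁻ p, ‖gam s f (a, p.1) (t, p.2)‖ₑ ^ 2 ∂((volume.restrict A).prod (volume.restrict B)) := by
    unfold gam2
    rw [lintegral_prod _ (hm.enorm.pow_const 2).aemeasurable]
  rw [h5, h6]
  have h7 := ENNReal.lintegral_mul_le_Lp_mul_Lq ((volume.restrict A).prod (volume.restrict B))
    (Real.HolderConjugate.two_two) (f := fun _ => (1 : ℝ≥0∞))
    (g := fun p : Rd d × Rd d => ‖gam s f (a, p.1) (t, p.2)‖ₑ) aemeasurable_const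
    hm.enorm.aemeasurable
  simp only [Pi.mul_apply, one_mul, lintegral_const, ENNReal.rpow_ofNat] at h7
  have h8 : ((volume.restrict A).prod (volume.restrict B) : Measure (Rd d × Rd d)) Set.univ =
      volume A * volume B := by
    rw [← Set.univ_prod_univ, Measure.prod_prod, Measure.restrict_apply_univ,
      Measure.restrict_apply_univ]
  rw [h8, one_pow, one_mul] at h7
  exact h7

end Pool.Agent.D0H30.ES
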