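import Pool.Agent.D0H30.ES.Prop

set_option autoImplicit false

/-! Jointly measurable versions of `(t, x) ↦ (e^{itΔ} f)(x)`. -/

namespace Pool.Agent.D0H30.ES

open MeasureTheory Filter Topology FourierTransform
open scoped ENNReal NNReal InnerProductSpace

variable {d : ℕ}

/-- The square of the norm of an element of `L²`. -/
theorem lintegral_sq {X : Type*} [MeasurableSpace X] {μ : Measure X} (h : Lp ℂ 2 μ) :
    ∫⁻ x, ‖h x‖ₑ ^ 2 ∂μ = ‖h‖ₑ ^ 2 := by
  have b1 := eLpNorm_nnreal_pow_eq_lintegral (f := h) (μ := μ) (p := 2) (by norm_num)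
  have c1 : (((2 : ℝ≥0) : ℝ≥0∞)) = 2 := by norm_num
  rw [c1] at b1
  simp only [NNReal.coe_ofNat, ENNReal.rpow_ofNat] at b1
  rw [← b1, Lp.enorm_def]

/-- if `∑ ‖g n - g‖² < ∞` in `L²`, then `g n → g` almost everywhere -/
theorem ae_tendsto_of_sum {X : Type*} [MeasurableSpace X] {μ : Measure X} (g : ℕ → Lp ℂ 2 μ)
    (g₀ : Lp ℂ 2 μ) (h : ∑' n, ‖g n - g₀‖ₑ ^ 2 ≠ ∞) :
    ∀ᵐ x ∂μ, Tendsto (fun n => g n x) atTop (𝓝 (g₀ x)) := by
  have h1 : ∫⁻ x, ∑' n, ‖(g n - g₀ : Lp ℂ 2 μ) x‖ₑ ^ 2 ∂μ ≠ ∞ := by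
    rw [lintegral_tsum]
    · simpa only [lintegral_sq] using h
    · intro n
      exact ((Lp.memLp (g n - g₀)).1.enorm).pow_const 2
  have h2 := ae_lt_top' (AEMeasurable.tsum (f := fun n x => ‖(g n - g₀ : Lp ℂ 2 μ) x‖ₑ ^ 2)
    (fun n => ((Lp.memLp (g n - g₀)).1.enorm).pow_const 2)) h1
  have h3 : ∀ᵐ x ∂μ, ∀ n, (g n - g₀ : Lp ℂ 2 μ) x = g n x - g₀ x := by
    rw [ae_all_iff]
    intro n
    filter_upwards [Lp.coeFn_sub (g n) g₀] with x hx
    rw [hx, Pi.sub_apply]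
  filter_upwards [h2, h3] with x hx hx3
  have h4 := ENNReal.tendsto_atTop_zero_of_tsum_ne_top hx.ne
  simp only [hx3] at h4
  have h5 : Tendsto (fun n => (‖g n x - g₀ x‖ₑ ^ 2) ^ (1 / 2 : ℝ)) atTop (𝓝 (0 ^ (1 / 2 : ℝ))) :=
    (ENNReal.continuous_rpow_const.tendsto 0).comp h4
  have h6 : ∀ a : ℝ≥0∞, (a ^ 2) ^ (1 / 2 : ℝ) = a := by
    intro a
    rw [← ENNReal.rpow_natCast, ← ENNReal.rpow_mul]
    norm_num
  simp only [h6] at h5
  rw [ENNReal.zero_rpow_of_pos (by norm_num)] at h5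
  rw [tendsto_iff_norm_sub_tendsto_zero]
  have h7 := (ENNReal.tendsto_toReal ENNReal.zero_ne_top).comp h5
  rw [ENNReal.toReal_zero] at h7
  refine h7.congr fun n => ?_
  rw [Function.comp_apply, toReal_enorm]

theorem measurable_step_aux (W : ℤ → Rd d → ℂ) (hW : ∀ m, Measurable (W m)) (δ : ℝ) :
    Measurable fun z : ℝ × Rd d => W ⌊z.1 / δ⌋ z.2 := by
  have h1 : Measurable fun w : ℤ × Rd d => W w.1 w.2 :=
    measurable_from_prod_countable_right (f := fun w : ℤ × Rd d => W w.1 w.2) hW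
  have h2 : Measurable fun z : ℝ × Rd d => ((⌊z.1 / δ⌋ : ℤ), z.2) :=
    (Int.measurable_floor.comp (measurable_fst.div_const δ)).prodMk measurable_snd
  exact h1.comp h2

/-- a step function in time -/
noncomputable def stepU (f : L2 d) (δ : ℝ) (z : ℝ × Rd d) : ℂ :=
  (fun m : ℤ => (propagator (δ * (m : ℝ)) f : Rd d → ℂ)) ⌊z.1 / δ⌋ z.2

theorem measurable_stepU (f : L2 d) (δ : ℝ) : Measurable (stepU f δ) :=
  measurable_step_aux (fun m : ℤ => (propagator (δ * (m : ℝ)) f : Rd d → ℂ))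
    (fun m => (Lp.stronglyMeasurable (propagator (δ * (m : ℝ)) f)).measurable) δ

theorem exists_joint (f : L2 d) : ∃ u : ℝ × Rd d → ℂ, Measurable u ∧
    ∀ t, (fun x => u (t, x)) =ᵐ[volume] propagator t f := by
  have h1 : ∀ n : ℕ, ∃ δ : ℝ, 0 < δ ∧ ∀ h : ℝ, |h| ≤ δ → ‖propagator h f - f‖ ≤ (1 / 2) ^ n := by
    intro n
    have h2 := tendsto_propagator_zero f
    rw [Metric.tendsto_nhds] at h2
    obtain ⟨ε, hε, h3⟩ := Metric.eventually_nhds_iff.1 (h2 ((1 / 2) ^ n) (by positivity))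
    refine ⟨ε / 2, by positivity, fun h hh => ?_⟩
    have h4 := h3 (y := h) (by rw [Real.dist_eq, sub_zero]; linarith)
    rw [dist_eq_norm] at h4
    exact h4.le
  choose δ hδ0 hδ using h1
  refine ⟨fun z => limUnder atTop fun n => stepU f (δ n) z, ?_, fun t => ?_⟩
  · exact (StronglyMeasurable.limUnder (l := atTop)
      (fun n => (measurable_stepU f (δ n)).stronglyMeasurable)).measurable
  · have h2 : ∀ n, ‖propagator (δ n * (⌊t / δ n⌋ : ℤ)) f - propagator t f‖ ≤ (1 / 2) ^ n := by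
      intro n
      rw [norm_propagator_sub]
      apply hδ
      have h3 := Int.floor_le (t / δ n)
      have h4 := Int.lt_floor_add_one (t / δ n)
      rw [le_div_iff₀ (hδ0 n)] at h3
      rw [div_lt_iff₀ (hδ0 n)] at h4
      rw [abs_le]
      constructor <;> nlinarith [hδ0 n]
    have h3 := ae_tendsto_of_sum (fun n => propagator (δ n * (⌊t / δ n⌋ : ℤ)) f) (propagator t f) (by
      have h4 : ∀ n, ‖propagator (δ n * (⌊t / δ n⌋ : ℤ)) f - propagator t f‖ₑ ^ 2 ≤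
          ENNReal.ofReal ((1 / 4) ^ n) := by
        intro n
        rw [← ofReal_norm, ← ENNReal.ofReal_pow (norm_nonneg _)]
        apply ENNReal.ofReal_le_ofReal
        calc ‖propagator (δ n * (⌊t / δ n⌋ : ℤ)) f - propagator t f‖ ^ 2 ≤ ((1 / 2) ^ n) ^ 2 :=
              pow_le_pow_left₀ (norm_nonneg _) (h2 n) 2
          _ = (1 / 4) ^ n := by rw [← pow_mul, mul_comm n 2, pow_mul]; norm_num
      refine ne_top_of_le_ne_top ?_ (ENNReal.tsum_le_tsum h4)
      have h5 : Summable fun n : ℕ => (1 / 4 : ℝ) ^ n :=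
        summable_geometric_of_lt_one (by norm_num) (by norm_num)
      rw [← ENNReal.ofReal_tsum_of_nonneg (fun n => by positivity) h5]
      exact ENNReal.ofReal_ne_top)
    filter_upwards [h3] with x hx
    exact hx.limUnder_eq

end Pool.Agent.D0H30.ES
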