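import Pool.Agent.D0H30.ES.Joint
import Pool.Agent.H153R4.Pl

set_option autoImplicit false

/-! The dispersive bound in bilinear form. -/

namespace Pool.Agent.D0H30.ES

open MeasureTheory Filter Topology FourierTransform
open scoped ENNReal NNReal InnerProductSpace

variable {d : ℕ}

/-- the dispersive constant `(4π|u|)^{-d/2}` -/
noncomputable def disp (d : ℕ) (u : ℝ) : ℝ := (1 / (4 * Real.pi * |u|)) ^ ((d : ℝ) / 2)

theorem disp_nonneg (d : ℕ) (u : ℝ) : 0 ≤ disp d u := by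
  unfold disp
  positivity

theorem gauss_bound {b : ℂ} (hb : 0 < b.re) {u : ℝ} (hu : u ≠ 0)
    (hbu : 4 * Real.pi ^ 2 * |u| ≤ |b.im|) (w : Rd d) :
    ‖∫ ξ : Rd d, Complex.exp (-b * ‖ξ‖ ^ 2 + (2 * Real.pi * Complex.I) * ⟪w, ξ⟫_ℝ)‖ ≤ disp d u := by
  rw [GaussianFourier.integral_cexp_neg_mul_sq_norm_add hb]
  have hpi := Real.pi_pos
  have hu' : 0 < |u| := abs_pos.2 hu
  have hb0 : b ≠ 0 := by
    rintro rfl
    simp at hb
  have hbn : 4 * Real.pi ^ 2 * |u| ≤ ‖b‖ := hbu.trans (Complex.abs_im_le_norm b)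
  rw [norm_mul]
  have h1 : ‖((Real.pi : ℂ) / b) ^ ((Module.finrank ℝ (Rd d) : ℂ) / 2)‖ ≤ disp d u := by
    have e : ((Module.finrank ℝ (Rd d) : ℂ) / 2) = (((d : ℝ) / 2 : ℝ) : ℂ) := by
      simp
    rw [e, Complex.norm_cpow_real]
    unfold disp
    apply Real.rpow_le_rpow (norm_nonneg _) _ (by positivity)
    rw [norm_div, Complex.norm_real, Real.norm_of_nonneg hpi.le,
      div_le_div_iff₀ (by positivity) (by positivity)]
    nlinarith [hbn]
  have h2 : ‖Complex.exp ((2 * Real.pi * Complex.I) ^ 2 * ‖w‖ ^ 2 / (4 * b))‖ ≤ 1 := by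
    rw [Complex.norm_exp]
    apply Real.exp_le_one_iff.2
    have e : ((2 * Real.pi * Complex.I) ^ 2 * ‖w‖ ^ 2 / (4 * b) : ℂ) =
        ((-(Real.pi ^ 2 * ‖w‖ ^ 2) : ℝ) : ℂ) * b⁻¹ := by
      rw [mul_pow, Complex.I_sq]
      push_cast
      field_simp
      ring
    rw [e, Complex.re_ofReal_mul, Complex.inv_re]
    have : 0 ≤ b.re / Complex.normSq b := div_nonneg hb.le (Complex.normSq_nonneg _)
    nlinarith [mul_nonneg (by positivity : 0 ≤ Real.pi ^ 2 * ‖w‖ ^ 2) this]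
  calc _ ≤ disp d u * 1 := mul_le_mul h1 h2 (norm_nonneg _) (disp_nonneg d u)
    _ = disp d u := mul_one _

theorem fourier_coe_ae (g : L2 d) (hg : Integrable (g : Rd d → ℂ)) :
    (𝓕 g : L2 d) =ᵐ[volume] 𝓕 (g : Rd d → ℂ) := by
  have h := Pool.Agent.H153R4.fourier_ae_eq (V := Rd d) (g : Rd d → ℂ) hg (Lp.memLp g)
  rwa [Lp.toLp_coeFn] at h

theorem symbol_eq (u : ℝ) (ξ : Rd d) :
    symbol d (-u) ξ = Complex.exp ((4 * Real.pi ^ 2 * u : ℝ) * Complex.I * ‖ξ‖ ^ 2) := by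
  unfold symbol
  congr 1
  push_cast
  ring

/-- regularised pairing -/
theorem reg_bound {ι : Type*} (s : Finset ι) (g h : ι → L2 d)
    (hg : ∀ j ∈ s, Integrable (g j : Rd d → ℂ)) (hh : ∀ j ∈ s, Integrable (h j : Rd d → ℂ))
    {u : ℝ} (hu : u ≠ 0) {ε : ℝ} (hε : 0 < ε) :
    ‖∫ ξ, Complex.exp (-(ε : ℂ) * ‖ξ‖ ^ 2) * (symbol d (-u) ξ *
      ∑ j ∈ s, (starRingEnd ℂ) ((𝓕 (g j) : L2 d) ξ) * (𝓕 (h j) : L2 d) ξ)‖ₑ ≤
    ENNReal.ofReal (disp d u) *
      ∫⁻ x, ∫⁻ y, ‖∑ j ∈ s, (starRingEnd ℂ) (g j x) * h j y‖ₑ := by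
  classical
  set b : ℂ := (ε : ℂ) - (4 * Real.pi ^ 2 * u : ℝ) * Complex.I with hbdef
  have hbre : 0 < b.re := by
    rw [hbdef, Complex.sub_re, Complex.ofReal_re, Complex.re_ofReal_mul, Complex.I_re, mul_zero,
      sub_zero]
    exact hε
  have hbim : 4 * Real.pi ^ 2 * |u| ≤ |b.im| := by
    have : b.im = -(4 * Real.pi ^ 2 * u) := by
      rw [hbdef, Complex.sub_im, Complex.ofReal_im, Complex.im_ofReal_mul, Complex.I_im, mul_one,
        zero_sub]
    rw [this, abs_neg, abs_mul, abs_of_pos (by positivity : 0 < 4 * Real.pi ^ 2)]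
  have hexp : ∀ ξ : Rd d, Complex.exp (-(ε : ℂ) * ‖ξ‖ ^ 2) * symbol d (-u) ξ =
      Complex.exp (-b * ‖ξ‖ ^ 2) := by
    intro ξ
    rw [symbol_eq, ← Complex.exp_add]
    congr 1
    rw [hbdef]
    ring
  let S : Rd d × Rd d → ℂ := fun z => ∑ j ∈ s, (starRingEnd ℂ) (g j z.1) * h j z.2
  have hS : Integrable S (volume.prod volume) := by
    apply integrable_finsetSum
    intro j hj
    have h1 : Integrable (fun x => (starRingEnd ℂ) (g j x)) volume := by
      have := (hg j hj)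
      exact (Complex.conjCLE.toContinuousLinearMap.integrable_comp this)
    exact h1.mul_prod (hh j hj)
  have hE : Integrable (fun ξ : Rd d => Complex.exp (-b * ‖ξ‖ ^ 2)) := by
    have := GaussianFourier.integrable_cexp_neg_mul_sq_norm_add (V := Rd d) hbre 0 0
    simpa using this
  -- the double Fourier integral
  have hF : ∀ᵐ ξ : Rd d, ∑ j ∈ s, (starRingEnd ℂ) ((𝓕 (g j) : L2 d) ξ) * (𝓕 (h j) : L2 d) ξ =
      ∫ z : Rd d × Rd d, Complex.exp ((2 * Real.pi * Complex.I) * ⟪z.1 - z.2, ξ⟫_ℝ) * S z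
        ∂(volume.prod volume) := by
    have h1 : ∀ᵐ ξ : Rd d, ∀ j ∈ s, (𝓕 (g j) : L2 d) ξ = 𝓕 (g j : Rd d → ℂ) ξ :=
      (ae_ball_iff (Finset.countable_toSet s)).2 fun j hj => fourier_coe_ae (g j) (hg j hj)
    have h2 : ∀ᵐ ξ : Rd d, ∀ j ∈ s, (𝓕 (h j) : L2 d) ξ = 𝓕 (h j : Rd d → ℂ) ξ :=
      (ae_ball_iff (Finset.countable_toSet s)).2 fun j hj => fourier_coe_ae (h j) (hh j hj)
    filter_upwards [h1, h2] with ξ h3 h4
    have e1 : ∀ j ∈ s, (starRingEnd ℂ) ((𝓕 (g j) : L2 d) ξ) * (𝓕 (h j) : L2 d) ξ =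
        ∫ z : Rd d × Rd d, Complex.exp ((2 * Real.pi * Complex.I) * ⟪z.1 - z.2, ξ⟫_ℝ) *
          ((starRingEnd ℂ) (g j z.1) * h j z.2) ∂(volume.prod volume) := by
      intro j hj
      rw [h3 j hj, h4 j hj, Real.fourier_eq', Real.fourier_eq', ← integral_conj,
        ← integral_prod_mul]
      apply integral_congr_ae
      refine Eventually.of_forall fun z => ?_
      simp only [smul_eq_mul, map_mul]
      rw [← Complex.exp_conj, mul_mul_mul_comm, ← Complex.exp_add]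
      congr 2
      rw [inner_sub_left]
      simp only [map_mul, Complex.conj_ofReal, Complex.conj_I]
      push_cast
      ring
    rw [Finset.sum_congr rfl e1, ← integral_finsetSum]
    · apply integral_congr_ae
      refine Eventually.of_forall fun z => ?_
      simp only [S]
      rw [Finset.mul_sum]
    · intro j hj
      have h5 : Integrable (fun z : Rd d × Rd d => (starRingEnd ℂ) (g j z.1) * h j z.2)
          (volume.prod volume) := by
        have h1 : Integrable (fun x => (starRingEnd ℂ) (g j x)) volume :=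
          (Complex.conjCLE.toContinuousLinearMap.integrable_comp (hg j hj))
        exact h1.mul_prod (hh j hj)
      refine h5.bdd_mul (c := 1) ?_ ?_
      · apply Continuous.aestronglyMeasurable
        fun_prop
      · refine Eventually.of_forall fun z => ?_
        have : (2 * Real.pi * Complex.I : ℂ) * ((⟪z.1 - z.2, ξ⟫_ℝ : ℝ) : ℂ) =
            ((2 * Real.pi * ⟪z.1 - z.2, ξ⟫_ℝ : ℝ) : ℂ) * Complex.I := by
          push_cast; ring
        rw [this, Complex.norm_exp_ofReal_mul_I]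
  have hI : ∫ ξ, Complex.exp (-(ε : ℂ) * ‖ξ‖ ^ 2) * (symbol d (-u) ξ *
      ∑ j ∈ s, (starRingEnd ℂ) ((𝓕 (g j) : L2 d) ξ) * (𝓕 (h j) : L2 d) ξ) =
      ∫ z : Rd d × Rd d, (∫ ξ : Rd d, Complex.exp (-b * ‖ξ‖ ^ 2 +
        (2 * Real.pi * Complex.I) * ⟪z.1 - z.2, ξ⟫_ℝ)) * S z ∂(volume.prod volume) := by
    have e1 : ∫ ξ, Complex.exp (-(ε : ℂ) * ‖ξ‖ ^ 2) * (symbol d (-u) ξ *
        ∑ j ∈ s, (starRingEnd ℂ) ((𝓕 (g j) : L2 d) ξ) * (𝓕 (h j) : L2 d) ξ) =
        ∫ ξ : Rd d, ∫ z : Rd d × Rd d, Complex.exp (-b * ‖ξ‖ ^ 2 +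
        (2 * Real.pi * Complex.I) * ⟪z.1 - z.2, ξ⟫_ℝ) * S z ∂(volume.prod volume) := by
      apply integral_congr_ae
      filter_upwards [hF] with ξ h3
      rw [h3, ← mul_assoc, hexp, ← integral_const_mul]
      congr 1
      ext z
      rw [Complex.exp_add]
      ring
    rw [e1, integral_integral_swap]
    · congr 1
      ext z
      rw [integral_mul_const]
    · have h6 : Integrable (fun q : Rd d × (Rd d × Rd d) =>
          Complex.exp (-b * ‖q.1‖ ^ 2) * S q.2) (volume.prod (volume.prod volume)) :=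
        hE.mul_prod hS
      have h7 : Integrable (fun q : Rd d × (Rd d × Rd d) =>
          Complex.exp ((2 * Real.pi * Complex.I) * ⟪q.2.1 - q.2.2, q.1⟫_ℝ) *
          (Complex.exp (-b * ‖q.1‖ ^ 2) * S q.2)) (volume.prod (volume.prod volume)) := by
        refine h6.bdd_mul (c := 1) ?_ ?_
        · apply Continuous.aestronglyMeasurable
          fun_prop
        · refine Eventually.of_forall fun z => ?_
          have : (2 * Real.pi * Complex.I : ℂ) * ((⟪z.2.1 - z.2.2, z.1⟫_ℝ : ℝ) : ℂ) =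
              ((2 * Real.pi * ⟪z.2.1 - z.2.2, z.1⟫_ℝ : ℝ) : ℂ) * Complex.I := by
            push_cast; ring
          rw [this, Complex.norm_exp_ofReal_mul_I]
      refine h7.congr (Eventually.of_forall fun q => ?_)
      simp only [Function.uncurry]
      rw [Complex.exp_add]
      ring
  rw [hI]
  refine (enorm_integral_le_lintegral_enorm _).trans ?_
  calc ∫⁻ z : Rd d × Rd d, ‖(∫ ξ : Rd d, Complex.exp (-b * ‖ξ‖ ^ 2 +
        (2 * Real.pi * Complex.I) * ⟪z.1 - z.2, ξ⟫_ℝ)) * S z‖ₑ ∂(volume.prod volume)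
      ≤ ∫⁻ z : Rd d × Rd d, ENNReal.ofReal (disp d u) * ‖S z‖ₑ ∂(volume.prod volume) := by
        refine lintegral_mono fun z => ?_
        rw [enorm_mul]
        gcongr
        rw [← ofReal_norm]
        exact ENNReal.ofReal_le_ofReal (gauss_bound hbre hu hbim _)
    _ = ENNReal.ofReal (disp d u) * ∫⁻ z : Rd d × Rd d, ‖S z‖ₑ ∂(volume.prod volume) := by
        rw [lintegral_const_mul' _ _ ENNReal.ofReal_ne_top]
    _ = _ := by
        rw [lintegral_prod _ hS.1.enorm]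

/-- The dispersive bound in bilinear form. -/
theorem kernel_bound {ι : Type*} (s : Finset ι) (g h : ι → L2 d)
    (hg : ∀ j ∈ s, Integrable (g j : Rd d → ℂ)) (hh : ∀ j ∈ s, Integrable (h j : Rd d → ℂ))
    {u : ℝ} (hu : u ≠ 0) :
    ‖∑ j ∈ s, ⟪propagator u (g j), h j⟫_ℂ‖ₑ ≤ ENNReal.ofReal (disp d u) *
      ∫⁻ x, ∫⁻ y, ‖∑ j ∈ s, (starRingEnd ℂ) (g j x) * h j y‖ₑ := by
  have hint : ∀ j ∈ s, Integrable (fun ξ => (starRingEnd ℂ) ((𝓕 (g j) : L2 d) ξ) *
      (𝓕 (h j) : L2 d) ξ) := by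
    intro j _
    have := L2.integrable_inner (𝕜 := ℂ) (𝓕 (g j) : L2 d) (𝓕 (h j) : L2 d)
    refine this.congr (Eventually.of_forall fun ξ => ?_)
    simp only [RCLike.inner_apply]
    ring
  have hsum : Integrable (fun ξ => ∑ j ∈ s, (starRingEnd ℂ) ((𝓕 (g j) : L2 d) ξ) *
      (𝓕 (h j) : L2 d) ξ) := integrable_finsetSum _ hint
  have e1 : ∑ j ∈ s, ⟪propagator u (g j), h j⟫_ℂ = ∫ ξ, symbol d (-u) ξ *
      ∑ j ∈ s, (starRingEnd ℂ) ((𝓕 (g j) : L2 d) ξ) * (𝓕 (h j) : L2 d) ξ := by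
    have e2 : ∀ j ∈ s, ⟪propagator u (g j), h j⟫_ℂ = ∫ ξ, symbol d (-u) ξ *
      ((starRingEnd ℂ) ((𝓕 (g j) : L2 d) ξ) * (𝓕 (h j) : L2 d) ξ) := by
      intro j _
      rw [← Lp.inner_fourier_eq, fourier_propagator, L2.inner_def]
      apply integral_congr_ae
      filter_upwards [ph_coe u (𝓕 (g j))] with ξ h1
      rw [h1]
      simp only [RCLike.inner_apply, map_mul, conj_symbol]
      ring
    rw [Finset.sum_congr rfl e2, ← integral_finsetSum]
    · simp only [Finset.mul_sum]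
    · intro j hj
      refine (hint j hj).bdd_mul (c := 1) ?_ ?_
      · exact ((continuous_symbol d).comp
          (by fun_prop : Continuous fun ξ : Rd d => (-u, ξ))).aestronglyMeasurable
      · exact Eventually.of_forall fun ξ => (norm_symbol d _ ξ).le
  have hlim : Tendsto (fun n : ℕ => ∫ ξ, Complex.exp (-((1 / ((n : ℝ) + 1) : ℝ) : ℂ) * ‖ξ‖ ^ 2) *
      (symbol d (-u) ξ * ∑ j ∈ s, (starRingEnd ℂ) ((𝓕 (g j) : L2 d) ξ) * (𝓕 (h j) : L2 d) ξ))
      atTop (𝓝 (∫ ξ, symbol d (-u) ξ *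
      ∑ j ∈ s, (starRingEnd ℂ) ((𝓕 (g j) : L2 d) ξ) * (𝓕 (h j) : L2 d) ξ)) := by
    apply tendsto_integral_of_dominated_convergence
      (fun ξ => ‖∑ j ∈ s, (starRingEnd ℂ) ((𝓕 (g j) : L2 d) ξ) * (𝓕 (h j) : L2 d) ξ‖)
    · intro n
      refine AEStronglyMeasurable.mul ?_ (AEStronglyMeasurable.mul ?_ hsum.1)
      · apply Continuous.aestronglyMeasurable
        fun_prop
      · exact ((continuous_symbol d).comp
          (by fun_prop : Continuous fun ξ : Rd d => (-u, ξ))).aestronglyMeasurable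
    · exact hsum.norm
    · intro n
      refine Eventually.of_forall fun ξ => ?_
      rw [norm_mul, norm_mul, norm_symbol, one_mul]
      have h1 : ‖Complex.exp (-((1 / ((n : ℝ) + 1) : ℝ) : ℂ) * ‖ξ‖ ^ 2)‖ ≤ 1 := by
        rw [Complex.norm_exp]
        apply Real.exp_le_one_iff.2
        have : (-((1 / ((n : ℝ) + 1) : ℝ) : ℂ) * (‖ξ‖ : ℂ) ^ 2) =
            ((-(1 / ((n : ℝ) + 1) * ‖ξ‖ ^ 2) : ℝ) : ℂ) := by
          push_cast; ring
        rw [this, Complex.ofReal_re]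
        have : 0 ≤ 1 / ((n : ℝ) + 1) * ‖ξ‖ ^ 2 := by positivity
        linarith
      exact mul_le_of_le_one_left (norm_nonneg _) h1
    · refine Eventually.of_forall fun ξ => ?_
      have h1 : Tendsto (fun n : ℕ => Complex.exp (-((1 / ((n : ℝ) + 1) : ℝ) : ℂ) * ‖ξ‖ ^ 2))
          atTop (𝓝 1) := by
        have h2 : Tendsto (fun n : ℕ => 1 / ((n : ℝ) + 1)) atTop (𝓝 0) :=
          tendsto_one_div_add_atTop_nhds_zero_nat
        have h3 : Continuous fun r : ℝ => Complex.exp (-(r : ℂ) * ‖ξ‖ ^ 2) := by fun_prop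
        have h4 := (h3.tendsto 0).comp h2
        simpa [Function.comp_def] using h4
      have h5 := h1.mul_const (symbol d (-u) ξ *
        ∑ j ∈ s, (starRingEnd ℂ) ((𝓕 (g j) : L2 d) ξ) * (𝓕 (h j) : L2 d) ξ)
      rwa [one_mul] at h5
  rw [e1]
  refine le_of_tendsto hlim.enorm (Eventually.of_forall fun n => ?_)
  exact reg_bound s g h hg hh hu (by positivity)

end Pool.Agent.D0H30.ES
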