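import Pool.Agent.D0H30.ES.Mink

set_option autoImplicit false

/-! The Lorentz norm controls the dyadic sum. -/

namespace Pool.Agent.D0H30.ES

open MeasureTheory Filter Topology
open scoped ENNReal NNReal

variable {d : ℕ}

theorem level_le {α : ℝ} (hα : 1 ≤ α) {ι : Type} (lam : ι → ℂ) (m : ℤ) (A : Finset ι)
    (hA : (A : Set ι) = lset lam m) :
    ENNReal.ofReal (pw m) * (A.card : ℝ≥0∞) ^ (1 / α) ≤
      ∑' n : ℕ, ENNReal.ofReal (((n : ℝ) + 1) ^ (1 / α - 1)) *
        (if ENNReal.ofReal (pw m) ≤ rearr lam n then ENNReal.ofReal (pw m) else 0) := by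
  have hα0 : 0 < α := by linarith
  have hα1 : 1 / α ≤ 1 := by
    rw [div_le_one hα0]
    exact hα
  have hcard : (lset lam m).encard = A.card := by
    rw [← hA]
    exact Set.encard_coe_eq_coe_finsetCard A
  by_cases hN : A.card = 0
  · rw [hN]
    simp [ENNReal.zero_rpow_of_pos (inv_pos.2 hα0)]
  have hNp : (0 : ℝ) < A.card := by exact_mod_cast Nat.pos_of_ne_zero hN
  calc ENNReal.ofReal (pw m) * (A.card : ℝ≥0∞) ^ (1 / α)
      = ∑ n ∈ Finset.range A.card, ENNReal.ofReal ((A.card : ℝ) ^ (1 / α - 1)) *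
          ENNReal.ofReal (pw m) := by
        rw [Finset.sum_const, Finset.card_range, nsmul_eq_mul, mul_comm, ← mul_assoc]
        congr 1
        rw [← ENNReal.ofReal_natCast, ENNReal.ofReal_rpow_of_pos hNp, ← ENNReal.ofReal_mul hNp.le]
        congr 1
        rw [← Real.rpow_one_add' hNp.le]
        · congr 1
          ring
        · have : 0 < 1 / α := by positivity
          intro h
          linarith
    _ ≤ ∑ n ∈ Finset.range A.card, ENNReal.ofReal (((n : ℝ) + 1) ^ (1 / α - 1)) *
        (if ENNReal.ofReal (pw m) ≤ rearr lam n then ENNReal.ofReal (pw m) else 0) := by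
        apply Finset.sum_le_sum
        intro n hn
        rw [Finset.mem_range] at hn
        rw [if_pos (le_rearr lam m n (by rw [hcard]; exact_mod_cast hn))]
        gcongr 1
        apply ENNReal.ofReal_le_ofReal
        apply Real.rpow_le_rpow_of_nonpos (by positivity)
        · exact_mod_cast hn
        · linarith
    _ ≤ _ := ENNReal.sum_le_tsum _

theorem dyadic_le_lorentz {α : ℝ} (hα : 1 ≤ α) {ι : Type} (lam : ι → ℂ) (A : ℤ → Finset ι)
    (hA : ∀ m, (A m : Set ι) = lset lam m) :
    ∑' m : ℤ, ENNReal.ofReal (pw m) * ((A m).card : ℝ≥0∞) ^ (1 / α) ≤ 2 * lorentzNorm α lam := by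
  calc _ ≤ ∑' m : ℤ, ∑' n : ℕ, ENNReal.ofReal (((n : ℝ) + 1) ^ (1 / α - 1)) *
        (if ENNReal.ofReal (pw m) ≤ rearr lam n then ENNReal.ofReal (pw m) else 0) :=
        ENNReal.tsum_le_tsum fun m => level_le hα lam m (A m) (hA m)
    _ = ∑' n : ℕ, ENNReal.ofReal (((n : ℝ) + 1) ^ (1 / α - 1)) *
        ∑' m : ℤ, (if ENNReal.ofReal (pw m) ≤ rearr lam n then ENNReal.ofReal (pw m) else 0) := by
        rw [ENNReal.tsum_comm]
        congr 1
        ext n
        rw [ENNReal.tsum_mul_left]
    _ ≤ ∑' n : ℕ, ENNReal.ofReal (((n : ℝ) + 1) ^ (1 / α - 1)) * (2 * rearr lam n) := by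
        gcongr with n
        exact geo_sum _
    _ = 2 * lorentzNorm α lam := by
        unfold lorentzNorm
        rw [← ENNReal.tsum_mul_left]
        congr 1
        ext n
        ring

end Pool.Agent.D0H30.ES
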