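import Pool.Agent.D0H30.ES.Core

set_option autoImplicit false

/-! The bound for the block masses. -/

namespace Pool.Agent.D0H30.ES

open MeasureTheory Filter Topology FourierTransform
open scoped ENNReal NNReal InnerProductSpace

/-- Cauchy-Schwarz for iterated integrals -/
theorem cs_iter (F G : ℝ × ℝ → ℝ≥0∞) (hF : Measurable F) (hG : Measurable G) :
    ∫⁻ a, ∫⁻ t, F (a, t) ^ (1 / 2 : ℝ) * G (a, t) ^ (1 / 2 : ℝ) ≤
      (∫⁻ a, ∫⁻ t, F (a, t)) ^ (1 / 2 : ℝ) * (∫⁻ a, ∫⁻ t, G (a, t)) ^ (1 / 2 : ℝ) := by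
  have h1 : ∫⁻ a, ∫⁻ t, F (a, t) ^ (1 / 2 : ℝ) * G (a, t) ^ (1 / 2 : ℝ) =
      ∫⁻ z, F z ^ (1 / 2 : ℝ) * G z ^ (1 / 2 : ℝ) ∂((volume : Measure ℝ).prod volume) :=
    (lintegral_prod _ ((hF.pow_const _).mul (hG.pow_const _)).aemeasurable).symm
  have h2 : ∫⁻ a, ∫⁻ t, F (a, t) = ∫⁻ z, F z ∂((volume : Measure ℝ).prod volume) :=
    (lintegral_prod _ hF.aemeasurable).symm
  have h3 : ∫⁻ a, ∫⁻ t, G (a, t) = ∫⁻ z, G z ∂((volume : Measure ℝ).prod volume) :=
    (lintegral_prod _ hG.aemeasurable).symm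
  rw [h1, h2, h3]
  have h4 := ENNReal.lintegral_mul_le_Lp_mul_Lq ((volume : Measure ℝ).prod volume)
    (Real.HolderConjugate.two_two) (f := fun z => F z ^ (1 / 2 : ℝ))
    (g := fun z => G z ^ (1 / 2 : ℝ)) (hF.pow_const _).aemeasurable (hG.pow_const _).aemeasurable
  have h5 : ∀ x : ℝ≥0∞, (x ^ (1 / 2 : ℝ)) ^ (2 : ℝ) = x := by
    intro x
    rw [← ENNReal.rpow_mul]
    norm_num
  simp only [Pi.mul_apply, h5] at h4
  exact h4

/-- Cauchy-Schwarz for finite double sums -/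
theorem cs_sum {κ : Type*} (Λ : Finset κ) (X Y : κ → κ → ℝ≥0∞) :
    ∑ p ∈ Λ, ∑ q ∈ Λ, X p q ^ (1 / 2 : ℝ) * Y p q ^ (1 / 2 : ℝ) ≤
      (∑ p ∈ Λ, ∑ q ∈ Λ, X p q) ^ (1 / 2 : ℝ) * (∑ p ∈ Λ, ∑ q ∈ Λ, Y p q) ^ (1 / 2 : ℝ) := by
  rw [← Finset.sum_product', ← Finset.sum_product', ← Finset.sum_product']
  have h := ENNReal.inner_le_Lp_mul_Lq (Λ ×ˢ Λ) (fun c => X c.1 c.2 ^ (1 / 2 : ℝ))
    (fun c => Y c.1 c.2 ^ (1 / 2 : ℝ)) (p := 2) (q := 2) (Real.HolderConjugate.two_two)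
  have h5 : ∀ x : ℝ≥0∞, (x ^ (1 / 2 : ℝ)) ^ (2 : ℝ) = x := by
    intro x
    rw [← ENNReal.rpow_mul]
    norm_num
  simp only [h5] at h
  exact h

variable {d : ℕ} {ι : Type*} (s : Finset ι) (f : ι → L2 d) (R : ℝ)

theorem tI_int (p q : ℤ × ℤ) (h : ℝ → ℝ≥0∞) (hh : Measurable h) :
    ∫⁻ a, ∫⁻ t, tI s f R p a * tI s f R q t * h (t - a) ≤
      (∫⁻ v, h v) * min (volume (TT s f R p)) (volume (TT s f R q)) := by
  refine le_trans (le_of_eq ?_) (block_conv h hh _ _)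
  rw [← lintegral_indicator (TT_meas s f R p)]
  apply lintegral_congr
  intro a
  by_cases ha : a ∈ TT s f R p
  · rw [Set.indicator_of_mem ha, ← lintegral_indicator (TT_meas s f R q)]
    apply lintegral_congr
    intro t
    have e1 : tI s f R p a = 1 := Set.indicator_of_mem ha _
    rw [e1, one_mul]
    by_cases ht : t ∈ TT s f R q
    · have e2 : tI s f R q t = 1 := Set.indicator_of_mem ht _
      rw [Set.indicator_of_mem ht, e2, one_mul]
    · have e2 : tI s f R q t = 0 := Set.indicator_of_notMem ht _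
      rw [Set.indicator_of_notMem ht, e2, zero_mul]
  · rw [Set.indicator_of_notMem ha]
    have e1 : tI s f R p a = 0 := Set.indicator_of_notMem ha _
    simp [e1]

/-- the mass of a block -/
noncomputable def JJ (p : ℤ × ℤ) : ℝ≥0∞ :=
  ENNReal.ofReal (pw (LL d p.1 p.2 / d)) * volume (TT s f R p)

noncomputable def NN (p q : ℤ × ℤ) : ℝ≥0∞ :=
  ENNReal.ofReal (wt d p * wt d q) * (ENNReal.ofReal (4 * pw (E1 d p.1 p.2 q.1 q.2)) *
    ∫⁻ a, ∫⁻ t, tI s f R p a * tI s f R q t * hn d p q (t - a))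

noncomputable def XX (p q : ℤ × ℤ) : ℝ≥0∞ :=
  ENNReal.ofReal (wt d p * wt d q) * (ENNReal.ofReal (4 * pw ((p.2 : ℝ) + q.2)) *
    ∫⁻ a, ∫⁻ t, tI s f R p a * tI s f R q t * hf d p q (t - a))

noncomputable def YY (p q : ℤ × ℤ) : ℝ≥0∞ :=
  ENNReal.ofReal (wt d p * wt d q) * ∫⁻ a, ∫⁻ t, gam2 s f (GS s f R p a) (GS s f R q t) a t

/-- the decay factor -/
noncomputable def DD (d : ℕ) (p q : ℤ × ℤ) : ℝ≥0∞ :=
  ENNReal.ofReal (rr d ^ (p.1 - q.1).natAbs * rr d ^ (p.2 - q.2).natAbs)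

theorem NN_le (hd : 2 ≤ d) (p q : ℤ × ℤ) :
    NN s f R p q ≤ 16 * (DD d p q * (JJ s f R p + JJ s f R q)) := by
  have hd' : (2 : ℝ) ≤ d := by exact_mod_cast hd
  unfold NN
  have h1 := tI_int s f R p q (hn d p q) (hn_meas d p q)
  have h2 : ∫⁻ v, hn d p q v ≤ ENNReal.ofReal (4 * ust d p q ^ (1 / 2 : ℝ)) :=
    near_int (ust_pos d p q)
  calc _ ≤ ENNReal.ofReal (wt d p * wt d q) * (ENNReal.ofReal (4 * pw (E1 d p.1 p.2 q.1 q.2)) *
        (ENNReal.ofReal (4 * ust d p q ^ (1 / 2 : ℝ)) *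
          min (volume (TT s f R p)) (volume (TT s f R q)))) := by
        gcongr
        exact h1.trans (by gcongr)
    _ = 16 * (ENNReal.ofReal (pw ((LL d p.1 p.2 + LL d q.1 q.2) / (2 * d) -
          |((p.1 : ℝ) + p.2) - (q.1 + q.2)| / (8 * d))) *
          min (volume (TT s f R p)) (volume (TT s f R q))) := by
        rw [← mul_assoc, ← mul_assoc, ← mul_assoc,
          ← ENNReal.ofReal_mul (mul_nonneg (wt_nonneg d p) (wt_nonneg d q)),
          ← ENNReal.ofReal_mul (mul_nonneg (mul_nonneg (wt_nonneg d p) (wt_nonneg d q))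
            (mul_nonneg (by norm_num) (pw_nonneg _)))]
        congr 1
        have e16 : (16 : ℝ≥0∞) = ENNReal.ofReal 16 := by norm_num
        rw [e16, ← ENNReal.ofReal_mul (by norm_num)]
        congr 1
        rw [← near_exp hd', pw_add, pw_add, pw_add]
        unfold wt ust
        rw [pw_rpow]
        have : tau (d : ℝ) p.1 p.2 q.1 q.2 * (1 / 2) = tau (d : ℝ) p.1 p.2 q.1 q.2 / 2 := by ring
        rw [this]
        ring
    _ ≤ 16 * (DD d p q * (JJ s f R p + JJ s f R q)) := by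
        exact mul_le_mul' le_rfl (block_mass hd' p.1 p.2 q.1 q.2 _ _)

theorem XX_le (hd : 2 ≤ d) (p q : ℤ × ℤ) :
    XX s f R p q ≤ 16 * (DD d p q * (JJ s f R p + JJ s f R q)) := by
  have hd' : (2 : ℝ) ≤ d := by exact_mod_cast hd
  unfold XX
  have h1 := tI_int s f R p q (hf d p q) (hf_meas d p q)
  have h2 : ∫⁻ v, hf d p q v ≤ ENNReal.ofReal (2 * ust d p q ^ (1 - (d : ℝ))) :=
    far_int (ust_pos d p q) hd'
  calc _ ≤ ENNReal.ofReal (wt d p * wt d q) * (ENNReal.ofReal (4 * pw ((p.2 : ℝ) + q.2)) *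
        (ENNReal.ofReal (2 * ust d p q ^ (1 - (d : ℝ))) *
          min (volume (TT s f R p)) (volume (TT s f R q)))) := by
        gcongr
        exact h1.trans (by gcongr)
    _ ≤ 16 * (ENNReal.ofReal (pw ((LL d p.1 p.2 + LL d q.1 q.2) / (2 * d) -
          |((p.1 : ℝ) + p.2) - (q.1 + q.2)| / (8 * d))) *
          min (volume (TT s f R p)) (volume (TT s f R q))) := by
        rw [← mul_assoc, ← mul_assoc, ← mul_assoc,
          ← ENNReal.ofReal_mul (mul_nonneg (wt_nonneg d p) (wt_nonneg d q)),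
          ← ENNReal.ofReal_mul (mul_nonneg (mul_nonneg (wt_nonneg d p) (wt_nonneg d q))
            (mul_nonneg (by norm_num) (pw_nonneg _)))]
        gcongr
        have e16 : (16 : ℝ≥0∞) = ENNReal.ofReal 16 := by norm_num
        rw [e16, ← ENNReal.ofReal_mul (by norm_num)]
        apply ENNReal.ofReal_le_ofReal
        have h3 := pw_le (far_exp hd' p.1 p.2 q.1 q.2)
        rw [pw_add, pw_add, pw_add] at h3
        have h4 := pw_nonneg ((LL d p.1 p.2 + LL d q.1 q.2) / (2 * d) -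
          |((p.1 : ℝ) + p.2) - (q.1 + q.2)| / (8 * d))
        unfold wt ust
        rw [pw_rpow]
        calc _ = 8 * (pw (((p.1 : ℝ) - p.2) / d) * pw (((q.1 : ℝ) - q.2) / d) *
              pw ((p.2 : ℝ) + q.2) * pw (tau (d : ℝ) p.1 p.2 q.1 q.2 * (1 - (d : ℝ)))) := by ring
          _ ≤ 8 * pw ((LL d p.1 p.2 + LL d q.1 q.2) / (2 * d) -
              |((p.1 : ℝ) + p.2) - (q.1 + q.2)| / (8 * d)) := by
              apply mul_le_mul_of_nonneg_left h3 (by norm_num)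
          _ ≤ _ := by nlinarith
    _ ≤ 16 * (DD d p q * (JJ s f R p + JJ s f R q)) := by
        exact mul_le_mul' le_rfl (block_mass hd' p.1 p.2 q.1 q.2 _ _)

/-- the measurable bound for one pair of blocks -/
noncomputable def Bd (p q : ℤ × ℤ) (b : ℝ × ℝ) : ℝ≥0∞ :=
  ENNReal.ofReal (wt d p * wt d q) * (ENNReal.ofReal (4 * pw (E1 d p.1 p.2 q.1 q.2)) *
    (tI s f R p b.1 * tI s f R q b.2 * hn d p q (b.2 - b.1))) +
  (ENNReal.ofReal (wt d p * wt d q) * (ENNReal.ofReal (4 * pw ((p.2 : ℝ) + q.2)) *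
    (tI s f R p b.1 * tI s f R q b.2 * hf d p q (b.2 - b.1)))) ^ (1 / 2 : ℝ) *
  (ENNReal.ofReal (wt d p * wt d q) *
    gam2 s f (GS s f R p b.1) (GS s f R q b.2) b.1 b.2) ^ (1 / 2 : ℝ)

theorem Bd_m0 (p q : ℤ × ℤ) :
    Measurable fun b : ℝ × ℝ => tI s f R p b.1 * tI s f R q b.2 * hn d p q (b.2 - b.1) :=
  (((tI_meas s f R p).comp measurable_fst).mul ((tI_meas s f R q).comp measurable_snd)).mul
    ((hn_meas d p q).comp (measurable_snd.sub measurable_fst))

theorem Bd_m1 (p q : ℤ × ℤ) :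
    Measurable fun b : ℝ × ℝ => tI s f R p b.1 * tI s f R q b.2 * hf d p q (b.2 - b.1) :=
  (((tI_meas s f R p).comp measurable_fst).mul ((tI_meas s f R q).comp measurable_snd)).mul
    ((hf_meas d p q).comp (measurable_snd.sub measurable_fst))

theorem Bd_meas (p q : ℤ × ℤ) : Measurable (Bd s f R p q) := by
  unfold Bd
  exact (((Bd_m0 s f R p q).const_mul _).const_mul _).add
    (((((Bd_m1 s f R p q).const_mul _).const_mul _).pow_const _).mul
      (((gam2_meas s f R p q).const_mul _).pow_const _))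

theorem bp_le_Bd (hd : 2 ≤ d) (hfo : Orthonormal ℂ f) (p q : ℤ × ℤ) {a t : ℝ} (hat : a ≠ t) :
    ENNReal.ofReal (wt d p * wt d q) * ‖bp s f R p q a t‖ₑ ≤ Bd s f R p q (a, t) := by
  have hsq : ∀ x : ℝ≥0∞, x ^ (1 / 2 : ℝ) * x ^ (1 / 2 : ℝ) = x := by
    intro x
    rw [← ENNReal.rpow_add_of_nonneg _ _ (by norm_num) (by norm_num)]
    norm_num
  have h2 := bp_split s f R hd hfo p q hat
  unfold Bd
  set w : ℝ≥0∞ := ENNReal.ofReal (wt d p * wt d q) with hw
  calc w * ‖bp s f R p q a t‖ₑ ≤ w * (ENNReal.ofReal (4 * pw (E1 d p.1 p.2 q.1 q.2)) *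
      (tI s f R p a * tI s f R q t * hn d p q (t - a)) +
      (ENNReal.ofReal (4 * pw ((p.2 : ℝ) + q.2)) *
      (tI s f R p a * tI s f R q t * hf d p q (t - a))) ^ (1 / 2 : ℝ) *
      (gam2 s f (GS s f R p a) (GS s f R q t) a t) ^ (1 / 2 : ℝ)) := by gcongr
    _ = _ := by
      rw [mul_add]
      congr 1
      rw [ENNReal.mul_rpow_of_nonneg w _ (by norm_num : (0 : ℝ) ≤ 1 / 2),
        ENNReal.mul_rpow_of_nonneg w (gam2 s f (GS s f R p a) (GS s f R q t) a t)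
          (by norm_num : (0 : ℝ) ≤ 1 / 2), mul_mul_mul_comm, hsq]

/-- the integrated splitting for one pair of blocks -/
theorem Bd_int (p q : ℤ × ℤ) :
    ∫⁻ a, ∫⁻ t, Bd s f R p q (a, t) ≤
      NN s f R p q + XX s f R p q ^ (1 / 2 : ℝ) * YY s f R p q ^ (1 / 2 : ℝ) := by
  unfold Bd
  set w : ℝ≥0∞ := ENNReal.ofReal (wt d p * wt d q) with hw
  have hwt : w ≠ ∞ := ENNReal.ofReal_ne_top
  let F : ℝ × ℝ → ℝ≥0∞ := fun b => w * (ENNReal.ofReal (4 * pw ((p.2 : ℝ) + q.2)) *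
    (tI s f R p b.1 * tI s f R q b.2 * hf d p q (b.2 - b.1)))
  let G : ℝ × ℝ → ℝ≥0∞ := fun b => w * gam2 s f (GS s f R p b.1) (GS s f R q b.2) b.1 b.2
  have hF : Measurable F := ((Bd_m1 s f R p q).const_mul _).const_mul _
  have hG : Measurable G := (gam2_meas s f R p q).const_mul _
  calc _ = (∫⁻ a, ∫⁻ t, w * (ENNReal.ofReal (4 * pw (E1 d p.1 p.2 q.1 q.2)) *
        (tI s f R p a * tI s f R q t * hn d p q (t - a)))) +
        ∫⁻ a, ∫⁻ t, F (a, t) ^ (1 / 2 : ℝ) * G (a, t) ^ (1 / 2 : ℝ) := by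
        rw [← lintegral_add_left]
        · apply lintegral_congr
          intro a
          rw [lintegral_add_left]
          exact (((Bd_m0 s f R p q).const_mul _).const_mul _).comp measurable_prodMk_left
        · exact (((Bd_m0 s f R p q).const_mul _).const_mul _).lintegral_prod_right' (ν := volume)
    _ ≤ NN s f R p q + XX s f R p q ^ (1 / 2 : ℝ) * YY s f R p q ^ (1 / 2 : ℝ) := by
        apply add_le_add
        · unfold NN
          rw [← hw]
          apply le_of_eq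
          rw [← lintegral_const_mul' _ _ ENNReal.ofReal_ne_top, ← lintegral_const_mul' _ _ hwt]
          apply lintegral_congr
          intro a
          rw [← lintegral_const_mul' _ _ ENNReal.ofReal_ne_top, ← lintegral_const_mul' _ _ hwt]
        · refine (cs_iter F G hF hG).trans (le_of_eq ?_)
          congr 2
          · unfold XX
            rw [← hw, ← lintegral_const_mul' _ _ ENNReal.ofReal_ne_top,
              ← lintegral_const_mul' _ _ hwt]
            apply lintegral_congr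
            intro a
            rw [← lintegral_const_mul' _ _ ENNReal.ofReal_ne_top, ← lintegral_const_mul' _ _ hwt]
          · unfold YY
            rw [← hw, ← lintegral_const_mul' _ _ hwt]
            apply lintegral_congr
            intro a
            rw [← lintegral_const_mul' _ _ hwt]

theorem YY_sum (Λ : Finset (ℤ × ℤ)) :
    ∑ p ∈ Λ, ∑ q ∈ Λ, YY s f R p q = ENNReal.ofReal (∑ i ∈ s, ∑ j ∈ s,
      ‖⟪phi (WW s f R Λ) (f i), phi (WW s f R Λ) (f j)⟫_ℂ‖ ^ 2) := by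
  rw [← gram_hs_iter]
  have e1 : ∀ a t x y, ENNReal.ofReal ((WW s f R Λ).V (a, x)) *
      (ENNReal.ofReal ((WW s f R Λ).V (t, y)) * ‖gam s f (a, x) (t, y)‖ₑ ^ 2) =
      ∑ p ∈ Λ, ∑ q ∈ Λ, ENNReal.ofReal (wt d p * wt d q) *
        ((GG s f R p).indicator (fun _ => (1 : ℝ≥0∞)) (a, x) *
        ((GG s f R q).indicator (fun _ => (1 : ℝ≥0∞)) (t, y) * ‖gam s f (a, x) (t, y)‖ₑ ^ 2)) := by
    intro a t x y
    rw [WW_ofReal, WW_ofReal, Finset.sum_mul]
    apply Finset.sum_congr rfl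
    intro p _
    rw [Finset.sum_mul, Finset.mul_sum]
    apply Finset.sum_congr rfl
    intro q _
    rw [ENNReal.ofReal_mul (wt_nonneg d p)]
    ring
  simp only [e1]
  have mb : ∀ p q : ℤ × ℤ, Measurable fun c : ((ℝ × ℝ) × Rd d) × Rd d =>
      ENNReal.ofReal (wt d p * wt d q) *
      ((GG s f R p).indicator (fun _ => (1 : ℝ≥0∞)) (c.1.1.1, c.1.2) *
        ((GG s f R q).indicator (fun _ => (1 : ℝ≥0∞)) (c.1.1.2, c.2) *
          ‖gam s f (c.1.1.1, c.1.2) (c.1.1.2, c.2)‖ₑ ^ 2)) := by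
    intro p q
    have m1 : Measurable fun c : ((ℝ × ℝ) × Rd d) × Rd d => (c.1.1.1, c.1.2) := by fun_prop
    have m2 : Measurable fun c : ((ℝ × ℝ) × Rd d) × Rd d => (c.1.1.2, c.2) := by fun_prop
    exact (((measurable_const.indicator (GG_meas s f R p)).comp m1).mul
      (((measurable_const.indicator (GG_meas s f R q)).comp m2).mul
        (((gam_meas s f).comp (m1.prodMk m2)).enorm.pow_const 2))).const_mul _
  have e2 : ∀ a t : ℝ, ∀ x : Rd d, ∫⁻ y, ∑ p ∈ Λ, ∑ q ∈ Λ, ENNReal.ofReal (wt d p * wt d q) *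
        ((GG s f R p).indicator (fun _ => (1 : ℝ≥0∞)) (a, x) *
        ((GG s f R q).indicator (fun _ => (1 : ℝ≥0∞)) (t, y) * ‖gam s f (a, x) (t, y)‖ₑ ^ 2)) =
      ∑ p ∈ Λ, ∑ q ∈ Λ, ∫⁻ y, ENNReal.ofReal (wt d p * wt d q) *
        ((GG s f R p).indicator (fun _ => (1 : ℝ≥0∞)) (a, x) *
        ((GG s f R q).indicator (fun _ => (1 : ℝ≥0∞)) (t, y) * ‖gam s f (a, x) (t, y)‖ₑ ^ 2)) := by
    intro a t x
    have hm : ∀ p q : ℤ × ℤ, Measurable fun y : Rd d => ENNReal.ofReal (wt d p * wt d q) *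
        ((GG s f R p).indicator (fun _ => (1 : ℝ≥0∞)) (a, x) *
        ((GG s f R q).indicator (fun _ => (1 : ℝ≥0∞)) (t, y) * ‖gam s f (a, x) (t, y)‖ₑ ^ 2)) :=
      fun p q => (mb p q).comp (by fun_prop : Measurable fun y : Rd d => (((a, t), x), y))
    rw [lintegral_finsetSum _ fun p _ => Finset.measurable_sum _ fun q _ => hm p q]
    apply Finset.sum_congr rfl
    intro p _
    rw [lintegral_finsetSum _ fun q _ => hm p q]
  have mc : ∀ p q : ℤ × ℤ, Measurable fun c : (ℝ × ℝ) × Rd d =>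
      ∫⁻ y, ENNReal.ofReal (wt d p * wt d q) *
      ((GG s f R p).indicator (fun _ => (1 : ℝ≥0∞)) (c.1.1, c.2) *
        ((GG s f R q).indicator (fun _ => (1 : ℝ≥0∞)) (c.1.2, y) *
          ‖gam s f (c.1.1, c.2) (c.1.2, y)‖ₑ ^ 2)) :=
    fun p q => (mb p q).lintegral_prod_right' (ν := volume)
  have e3 : ∀ a t : ℝ, ∫⁻ x, ∑ p ∈ Λ, ∑ q ∈ Λ, ∫⁻ y, ENNReal.ofReal (wt d p * wt d q) *
        ((GG s f R p).indicator (fun _ => (1 : ℝ≥0∞)) (a, x) *
        ((GG s f R q).indicator (fun _ => (1 : ℝ≥0∞)) (t, y) * ‖gam s f (a, x) (t, y)‖ₑ ^ 2)) =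
      ∑ p ∈ Λ, ∑ q ∈ Λ, ENNReal.ofReal (wt d p * wt d q) *
        gam2 s f (GS s f R p a) (GS s f R q t) a t := by
    intro a t
    have hm : ∀ p q : ℤ × ℤ, Measurable fun x : Rd d => ∫⁻ y, ENNReal.ofReal (wt d p * wt d q) *
        ((GG s f R p).indicator (fun _ => (1 : ℝ≥0∞)) (a, x) *
        ((GG s f R q).indicator (fun _ => (1 : ℝ≥0∞)) (t, y) * ‖gam s f (a, x) (t, y)‖ₑ ^ 2)) :=
      fun p q => (mc p q).comp (by fun_prop : Measurable fun x : Rd d => ((a, t), x))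
    rw [lintegral_finsetSum _ fun p _ => Finset.measurable_sum _ fun q _ => hm p q]
    apply Finset.sum_congr rfl
    intro p _
    rw [lintegral_finsetSum _ fun q _ => hm p q]
    apply Finset.sum_congr rfl
    intro q _
    rw [gam2_ind, ← lintegral_const_mul' _ _ ENNReal.ofReal_ne_top]
    apply lintegral_congr
    intro x
    rw [← lintegral_const_mul' _ _ ENNReal.ofReal_ne_top]
  simp only [e2, e3]
  have md : ∀ p q : ℤ × ℤ, Measurable fun b : ℝ × ℝ => ENNReal.ofReal (wt d p * wt d q) *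
        gam2 s f (GS s f R p b.1) (GS s f R q b.2) b.1 b.2 :=
    fun p q => (gam2_meas s f R p q).const_mul _
  have e4 : ∀ a : ℝ, ∫⁻ t, ∑ p ∈ Λ, ∑ q ∈ Λ, ENNReal.ofReal (wt d p * wt d q) *
        gam2 s f (GS s f R p a) (GS s f R q t) a t =
      ∑ p ∈ Λ, ∑ q ∈ Λ, ∫⁻ t, ENNReal.ofReal (wt d p * wt d q) *
        gam2 s f (GS s f R p a) (GS s f R q t) a t := by
    intro a
    have hm : ∀ p q : ℤ × ℤ, Measurable fun t : ℝ => ENNReal.ofReal (wt d p * wt d q) *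
        gam2 s f (GS s f R p a) (GS s f R q t) a t :=
      fun p q => (md p q).comp (by fun_prop : Measurable fun t : ℝ => (a, t))
    rw [lintegral_finsetSum _ fun p _ => Finset.measurable_sum _ fun q _ => hm p q]
    apply Finset.sum_congr rfl
    intro p _
    rw [lintegral_finsetSum _ fun q _ => hm p q]
  simp only [e4]
  have hm : ∀ p q : ℤ × ℤ, Measurable fun a : ℝ => ∫⁻ t, ENNReal.ofReal (wt d p * wt d q) *
      gam2 s f (GS s f R p a) (GS s f R q t) a t :=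
    fun p q => (md p q).lintegral_prod_right' (ν := volume)
  rw [lintegral_finsetSum _ fun p _ => Finset.measurable_sum _ fun q _ => hm p q]
  apply Finset.sum_congr rfl
  intro p _
  rw [lintegral_finsetSum _ fun q _ => hm p q]
  apply Finset.sum_congr rfl
  intro q _
  unfold YY
  rw [← lintegral_const_mul' _ _ ENNReal.ofReal_ne_top]
  apply lintegral_congr
  intro a
  rw [← lintegral_const_mul' _ _ ENNReal.ofReal_ne_top]

end Pool.Agent.D0H30.ES
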