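import Pool.Agent.D0H30.ES.Fin1

set_option autoImplicit false

/-! Minkowski's inequality for the mixed norm. -/

namespace Pool.Agent.D0H30.ES

open MeasureTheory Filter Topology
open scoped ENNReal NNReal

variable {d : ℕ}

/-- the mixed norm of a nonnegative function on space-time -/
noncomputable def mn (p q : ℝ) (F : ℝ × Rd d → ℝ≥0∞) : ℝ≥0∞ :=
  (∫⁻ t, ((∫⁻ x, F (t, x) ^ q) ^ (1 / q)) ^ p) ^ (1 / p)

theorem inner_meas (q : ℝ) {F : ℝ × Rd d → ℝ≥0∞} (hF : Measurable F) :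
    Measurable fun t => (∫⁻ x, F (t, x) ^ q) ^ (1 / q) :=
  ((hF.pow_const q).lintegral_prod_right' (ν := volume)).pow_const _

theorem mn_mono {p q : ℝ} (hp : 0 < p) (hq : 0 < q) {F G : ℝ × Rd d → ℝ≥0∞} (h : ∀ z, F z ≤ G z) :
    mn p q F ≤ mn p q G := by
  unfold mn
  gcongr with t x
  exact h _

theorem mn_add {p q : ℝ} (hp : 1 ≤ p) (hq : 1 ≤ q) {F G : ℝ × Rd d → ℝ≥0∞} (hF : Measurable F)
    (hG : Measurable G) : mn p q (fun z => F z + G z) ≤ mn p q F + mn p q G := by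
  unfold mn
  calc (∫⁻ t, ((∫⁻ x, (F (t, x) + G (t, x)) ^ q) ^ (1 / q)) ^ p) ^ (1 / p) ≤
        (∫⁻ t, ((∫⁻ x, F (t, x) ^ q) ^ (1 / q) + (∫⁻ x, G (t, x) ^ q) ^ (1 / q)) ^ p) ^ (1 / p) := by
        gcongr with t
        exact ENNReal.lintegral_Lp_add_le (hF.comp measurable_prodMk_left).aemeasurable
          (hG.comp measurable_prodMk_left).aemeasurable hq
    _ ≤ _ := ENNReal.lintegral_Lp_add_le (inner_meas q hF).aemeasurable
        (inner_meas q hG).aemeasurable hp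

theorem mn_zero {p q : ℝ} (hp : 0 < p) (hq : 0 < q) : mn p q (fun _ : ℝ × Rd d => 0) = 0 := by
  unfold mn
  simp [ENNReal.zero_rpow_of_pos hq, ENNReal.zero_rpow_of_pos hp,
    ENNReal.zero_rpow_of_pos (inv_pos.2 hq), ENNReal.zero_rpow_of_pos (inv_pos.2 hp)]

theorem mn_sum {p q : ℝ} (hp : 1 ≤ p) (hq : 1 ≤ q) (F : ℕ → ℝ × Rd d → ℝ≥0∞)
    (hF : ∀ n, Measurable (F n)) (n : ℕ) :
    mn p q (fun z => ∑ i ∈ Finset.range n, F i z) ≤ ∑ i ∈ Finset.range n, mn p q (F i) := by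
  induction n with
  | zero =>
    simp only [Finset.range_zero, Finset.sum_empty]
    exact (mn_zero (by linarith) (by linarith)).le
  | succ n ih =>
    simp only [Finset.sum_range_succ]
    refine (mn_add hp hq (Finset.measurable_sum _ fun i _ => hF i) (hF n)).trans ?_
    gcongr

theorem rpow_iSup {κ : Type*} (f : κ → ℝ≥0∞) {a : ℝ} (ha : 0 < a) :
    (⨆ n, f n) ^ a = ⨆ n, f n ^ a :=
  (ENNReal.orderIsoRpow a ha).map_iSup f

theorem mn_iSup {p q : ℝ} (hp : 0 < p) (hq : 0 < q) (F : ℕ → ℝ × Rd d → ℝ≥0∞)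
    (hF : ∀ n, Measurable (F n)) (hmono : Monotone F) :
    mn p q (fun z => ⨆ n, F n z) = ⨆ n, mn p q (F n) := by
  unfold mn
  have h1 : ∀ t, ∫⁻ x, (⨆ n, F n (t, x)) ^ q = ⨆ n, ∫⁻ x, F n (t, x) ^ q := by
    intro t
    simp only [rpow_iSup _ hq]
    rw [lintegral_iSup]
    · intro n
      exact ((hF n).comp measurable_prodMk_left).pow_const q
    · intro m n hmn x
      exact ENNReal.rpow_le_rpow (hmono hmn _) hq.le
  simp only [h1, rpow_iSup _ (one_div_pos.2 hq), rpow_iSup _ hp]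
  rw [lintegral_iSup, rpow_iSup _ (one_div_pos.2 hp)]
  · intro n
    exact (inner_meas q (hF n)).pow_const p
  · intro m n hmn t
    simp only
    gcongr with x
    exact hmono hmn _

theorem mn_tsum_nat {p q : ℝ} (hp : 1 ≤ p) (hq : 1 ≤ q) (F : ℕ → ℝ × Rd d → ℝ≥0∞)
    (hF : ∀ n, Measurable (F n)) :
    mn p q (fun z => ∑' n, F n z) ≤ ∑' n, mn p q (F n) := by
  have h1 : (fun z => ∑' n, F n z) = fun z => ⨆ n : ℕ, ∑ i ∈ Finset.range n, F i z := by
    ext z
    exact ENNReal.tsum_eq_iSup_nat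
  rw [h1, mn_iSup (by linarith) (by linarith) (fun n z => ∑ i ∈ Finset.range n, F i z)
    (fun n => Finset.measurable_sum _ fun i _ => hF i)]
  · apply iSup_le
    intro n
    exact (mn_sum hp hq F hF n).trans (ENNReal.sum_le_tsum _)
  · intro m n hmn z
    exact Finset.sum_le_sum_of_subset (Finset.range_mono hmn)

theorem mn_tsum {p q : ℝ} (hp : 1 ≤ p) (hq : 1 ≤ q) (F : ℤ → ℝ × Rd d → ℝ≥0∞)
    (hF : ∀ n, Measurable (F n)) :
    mn p q (fun z => ∑' n, F n z) ≤ ∑' n, mn p q (F n) := by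
  have e := Equiv.intEquivNat
  have h1 : (fun z => ∑' n, F n z) = fun z => ∑' n : ℕ, F (e.symm n) z := by
    ext z
    exact (e.symm.tsum_eq fun n => F n z).symm
  rw [h1, ← e.symm.tsum_eq fun n => mn p q (F n)]
  exact mn_tsum_nat hp hq (fun n => F (e.symm n)) fun n => hF _

theorem mn_const_mul {p q : ℝ} (hp : 0 < p) (hq : 0 < q) (c : ℝ≥0∞) (hc : c ≠ ∞)
    (F : ℝ × Rd d → ℝ≥0∞) : mn p q (fun z => c * F z) = c * mn p q F := by
  unfold mn
  have h1 : ∀ t, ((∫⁻ x, (c * F (t, x)) ^ q) ^ (1 / q)) ^ p =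
      c ^ p * ((∫⁻ x, F (t, x) ^ q) ^ (1 / q)) ^ p := by
    intro t
    simp only [ENNReal.mul_rpow_of_nonneg _ _ hq.le]
    rw [lintegral_const_mul' _ _ (ENNReal.rpow_ne_top_of_nonneg hq.le hc),
      ENNReal.mul_rpow_of_nonneg _ _ (one_div_pos.2 hq).le, ← ENNReal.rpow_mul,
      mul_one_div_cancel hq.ne', ENNReal.rpow_one, ENNReal.mul_rpow_of_nonneg _ _ hp.le]
  simp only [h1]
  rw [lintegral_const_mul' _ _ (ENNReal.rpow_ne_top_of_nonneg hp.le hc),
    ENNReal.mul_rpow_of_nonneg _ _ (one_div_pos.2 hp).le, ← ENNReal.rpow_mul,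
    mul_one_div_cancel hp.ne', ENNReal.rpow_one]

theorem mn_rho {ι : Type*} (hd : 2 ≤ d) (s : Finset ι) (f : ι → L2 d) (hfo : Orthonormal ℂ f) :
    mn (pp d) (qq d) (rho s f) ≤ (16 * KK d * s.card) ^ (1 / pp d) := by
  have hd' : (2 : ℝ) ≤ d := by exact_mod_cast hd
  have hd1 : (0 : ℝ) < (d : ℝ) - 1 := by linarith
  unfold mn
  have hp : 0 < pp d := by unfold pp; positivity
  gcongr
  refine le_trans (le_of_eq ?_) (finite_bound s f hd hfo)
  apply lintegral_congr
  intro t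
  rw [← ENNReal.rpow_mul]
  congr 1
  unfold pp qq
  field_simp

/-! ### The Lorentz norm -/

theorem geo_sum (r : ℝ≥0∞) :
    ∑' m : ℤ, (if ENNReal.ofReal (pw m) ≤ r then ENNReal.ofReal (pw m) else 0) ≤ 2 * r := by
  by_cases h1 : r = ∞
  · rw [h1, ENNReal.mul_top (by norm_num)]
    exact le_top
  by_cases h0 : r = 0
  · have : ∀ m : ℤ, (if ENNReal.ofReal (pw m) ≤ r then ENNReal.ofReal (pw m) else 0) = 0 := by
      intro m
      rw [if_neg]
      rw [h0, nonpos_iff_eq_zero, ENNReal.ofReal_eq_zero]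
      exact not_le.2 (pw_pos _)
    simp [this]
  obtain ⟨k, hk1, hk2⟩ := exists_dyadic h0 h1
  have h3 : ∀ m : ℤ, (if ENNReal.ofReal (pw m) ≤ r then ENNReal.ofReal (pw m) else 0) ≤
      (if m ≤ k then ENNReal.ofReal (pw m) else 0) := by
    intro m
    by_cases hm : ENNReal.ofReal (pw m) ≤ r
    · rw [if_pos hm, if_pos]
      by_contra hc
      push Not at hc
      have h4 : ((k : ℝ) + 1) ≤ m := by exact_mod_cast hc
      have h5 := ENNReal.ofReal_le_ofReal (pw_le h4)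
      exact absurd (h5.trans hm) (not_le.2 hk2)
    · rw [if_neg hm]
      exact zero_le
  calc _ ≤ ∑' m : ℤ, (if m ≤ k then ENNReal.ofReal (pw m) else 0) := ENNReal.tsum_le_tsum h3
    _ = ∑' j : ℕ, (if k - (j : ℤ) ≤ k then ENNReal.ofReal (pw ((k - (j : ℤ) : ℤ) : ℝ)) else 0) := by
        symm
        refine Function.Injective.tsum_eq (g := fun j : ℕ => k - (j : ℤ))
          (f := fun m : ℤ => (if m ≤ k then ENNReal.ofReal (pw m) else 0)) ?_ ?_
        · intro i j hij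
          simp only at hij
          omega
        · intro m hm
          rw [Function.mem_support] at hm
          have hmk : m ≤ k := by
            by_contra hc
            exact hm (if_neg hc)
          exact ⟨(k - m).toNat, by simp only; omega⟩
    _ = ∑' j : ℕ, ENNReal.ofReal (pw k) * 2⁻¹ ^ j := by
        congr 1
        ext j
        rw [if_pos (by omega)]
        have e1 : pw ((k - (j : ℤ) : ℤ) : ℝ) = pw k * (2⁻¹ : ℝ) ^ j := by
          push_cast
          rw [sub_eq_add_neg, pw_add]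
          congr 1
          unfold pw
          rw [Real.rpow_neg (by norm_num), Real.rpow_natCast, inv_pow]
        rw [e1, ENNReal.ofReal_mul (pw_nonneg _), ENNReal.ofReal_pow (by norm_num)]
        congr 2
        rw [ENNReal.ofReal_inv_of_pos (by norm_num)]
        norm_num
    _ = ENNReal.ofReal (pw k) * 2 := by
        rw [ENNReal.tsum_mul_left, ENNReal.tsum_geometric]
        congr 1
        rw [ENNReal.one_sub_inv_two, inv_inv]
    _ ≤ 2 * r := by
        rw [mul_comm]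
        gcongr

/-- the dyadic level sets of a sequence -/
def lset {ι : Type} (lam : ι → ℂ) (m : ℤ) : Set ι :=
  {i | ENNReal.ofReal (pw m) ≤ ‖lam i‖ₑ ∧ ‖lam i‖ₑ < ENNReal.ofReal (pw (m + 1))}

theorem le_rearr {ι : Type} (lam : ι → ℂ) (m : ℤ) (n : ℕ) (hn : (n : ℕ∞) < (lset lam m).encard) :
    ENNReal.ofReal (pw m) ≤ rearr lam n := by
  unfold rearr
  apply le_sInf
  intro r hr
  by_contra hc
  push Not at hc
  have h1 : lset lam m ⊆ {i | r < ‖lam i‖ₑ} := fun i hi => lt_of_lt_of_le hc hi.1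
  have h2 := Set.encard_le_encard h1
  exact absurd (h2.trans hr) (not_le.2 hn)

theorem lset_finite {ι : Type} (lam : ι → ℂ) {α : ℝ} (hα : 1 ≤ α) (h : lorentzNorm α lam ≠ ∞)
    (m : ℤ) : (lset lam m).Finite := by
  by_contra hc
  apply h
  have h1 : ∀ n : ℕ, ENNReal.ofReal (pw m) ≤ rearr lam n := by
    intro n
    apply le_rearr
    rw [Set.Infinite.encard_eq hc]
    exact ENat.natCast_lt_top n
  unfold lorentzNorm
  rw [eq_top_iff]
  have h2 : ∀ n : ℕ, ENNReal.ofReal (pw m) * ENNReal.ofReal (1 / ((n : ℝ) + 1)) ≤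
      ENNReal.ofReal (((n : ℝ) + 1) ^ (1 / α - 1)) * rearr lam n := by
    intro n
    rw [mul_comm]
    gcongr
    · have hn : (1 : ℝ) ≤ (n : ℝ) + 1 := by
        have : (0 : ℝ) ≤ n := Nat.cast_nonneg n
        linarith
      rw [one_div, ← Real.rpow_neg_one]
      apply Real.rpow_le_rpow_of_exponent_le hn
      have : 0 < 1 / α := by positivity
      linarith
    · exact h1 n
  refine le_trans ?_ (ENNReal.tsum_le_tsum h2)
  rw [ENNReal.tsum_mul_left, top_le_iff, ENNReal.mul_eq_top]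
  left
  refine ⟨by simpa using pw_pos _, ?_⟩
  by_contra h3
  have h4 := ENNReal.summable_toReal h3
  have h5 : Summable fun n : ℕ => 1 / (((n + 1 : ℕ) : ℝ)) := by
    refine h4.congr fun n => ?_
    rw [ENNReal.toReal_ofReal (by positivity)]
    push_cast
    rfl
  exact Real.not_summable_one_div_natCast ((summable_nat_add_iff 1).1 h5)

end Pool.Agent.D0H30.ES
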