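import Pool.Agent.D0H30.ES.Kernel

set_option autoImplicit false

/-! The operators `f ↦ √V e^{itΔ} f` into `L²` of space-time and their Gram operators. -/

namespace Pool.Agent.D0H30.ES

open MeasureTheory Filter Topology FourierTransform
open scoped ENNReal NNReal InnerProductSpace

variable {d : ℕ}

/-- a jointly measurable version of `(t, x) ↦ (e^{itΔ} f)(x)` -/
noncomputable def uu (f : L2 d) : ℝ × Rd d → ℂ := (exists_joint f).choose

theorem uu_meas (f : L2 d) : Measurable (uu f) := (exists_joint f).choose_spec.1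

theorem uu_ae (f : L2 d) (t : ℝ) : (fun x => uu f (t, x)) =ᵐ[volume] propagator t f :=
  (exists_joint f).choose_spec.2 t

/-- the measure of space-time -/
noncomputable abbrev st (d : ℕ) : Measure (ℝ × Rd d) := (volume : Measure ℝ).prod volume

/-- `L²` of space-time -/
noncomputable abbrev LZ (d : ℕ) := Lp ℂ 2 (st d)

/-- a bounded weight on space-time, supported in a bounded set of times -/
structure Weight (d : ℕ) where
  V : ℝ × Rd d → ℝ
  meas : Measurable V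
  nonneg : ∀ z, 0 ≤ V z
  C : ℝ
  bound : ∀ z, V z ≤ C
  R : ℝ
  supp : ∀ t x, R < |t| → V (t, x) = 0

theorem Weight.C_nonneg (W : Weight d) : 0 ≤ W.C := (W.nonneg 0).trans (W.bound 0)

theorem lintegral_uu_sq (f : L2 d) (t : ℝ) : ∫⁻ x, ‖uu f (t, x)‖ₑ ^ 2 = ‖f‖ₑ ^ 2 := by
  have h1 : ∫⁻ x, ‖uu f (t, x)‖ₑ ^ 2 = ∫⁻ x, ‖(propagator t f : Rd d → ℂ) x‖ₑ ^ 2 := by
    apply lintegral_congr_ae
    filter_upwards [uu_ae f t] with x hx
    rw [hx]
  rw [h1, lintegral_sq]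
  congr 1
  rw [← ofReal_norm, norm_propagator, ofReal_norm]

theorem norm_sqrt_sq (W : Weight d) (z : ℝ × Rd d) (c : ℂ) :
    ‖((√(W.V z) : ℝ) : ℂ) * c‖ₑ ^ 2 = ENNReal.ofReal (W.V z) * ‖c‖ₑ ^ 2 := by
  rw [enorm_mul, mul_pow]
  congr 1
  rw [← ofReal_norm, Complex.norm_real, Real.norm_of_nonneg (Real.sqrt_nonneg _),
    ← ENNReal.ofReal_pow (Real.sqrt_nonneg _), Real.sq_sqrt (W.nonneg z)]

theorem phi_lint (W : Weight d) (f : L2 d) :
    ∫⁻ z, ‖((√(W.V z) : ℝ) : ℂ) * uu f z‖ₑ ^ 2 ∂(st d) ≤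
      ENNReal.ofReal (W.C * (2 * |W.R|)) * ‖f‖ₑ ^ 2 := by
  have hm : Measurable fun z : ℝ × Rd d => ‖((√(W.V z) : ℝ) : ℂ) * uu f z‖ₑ ^ 2 :=
    ((Complex.measurable_ofReal.comp W.meas.sqrt).mul (uu_meas f)).enorm.pow_const 2
  rw [lintegral_prod _ hm.aemeasurable]
  calc ∫⁻ t : ℝ, ∫⁻ x, ‖((√(W.V (t, x)) : ℝ) : ℂ) * uu f (t, x)‖ₑ ^ 2
      ≤ ∫⁻ t : ℝ, (Set.Icc (-|W.R|) |W.R|).indicator
          (fun _ => ENNReal.ofReal W.C * ‖f‖ₑ ^ 2) t := by
        refine lintegral_mono fun t => ?_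
        by_cases ht : t ∈ Set.Icc (-|W.R|) |W.R|
        · rw [Set.indicator_of_mem ht, ← lintegral_uu_sq f t,
            ← lintegral_const_mul' _ _ ENNReal.ofReal_ne_top]
          refine lintegral_mono fun x => ?_
          rw [norm_sqrt_sq]
          gcongr
          exact W.bound _
        · rw [Set.indicator_of_notMem ht]
          have hR : W.R < |t| := by
            by_contra hc
            push Not at hc
            exact ht (abs_le.1 (hc.trans (le_abs_self _)))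
          simp [W.supp t _ hR]
    _ = ENNReal.ofReal (W.C * (2 * |W.R|)) * ‖f‖ₑ ^ 2 := by
        rw [lintegral_indicator measurableSet_Icc, setLIntegral_const, Real.volume_Icc,
          ENNReal.ofReal_mul W.C_nonneg]
        have : |W.R| - -|W.R| = 2 * |W.R| := by ring
        rw [this]
        ring

theorem phi_memLp (W : Weight d) (f : L2 d) :
    MemLp (fun z => ((√(W.V z) : ℝ) : ℂ) * uu f z) 2 (st d) := by
  refine ⟨((Complex.measurable_ofReal.comp W.meas.sqrt).mul (uu_meas f)).aestronglyMeasurable, ?_⟩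
  have b1 := eLpNorm_nnreal_pow_eq_lintegral (f := fun z => ((√(W.V z) : ℝ) : ℂ) * uu f z)
    (μ := st d) (p := 2) (by norm_num)
  have c1 : (((2 : ℝ≥0) : ℝ≥0∞)) = 2 := by norm_num
  rw [c1] at b1
  simp only [NNReal.coe_ofNat, ENNReal.rpow_ofNat] at b1
  have h2 := phi_lint W f
  rw [← b1] at h2
  have h3 : ENNReal.ofReal (W.C * (2 * |W.R|)) * ‖f‖ₑ ^ 2 < ∞ :=
    ENNReal.mul_lt_top ENNReal.ofReal_lt_top (ENNReal.pow_lt_top enorm_lt_top)
  have h4 := h2.trans_lt h3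
  by_contra hc
  rw [not_lt, top_le_iff] at hc
  rw [hc] at h4
  simp at h4

/-- `f ↦ √V e^{itΔ} f` -/
noncomputable def phi (W : Weight d) (f : L2 d) : LZ d := (phi_memLp W f).toLp _

theorem phi_coe (W : Weight d) (f : L2 d) :
    (phi W f : ℝ × Rd d → ℂ) =ᵐ[st d] fun z => ((√(W.V z) : ℝ) : ℂ) * uu f z :=
  (phi_memLp W f).coeFn_toLp

theorem uu_add (f g : L2 d) : ∀ᵐ z ∂(st d), uu (f + g) z = uu f z + uu g z := by
  have hm : MeasurableSet {z : ℝ × Rd d | uu (f + g) z = uu f z + uu g z} :=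
    measurableSet_eq_fun (uu_meas (f + g)) ((uu_meas f).add (uu_meas g))
  rw [Measure.ae_prod_iff_ae_ae hm]
  refine Eventually.of_forall fun t => ?_
  filter_upwards [uu_ae f t, uu_ae g t, uu_ae (f + g) t,
    Lp.coeFn_add (propagator t f) (propagator t g)] with x h1 h2 h3 h4
  rw [h1, h2, h3, propagator_add, h4, Pi.add_apply]

theorem uu_smul (c : ℂ) (f : L2 d) : ∀ᵐ z ∂(st d), uu (c • f) z = c * uu f z := by
  have hm : MeasurableSet {z : ℝ × Rd d | uu (c • f) z = c * uu f z} :=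
    measurableSet_eq_fun (uu_meas (c • f)) ((uu_meas f).const_mul c)
  rw [Measure.ae_prod_iff_ae_ae hm]
  refine Eventually.of_forall fun t => ?_
  filter_upwards [uu_ae f t, uu_ae (c • f) t,
    Lp.coeFn_smul c (propagator t f)] with x h1 h3 h4
  rw [h1, h3, propagator_smul, h4, Pi.smul_apply, smul_eq_mul]

theorem phi_add (W : Weight d) (f g : L2 d) : phi W (f + g) = phi W f + phi W g := by
  apply Lp.ext
  filter_upwards [phi_coe W (f + g), phi_coe W f, phi_coe W g, uu_add f g,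
    Lp.coeFn_add (phi W f) (phi W g)] with z h1 h2 h3 h4 h5
  rw [h1, h5, Pi.add_apply, h2, h3, h4, mul_add]

theorem phi_smul (W : Weight d) (c : ℂ) (f : L2 d) : phi W (c • f) = c • phi W f := by
  apply Lp.ext
  filter_upwards [phi_coe W (c • f), phi_coe W f, uu_smul c f,
    Lp.coeFn_smul c (phi W f)] with z h1 h2 h4 h5
  rw [h1, h5, Pi.smul_apply, h2, h4, smul_eq_mul]
  ring

theorem phi_norm (W : Weight d) (f : L2 d) :
    ‖phi W f‖ ≤ √(W.C * (2 * |W.R|)) * ‖f‖ := by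
  have h1 : ‖phi W f‖ₑ ^ 2 ≤ ENNReal.ofReal (W.C * (2 * |W.R|)) * ‖f‖ₑ ^ 2 := by
    rw [← lintegral_sq]
    refine le_trans (le_of_eq ?_) (phi_lint W f)
    apply lintegral_congr_ae
    filter_upwards [phi_coe W f] with z hz
    rw [hz]
  have h0 : 0 ≤ W.C * (2 * |W.R|) := mul_nonneg W.C_nonneg (by positivity)
  rw [← ofReal_norm, ← ofReal_norm, ← ENNReal.ofReal_pow (norm_nonneg _),
    ← ENNReal.ofReal_pow (norm_nonneg _), ← ENNReal.ofReal_mul h0,
    ENNReal.ofReal_le_ofReal_iff (by positivity)] at h1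
  apply le_of_sq_le_sq _ (by positivity)
  rw [mul_pow, Real.sq_sqrt h0]
  exact h1

/-- `phi` as a continuous linear map -/
noncomputable def phiL (W : Weight d) : L2 d →L[ℂ] LZ d :=
  LinearMap.mkContinuous ⟨⟨phi W, phi_add W⟩, phi_smul W⟩ (√(W.C * (2 * |W.R|))) (phi_norm W)

theorem phiL_apply (W : Weight d) (f : L2 d) : phiL W f = phi W f := rfl

theorem vv_memLp (W : Weight d) (f : L2 d) (t : ℝ) :
    MemLp (fun x => ((W.V (t, x) : ℝ) : ℂ) * (propagator t f : Rd d → ℂ) x) 2 volume := by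
  have hm : Measurable fun x : Rd d => ((W.V (t, x) : ℝ) : ℂ) :=
    Complex.measurable_ofReal.comp (W.meas.comp measurable_prodMk_left)
  refine (((Lp.memLp (propagator t f)).const_mul (W.C : ℂ))).of_le
    (hm.aestronglyMeasurable.mul (Lp.memLp _).1) (Eventually.of_forall fun x => ?_)
  rw [norm_mul, norm_mul, Complex.norm_real, Complex.norm_real, Real.norm_of_nonneg (W.nonneg _),
    Real.norm_of_nonneg W.C_nonneg]
  exact mul_le_mul_of_nonneg_right (W.bound _) (norm_nonneg _)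

/-- `V(t, ·) e^{itΔ} f` -/
noncomputable def vv (W : Weight d) (f : L2 d) (t : ℝ) : L2 d := (vv_memLp W f t).toLp _

theorem vv_coe (W : Weight d) (f : L2 d) (t : ℝ) :
    (vv W f t : Rd d → ℂ) =ᵐ[volume]
      fun x => ((W.V (t, x) : ℝ) : ℂ) * (propagator t f : Rd d → ℂ) x :=
  (vv_memLp W f t).coeFn_toLp

theorem phi_inner_aux (W : Weight d) (f g : L2 d) :
    (Integrable (fun z => ((W.V z : ℝ) : ℂ) * ((starRingEnd ℂ) (uu f z) * uu g z)) (st d)) ∧
    ⟪phi W f, phi W g⟫_ℂ =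
      ∫ z, ((W.V z : ℝ) : ℂ) * ((starRingEnd ℂ) (uu f z) * uu g z) ∂(st d) := by
  have h : (fun z => ⟪(phi W f : ℝ × Rd d → ℂ) z, (phi W g : ℝ × Rd d → ℂ) z⟫_ℂ) =ᵐ[st d]
      fun z => ((W.V z : ℝ) : ℂ) * ((starRingEnd ℂ) (uu f z) * uu g z) := by
    filter_upwards [phi_coe W f, phi_coe W g] with z h1 h2
    rw [h1, h2]
    simp only [RCLike.inner_apply, map_mul, Complex.conj_ofReal]
    have e : ((W.V z : ℝ) : ℂ) = ((√(W.V z) : ℝ) : ℂ) * ((√(W.V z) : ℝ) : ℂ) := by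
      rw [← Complex.ofReal_mul, Real.mul_self_sqrt (W.nonneg z)]
    rw [e]
    ring
  exact ⟨(L2.integrable_inner (𝕜 := ℂ) (phi W f) (phi W g)).congr h, by
    rw [L2.inner_def]; exact integral_congr_ae h⟩

theorem slice_inner (W : Weight d) (f g : L2 d) (t : ℝ) :
    ∫ x, ((W.V (t, x) : ℝ) : ℂ) * ((starRingEnd ℂ) (uu f (t, x)) * uu g (t, x)) =
      ⟪vv W f t, propagator t g⟫_ℂ := by
  rw [L2.inner_def]
  apply integral_congr_ae
  filter_upwards [uu_ae f t, uu_ae g t, vv_coe W f t] with x h1 h2 h3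
  rw [h1, h2, h3]
  simp only [RCLike.inner_apply, map_mul, Complex.conj_ofReal]
  ring

theorem slice_inner' (W : Weight d) (f g : L2 d) (t : ℝ) :
    ⟪vv W f t, propagator t g⟫_ℂ = ⟪propagator t f, vv W g t⟫_ℂ := by
  rw [L2.inner_def, L2.inner_def]
  apply integral_congr_ae
  filter_upwards [vv_coe W g t, vv_coe W f t] with x h2 h3
  rw [h2, h3]
  simp only [RCLike.inner_apply, map_mul, Complex.conj_ofReal]
  ring

/-- the inner product in `L²` of space-time -/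
theorem phi_inner (W : Weight d) (f g : L2 d) :
    Integrable (fun t => ⟪vv W f t, propagator t g⟫_ℂ) volume ∧
    ⟪phi W f, phi W g⟫_ℂ = ∫ t, ⟪vv W f t, propagator t g⟫_ℂ := by
  obtain ⟨h1, h2⟩ := phi_inner_aux W f g
  constructor
  · have := h1.integral_prod_left
    simpa only [slice_inner] using this
  · rw [h2, integral_prod _ h1]
    simp only [slice_inner]

theorem phi_inner' (W : Weight d) (f g : L2 d) :
    Integrable (fun t => ⟪propagator t f, vv W g t⟫_ℂ) volume ∧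
    ⟪phi W f, phi W g⟫_ℂ = ∫ t, ⟪propagator t f, vv W g t⟫_ℂ := by
  have := phi_inner W f g
  simpa only [slice_inner'] using this

/-- the Gram operator `∫ e^{-itΔ} V(t) e^{itΔ} dt` -/
noncomputable def gram (W : Weight d) (f : L2 d) : L2 d :=
  ContinuousLinearMap.adjoint (phiL W) (phi W f)

theorem inner_gram (W : Weight d) (f g : L2 d) : ⟪g, gram W f⟫_ℂ = ⟪phi W g, phi W f⟫_ℂ := by
  unfold gram
  rw [ContinuousLinearMap.adjoint_inner_right, phiL_apply]

/-- the norm of `gram W f` -/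
theorem gram_norm (W : Weight d) (f : L2 d) :
    Integrable (fun s => ∫ t, ⟪propagator (t - s) (vv W f s), vv W f t⟫_ℂ) volume ∧
    (∀ s, Integrable (fun t => ⟪propagator (t - s) (vv W f s), vv W f t⟫_ℂ) volume) ∧
    ((‖gram W f‖ ^ 2 : ℝ) : ℂ) = ∫ s, ∫ t, ⟪propagator (t - s) (vv W f s), vv W f t⟫_ℂ := by
  have h1 : ∀ s, ⟪vv W f s, propagator s (gram W f)⟫_ℂ =
      ∫ t, ⟪propagator (t - s) (vv W f s), vv W f t⟫_ℂ := by
    intro s
    have e1 : ⟪vv W f s, propagator s (gram W f)⟫_ℂ =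
        ⟪propagator (-s) (vv W f s), gram W f⟫_ℂ := by
      rw [inner_propagator (-s), neg_neg]
    rw [e1, inner_gram, (phi_inner' W _ f).2]
    congr 1
    ext t
    rw [propagator_propagator, sub_eq_add_neg]
  have h2 : ∀ s, Integrable (fun t => ⟪propagator (t - s) (vv W f s), vv W f t⟫_ℂ) volume := by
    intro s
    have := (phi_inner' W (propagator (-s) (vv W f s)) f).1
    simpa only [propagator_propagator, ← sub_eq_add_neg] using this
  obtain ⟨h3, h4⟩ := phi_inner W f (gram W f)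
  simp only [h1] at h3 h4
  refine ⟨h3, h2, ?_⟩
  rw [← h4, ← inner_conj_symm, ← inner_gram, inner_conj_symm, inner_self_eq_norm_sq_to_K]
  norm_cast

/-- the sum of the squares of the norms of `gram W (f j)` -/
theorem gram_sum (W : Weight d) {ι : Type*} (s : Finset ι) (f : ι → L2 d) :
    ENNReal.ofReal (∑ j ∈ s, ‖gram W (f j)‖ ^ 2) ≤
      ∫⁻ a, ∫⁻ t, ‖∑ j ∈ s, ⟪propagator (t - a) (vv W (f j) a), vv W (f j) t⟫_ℂ‖ₑ := by
  have h1 : ((∑ j ∈ s, ‖gram W (f j)‖ ^ 2 : ℝ) : ℂ) =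
      ∫ a, ∫ t, ∑ j ∈ s, ⟪propagator (t - a) (vv W (f j) a), vv W (f j) t⟫_ℂ := by
    rw [Complex.ofReal_sum, Finset.sum_congr rfl fun j _ => (gram_norm W (f j)).2.2,
      ← integral_finsetSum _ fun j _ => (gram_norm W (f j)).1]
    congr 1
    ext a
    rw [integral_finsetSum _ fun j _ => (gram_norm W (f j)).2.1 a]
  have h2 : ENNReal.ofReal (∑ j ∈ s, ‖gram W (f j)‖ ^ 2) =
      ‖((∑ j ∈ s, ‖gram W (f j)‖ ^ 2 : ℝ) : ℂ)‖ₑ := by
    rw [← ofReal_norm, Complex.norm_real, Real.norm_of_nonneg (by positivity)]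
  rw [h2, h1]
  refine (enorm_integral_le_lintegral_enorm _).trans ?_
  exact lintegral_mono fun a => enorm_integral_le_lintegral_enorm _

/-- Bessel's inequality for the Gram operator -/
theorem gram_bessel (W : Weight d) {ι : Type*} (s : Finset ι) (f : ι → L2 d)
    (hf : Orthonormal ℂ f) :
    ∑ i ∈ s, ∑ j ∈ s, ‖⟪phi W (f i), phi W (f j)⟫_ℂ‖ ^ 2 ≤ ∑ j ∈ s, ‖gram W (f j)‖ ^ 2 := by
  rw [Finset.sum_comm]
  apply Finset.sum_le_sum
  intro j _
  simp only [← inner_gram]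
  exact hf.sum_inner_products_le (gram W (f j))

/-- the total mass -/
theorem phi_mass (W : Weight d) {ι : Type*} (s : Finset ι) (f : ι → L2 d)
    (hf : Orthonormal ℂ f) :
    (∑ j ∈ s, ‖phi W (f j)‖ ^ 2) ^ 2 ≤ s.card * ∑ j ∈ s, ‖gram W (f j)‖ ^ 2 := by
  have h1 : ∀ j ∈ s, ‖phi W (f j)‖ ^ 2 ≤ ‖gram W (f j)‖ := by
    intro j _
    have h2 : ⟪phi W (f j), phi W (f j)⟫_ℂ = ⟪f j, gram W (f j)⟫_ℂ := (inner_gram W (f j) (f j)).symm
    have h3 : ‖⟪phi W (f j), phi W (f j)⟫_ℂ‖ = ‖phi W (f j)‖ ^ 2 := by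
      rw [inner_self_eq_norm_sq_to_K]
      simp
    rw [← h3, h2]
    refine (norm_inner_le_norm _ _).trans ?_
    rw [hf.1 j, one_mul]
  calc (∑ j ∈ s, ‖phi W (f j)‖ ^ 2) ^ 2 ≤ (∑ j ∈ s, ‖gram W (f j)‖) ^ 2 := by
        apply pow_le_pow_left₀ (Finset.sum_nonneg fun j _ => by positivity)
        exact Finset.sum_le_sum h1
    _ ≤ s.card * ∑ j ∈ s, ‖gram W (f j)‖ ^ 2 := sq_sum_le_card_mul_sum_sq

end Pool.Agent.D0H30.ES
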