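import Pool.Agent.D0H30.ES.Gam

set_option autoImplicit false

/-! The Hilbert-Schmidt norm of the Gram matrix. -/

namespace Pool.Agent.D0H30.ES

open MeasureTheory Filter Topology FourierTransform
open scoped ENNReal NNReal InnerProductSpace

variable {d : ℕ} {ι : Type*}

theorem inner_fib (W : Weight d) (s : Finset ι) (f : ι → L2 d) (z : ℝ × Rd d) :
    ∫⁻ w, ENNReal.ofReal (W.V w) * ‖gam s f z w‖ₑ ^ 2 ∂(st d) =
      ‖∑ j ∈ s, (starRingEnd ℂ) (uu (f j) z) • phi W (f j)‖ₑ ^ 2 := by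
  rw [← lintegral_sq]
  apply lintegral_congr_ae
  have h1 : ∀ᵐ w ∂(st d), ∀ j ∈ s, (phi W (f j) : ℝ × Rd d → ℂ) w =
      ((√(W.V w) : ℝ) : ℂ) * uu (f j) w :=
    (ae_ball_iff (Finset.countable_toSet s)).2 fun j _ => phi_coe W (f j)
  filter_upwards [h1, coeFn_sum_smul s (fun j => (starRingEnd ℂ) (uu (f j) z))
    (fun j => phi W (f j))] with w h2 h3
  rw [h3, ← norm_sqrt_sq]
  congr 2
  unfold gam
  rw [Finset.mul_sum]
  apply Finset.sum_congr rfl
  intro j hj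
  rw [h2 j hj]
  ring

theorem sq_expand {H : Type*} [NormedAddCommGroup H] [InnerProductSpace ℂ H] (s : Finset ι)
    (c : ι → ℂ) (a : ι → H) :
    ((‖∑ j ∈ s, c j • a j‖ ^ 2 : ℝ) : ℂ) =
      ∑ i ∈ s, ∑ j ∈ s, ⟪a i, a j⟫_ℂ * ((starRingEnd ℂ) (c i) * c j) := by
  have h := inner_self_eq_norm_sq_to_K (𝕜 := ℂ) (∑ j ∈ s, c j • a j)
  rw [Complex.ofReal_pow]
  refine h.symm.trans ?_
  rw [sum_inner]
  apply Finset.sum_congr rfl
  intro i _
  rw [inner_sum]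
  apply Finset.sum_congr rfl
  intro j _
  rw [inner_smul_left, inner_smul_right]
  ring

theorem gram_hs (W : Weight d) (s : Finset ι) (f : ι → L2 d) :
    ∫⁻ z, ENNReal.ofReal (W.V z) * ∫⁻ w, ENNReal.ofReal (W.V w) * ‖gam s f z w‖ₑ ^ 2 ∂(st d)
      ∂(st d) = ENNReal.ofReal (∑ i ∈ s, ∑ j ∈ s, ‖⟪phi W (f i), phi W (f j)⟫_ℂ‖ ^ 2) := by
  let F : ℝ × Rd d → ℝ := fun z =>
    W.V z * ‖∑ j ∈ s, (starRingEnd ℂ) (uu (f j) z) • phi W (f j)‖ ^ 2
  have hF0 : ∀ z, 0 ≤ F z := fun z => mul_nonneg (W.nonneg z) (by positivity)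
  have hFc : ∀ z, ((F z : ℝ) : ℂ) = ∑ i ∈ s, ∑ j ∈ s, ⟪phi W (f i), phi W (f j)⟫_ℂ *
      (((W.V z : ℝ) : ℂ) * ((starRingEnd ℂ) (uu (f j) z) * uu (f i) z)) := by
    intro z
    simp only [F]
    rw [Complex.ofReal_mul, sq_expand, Finset.mul_sum]
    apply Finset.sum_congr rfl
    intro i _
    rw [Finset.mul_sum]
    apply Finset.sum_congr rfl
    intro j _
    rw [Complex.conj_conj]
    ring
  have hint : ∀ i ∈ s, ∀ j ∈ s, Integrable (fun z => ⟪phi W (f i), phi W (f j)⟫_ℂ *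
      (((W.V z : ℝ) : ℂ) * ((starRingEnd ℂ) (uu (f j) z) * uu (f i) z))) (st d) :=
    fun i _ j _ => (phi_inner_aux W (f j) (f i)).1.const_mul _
  have hFci : Integrable (fun z => ((F z : ℝ) : ℂ)) (st d) := by
    simp only [hFc]
    exact integrable_finsetSum _ fun i hi => integrable_finsetSum _ fun j hj => hint i hi j hj
  have hFi : Integrable F (st d) := by
    have := hFci.re
    simpa using this
  have hFint : ∫ z, F z ∂(st d) = ∑ i ∈ s, ∑ j ∈ s, ‖⟪phi W (f i), phi W (f j)⟫_ℂ‖ ^ 2 := by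
    have h1 : ((∫ z, F z ∂(st d) : ℝ) : ℂ) =
        ((∑ i ∈ s, ∑ j ∈ s, ‖⟪phi W (f i), phi W (f j)⟫_ℂ‖ ^ 2 : ℝ) : ℂ) := by
      rw [← integral_complex_ofReal]
      simp only [hFc]
      rw [integral_finsetSum _ fun i hi => integrable_finsetSum _ fun j hj => hint i hi j hj,
        Complex.ofReal_sum]
      apply Finset.sum_congr rfl
      intro i hi
      rw [integral_finsetSum _ fun j hj => hint i hi j hj, Complex.ofReal_sum]
      apply Finset.sum_congr rfl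
      intro j hj
      rw [integral_const_mul, ← (phi_inner_aux W (f j) (f i)).2,
        ← inner_conj_symm (phi W (f j)) (phi W (f i)), Complex.mul_conj, Complex.normSq_eq_norm_sq]
    exact Complex.ofReal_injective h1
  rw [← hFint, ofReal_integral_eq_lintegral_ofReal hFi (Eventually.of_forall hF0)]
  apply lintegral_congr
  intro z
  rw [inner_fib]
  simp only [F]
  rw [ENNReal.ofReal_mul (W.nonneg z), ← ofReal_norm, ENNReal.ofReal_pow (norm_nonneg _)]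

/-- the iterated form -/
theorem gram_hs_iter (W : Weight d) (s : Finset ι) (f : ι → L2 d) :
    ∫⁻ a, ∫⁻ t, ∫⁻ x, ∫⁻ y, ENNReal.ofReal (W.V (a, x)) * (ENNReal.ofReal (W.V (t, y)) *
      ‖gam s f (a, x) (t, y)‖ₑ ^ 2) =
      ENNReal.ofReal (∑ i ∈ s, ∑ j ∈ s, ‖⟪phi W (f i), phi W (f j)⟫_ℂ‖ ^ 2) := by
  have hG : Measurable fun p : (ℝ × Rd d) × (ℝ × Rd d) =>
      ENNReal.ofReal (W.V p.1) * (ENNReal.ofReal (W.V p.2) * ‖gam s f p.1 p.2‖ₑ ^ 2) :=
    ((W.meas.comp measurable_fst).ennreal_ofReal).mul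
      (((W.meas.comp measurable_snd).ennreal_ofReal).mul ((gam_meas s f).enorm.pow_const 2))
  have hG1 : Measurable fun z : ℝ × Rd d => ENNReal.ofReal (W.V z) *
      ∫⁻ w, ENNReal.ofReal (W.V w) * ‖gam s f z w‖ₑ ^ 2 ∂(st d) := by
    have h2 := hG.lintegral_prod_right' (ν := st d)
    have e : (fun z : ℝ × Rd d => ENNReal.ofReal (W.V z) *
        ∫⁻ w, ENNReal.ofReal (W.V w) * ‖gam s f z w‖ₑ ^ 2 ∂(st d)) =
        fun z => ∫⁻ w, ENNReal.ofReal (W.V z) * (ENNReal.ofReal (W.V w) * ‖gam s f z w‖ₑ ^ 2)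
          ∂(st d) := by
      ext z
      rw [lintegral_const_mul' _ _ ENNReal.ofReal_ne_top]
    rw [e]
    exact h2
  rw [← gram_hs, lintegral_prod _ hG1.aemeasurable]
  apply lintegral_congr
  intro a
  have hsw : Measurable fun p : Rd d × ℝ => ∫⁻ y, ENNReal.ofReal (W.V (a, p.1)) *
      (ENNReal.ofReal (W.V (p.2, y)) * ‖gam s f (a, p.1) (p.2, y)‖ₑ ^ 2) := by
    have h3 : Measurable fun q : (Rd d × ℝ) × Rd d => ENNReal.ofReal (W.V (a, q.1.1)) *
      (ENNReal.ofReal (W.V (q.1.2, q.2)) * ‖gam s f (a, q.1.1) (q.1.2, q.2)‖ₑ ^ 2) :=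
      hG.comp (by fun_prop : Measurable fun q : (Rd d × ℝ) × Rd d => ((a, q.1.1), (q.1.2, q.2)))
    exact h3.lintegral_prod_right' (ν := volume)
  rw [← lintegral_lintegral_swap (f := fun (x : Rd d) (t : ℝ) =>
    ∫⁻ y, ENNReal.ofReal (W.V (a, x)) * (ENNReal.ofReal (W.V (t, y)) *
      ‖gam s f (a, x) (t, y)‖ₑ ^ 2)) hsw.aemeasurable]
  apply lintegral_congr
  intro x
  rw [lintegral_prod]
  · rw [← lintegral_const_mul' _ _ ENNReal.ofReal_ne_top]
    apply lintegral_congr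
    intro t
    rw [lintegral_const_mul' _ _ ENNReal.ofReal_ne_top]
  · exact ((W.meas.ennreal_ofReal).mul (((gam_meas s f).comp measurable_prodMk_left).enorm.pow_const
      2)).aemeasurable

end Pool.Agent.D0H30.ES
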