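import Pool.Agent.D0H30.ES.Defs

set_option autoImplicit false

/-! Basic properties of the propagator. -/

namespace Pool.Agent.D0H30.ES

open MeasureTheory Filter Topology FourierTransform
open scoped ENNReal NNReal InnerProductSpace

variable {d : ℕ}

/-- multiplication by the symbol -/
noncomputable def ph (t : ℝ) (g : L2 d) : L2 d :=
  (memLp_symbol_mul t g).toLp (fun ξ => symbol d t ξ * g ξ)

theorem ph_coe (t : ℝ) (g : L2 d) : (ph t g : Rd d → ℂ) =ᵐ[volume] fun ξ => symbol d t ξ * g ξ :=
  (memLp_symbol_mul t g).coeFn_toLp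

theorem propagator_eq (t : ℝ) (f : L2 d) : propagator t f = 𝓕⁻ (ph t (𝓕 f)) := rfl

theorem fourier_propagator (t : ℝ) (f : L2 d) : 𝓕 (propagator t f) = ph t (𝓕 f) := by
  rw [propagator_eq]
  exact FourierTransform.fourier_fourierInv_eq _

theorem ph_add (t : ℝ) (g h : L2 d) : ph t (g + h) = ph t g + ph t h := by
  apply Lp.ext
  filter_upwards [ph_coe t (g + h), ph_coe t g, ph_coe t h, Lp.coeFn_add g h,
    Lp.coeFn_add (ph t g) (ph t h)] with x h1 h2 h3 h4 h5
  rw [h1, h5, Pi.add_apply, h2, h3, h4, Pi.add_apply, mul_add]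

theorem ph_smul (t : ℝ) (c : ℂ) (g : L2 d) : ph t (c • g) = c • ph t g := by
  apply Lp.ext
  filter_upwards [ph_coe t (c • g), ph_coe t g, Lp.coeFn_smul c g,
    Lp.coeFn_smul c (ph t g)] with x h1 h2 h4 h5
  rw [h1, h5, Pi.smul_apply, h2, h4, Pi.smul_apply, smul_eq_mul, smul_eq_mul]
  ring

theorem symbol_add (s t : ℝ) (ξ : Rd d) : symbol d (s + t) ξ = symbol d s ξ * symbol d t ξ := by
  unfold symbol
  rw [← Complex.exp_add]
  congr 1
  push_cast
  ring

theorem symbol_zero (ξ : Rd d) : symbol d 0 ξ = 1 := by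
  unfold symbol
  simp

theorem conj_symbol (t : ℝ) (ξ : Rd d) : (starRingEnd ℂ) (symbol d t ξ) = symbol d (-t) ξ := by
  unfold symbol
  rw [← Complex.exp_conj, map_mul, map_neg, Complex.conj_ofReal, Complex.conj_I]
  congr 1
  push_cast
  ring

theorem ph_ph (s t : ℝ) (g : L2 d) : ph s (ph t g) = ph (s + t) g := by
  apply Lp.ext
  filter_upwards [ph_coe s (ph t g), ph_coe t g, ph_coe (s + t) g] with x h1 h2 h3
  rw [h1, h2, h3, symbol_add, mul_assoc]

theorem ph_zero (g : L2 d) : ph 0 g = g := by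
  apply Lp.ext
  filter_upwards [ph_coe 0 g] with x h1
  rw [h1, symbol_zero, one_mul]

theorem inner_ph (t : ℝ) (g h : L2 d) : ⟪ph t g, h⟫_ℂ = ⟪g, ph (-t) h⟫_ℂ := by
  rw [L2.inner_def, L2.inner_def]
  apply integral_congr_ae
  filter_upwards [ph_coe t g, ph_coe (-t) h] with x h1 h2
  rw [h1, h2]
  simp only [RCLike.inner_apply, map_mul, conj_symbol]
  ring

theorem propagator_add (t : ℝ) (g h : L2 d) :
    propagator t (g + h) = propagator t g + propagator t h := by
  rw [propagator_eq, propagator_eq, propagator_eq, FourierTransform.fourier_add, ph_add,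
    FourierTransform.fourierInv_add]

theorem propagator_smul (t : ℝ) (c : ℂ) (g : L2 d) :
    propagator t (c • g) = c • propagator t g := by
  rw [propagator_eq, propagator_eq, FourierTransform.fourier_smul, ph_smul,
    FourierTransform.fourierInv_smul]

theorem propagator_propagator (s t : ℝ) (g : L2 d) :
    propagator s (propagator t g) = propagator (s + t) g := by
  rw [propagator_eq s, fourier_propagator, ph_ph, propagator_eq]

theorem propagator_zero (g : L2 d) : propagator 0 g = g := by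
  rw [propagator_eq, ph_zero]
  exact FourierTransform.fourierInv_fourier_eq _

theorem inner_propagator (t : ℝ) (g h : L2 d) :
    ⟪propagator t g, h⟫_ℂ = ⟪g, propagator (-t) h⟫_ℂ := by
  rw [← Lp.inner_fourier_eq, fourier_propagator, inner_ph, ← fourier_propagator,
    Lp.inner_fourier_eq]

theorem inner_propagator_propagator (t : ℝ) (g h : L2 d) :
    ⟪propagator t g, propagator t h⟫_ℂ = ⟪g, h⟫_ℂ := by
  rw [inner_propagator, propagator_propagator, neg_add_cancel, propagator_zero]

theorem norm_propagator (t : ℝ) (g : L2 d) : ‖propagator t g‖ = ‖g‖ := by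
  have h := inner_propagator_propagator t g g
  rw [inner_self_eq_norm_sq_to_K, inner_self_eq_norm_sq_to_K] at h
  have h2 : ‖propagator t g‖ ^ 2 = ‖g‖ ^ 2 := by
    exact_mod_cast h
  exact (pow_left_inj₀ (norm_nonneg _) (norm_nonneg _) two_ne_zero).1 h2

/-- the propagator as a continuous linear map -/
noncomputable def propL (t : ℝ) : L2 d →L[ℂ] L2 d :=
  LinearMap.mkContinuous ⟨⟨propagator t, propagator_add t⟩, propagator_smul t⟩ 1
    (fun g => by rw [one_mul]; exact (norm_propagator t g).le)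

theorem propL_apply (t : ℝ) (g : L2 d) : propL t g = propagator t g := rfl

theorem propagator_sub (t : ℝ) (g h : L2 d) :
    propagator t (g - h) = propagator t g - propagator t h := by
  simp only [← propL_apply, map_sub]

/-- strong continuity at `0` -/
theorem tendsto_propagator_zero (g : L2 d) :
    Tendsto (fun t : ℝ => propagator t g) (𝓝 0) (𝓝 g) := by
  have key : Tendsto (fun t : ℝ => ph t (𝓕 g) - 𝓕 g) (𝓝 0) (𝓝 0) := by
    rw [tendsto_zero_iff_norm_tendsto_zero]
    have h2 : Tendsto (fun t : ℝ => ‖ph t (𝓕 g) - 𝓕 g‖ ^ 2) (𝓝 0) (𝓝 0) := by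
      have e : ∀ t : ℝ, ‖ph t (𝓕 g) - 𝓕 g‖ ^ 2 =
          ∫ ξ, ‖(symbol d t ξ - 1) * (𝓕 g : L2 d) ξ‖ ^ 2 := by
        intro t
        have h1 := inner_self_eq_norm_sq_to_K (𝕜 := ℂ) (ph t (𝓕 g) - 𝓕 g)
        rw [L2.inner_def] at h1
        have h3 : ∫ ξ, ⟪(ph t (𝓕 g) - 𝓕 g : L2 d) ξ, (ph t (𝓕 g) - 𝓕 g : L2 d) ξ⟫_ℂ =
            ((∫ ξ, ‖(symbol d t ξ - 1) * (𝓕 g : L2 d) ξ‖ ^ 2 : ℝ) : ℂ) := by
          rw [← integral_complex_ofReal]
          apply integral_congr_ae
          filter_upwards [Lp.coeFn_sub (ph t (𝓕 g)) (𝓕 g), ph_coe t (𝓕 g)] with ξ h4 h5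
          rw [h4, Pi.sub_apply, h5, inner_self_eq_norm_sq_to_K, sub_mul, one_mul]
          norm_cast
        rw [h3] at h1
        have h6 : ((∫ ξ, ‖(symbol d t ξ - 1) * (𝓕 g : L2 d) ξ‖ ^ 2 : ℝ) : ℂ) =
            ((‖ph t (𝓕 g) - 𝓕 g‖ ^ 2 : ℝ) : ℂ) := by
          rw [h1]; norm_cast
        exact (Complex.ofReal_injective h6).symm
      simp only [e]
      have h0 : (0 : ℝ) = ∫ ξ : Rd d, (0 : ℝ) := by simp
      rw [h0]
      apply tendsto_integral_filter_of_dominated_convergence
        (fun ξ => 4 * ‖(𝓕 g : L2 d) ξ‖ ^ 2)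
      · refine Eventually.of_forall fun t => ?_
        have c1 : Continuous fun ξ : Rd d => symbol d t ξ - 1 :=
          ((continuous_symbol d).comp (by fun_prop : Continuous fun ξ : Rd d => (t, ξ))).sub
            continuous_const
        exact ((c1.aestronglyMeasurable.mul (Lp.memLp (𝓕 g : L2 d)).1).norm).pow 2
      · refine Eventually.of_forall fun t => Eventually.of_forall fun ξ => ?_
        rw [Real.norm_of_nonneg (by positivity), norm_mul, mul_pow]
        have h5 : ‖symbol d t ξ - 1‖ ≤ 2 := by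
          calc ‖symbol d t ξ - 1‖ ≤ ‖symbol d t ξ‖ + ‖(1 : ℂ)‖ := norm_sub_le _ _
            _ = 2 := by rw [norm_symbol, norm_one]; norm_num
        have h6 : ‖symbol d t ξ - 1‖ ^ 2 ≤ 4 := by nlinarith [norm_nonneg (symbol d t ξ - 1)]
        exact mul_le_mul_of_nonneg_right h6 (by positivity)
      · have := (Lp.memLp (𝓕 g : L2 d)).integrable_norm_pow (two_ne_zero)
        simpa using this.const_mul 4
      · refine Eventually.of_forall fun ξ => ?_
        have c1 : Continuous fun t : ℝ => ‖(symbol d t ξ - 1) * (𝓕 g : L2 d) ξ‖ ^ 2 :=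
          ((((continuous_symbol d).comp (by fun_prop : Continuous fun t : ℝ => (t, ξ))).sub
            continuous_const).mul continuous_const).norm.pow 2
        have := c1.tendsto 0
        simp only [symbol_zero, sub_self, zero_mul, norm_zero] at this
        simpa using this
    have h3 := (Real.continuous_sqrt.tendsto 0).comp h2
    rw [Real.sqrt_zero] at h3
    refine h3.congr fun t => ?_
    rw [Function.comp_apply, Real.sqrt_sq (norm_nonneg _)]
  have h4 : ∀ t, propagator t g - g = 𝓕⁻ (ph t (𝓕 g) - 𝓕 g) := by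
    intro t
    have e1 : (𝓕⁻ (𝓕 g) : L2 d) = g := FourierTransform.fourierInv_fourier_eq _
    have e2 : (𝓕⁻ (ph t (𝓕 g) - 𝓕 g) : L2 d) = 𝓕⁻ (ph t (𝓕 g)) - 𝓕⁻ (𝓕 g) :=
      (Lp.fourierTransformₗᵢ (Rd d) ℂ).symm.map_sub _ _
    rw [e2, e1, propagator_eq]
  have h5 : Tendsto (fun t : ℝ => propagator t g - g) (𝓝 0) (𝓝 0) := by
    simp only [h4]
    have c : Continuous (fun x : L2 d => (𝓕⁻ x : L2 d)) := FourierTransform.continuous_fourierInv
    have := (c.tendsto 0).comp key
    have e0 : (𝓕⁻ (0 : L2 d) : L2 d) = 0 := FourierTransform.fourierInv_zero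
    rw [e0] at this
    exact this
  have h6 := h5.add_const g
  simp only [sub_add_cancel, zero_add] at h6
  exact h6

theorem norm_propagator_sub (s t : ℝ) (g : L2 d) :
    ‖propagator s g - propagator t g‖ = ‖propagator (s - t) g - g‖ := by
  have e : propagator s g = propagator t (propagator (s - t) g) := by
    rw [propagator_propagator]
    congr 1
    ring
  rw [e, ← propagator_sub, norm_propagator]

theorem continuous_propagator (g : L2 d) : Continuous fun t : ℝ => propagator t g := by
  rw [continuous_iff_continuousAt]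
  intro t
  have h1 := tendsto_propagator_zero g
  have h2 : Tendsto (fun s : ℝ => s - t) (𝓝 t) (𝓝 0) := by
    have := (by fun_prop : Continuous fun s : ℝ => s - t).tendsto t
    rwa [sub_self] at this
  have h3 := ((propL t).continuous.tendsto g).comp (h1.comp h2)
  refine h3.congr fun s => ?_
  simp only [Function.comp_apply, propL_apply, propagator_propagator]
  congr 1
  ring

end Pool.Agent.D0H30.ES
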