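import Mathlib

set_option autoImplicit false

/-! Definitions for the statement of the endpoint Strichartz estimate, on a finite-dimensional real
inner product space `E`. -/

namespace Pool.Agent.D0H30.ES.Stmt

open MeasureTheory Filter Topology FourierTransform
open scoped ENNReal NNReal

section

variable (E : Type) [NormedAddCommGroup E] [InnerProductSpace ℝ E] [FiniteDimensional ℝ E]
  [MeasurableSpace E] [BorelSpace E]

/-- `L²(E)` (Lebesgue measure). -/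
abbrev H : Type := Lp ℂ 2 (volume : Measure E)

end

variable {E : Type} [NormedAddCommGroup E] [InnerProductSpace ℝ E] [FiniteDimensional ℝ E]
  [MeasurableSpace E] [BorelSpace E]

/-- The symbol `e^{-it|2πξ|²}` of `e^{itΔ}` (with the normalisation
`𝓕 f (ξ) = ∫ e^{-2πi⟨x,ξ⟩} f(x) dx` of the Fourier transform). -/
noncomputable def symbol (t : ℝ) (ξ : E) : ℂ :=
  Complex.exp (-((t * (2 * Real.pi * ‖ξ‖) ^ 2 : ℝ) : ℂ) * Complex.I)

theorem memLp_symbol_mul (t : ℝ) (g : H E) : MemLp (fun ξ => symbol t ξ * g ξ) 2 volume := by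
  have h0 : Continuous fun ξ : E => symbol t ξ := by
    unfold symbol
    fun_prop
  have h1 : AEStronglyMeasurable (fun ξ => symbol t ξ * g ξ) volume :=
    h0.aestronglyMeasurable.mul (Lp.memLp g).1
  exact (Lp.memLp g).of_le h1 (Eventually.of_forall fun ξ => by
    rw [norm_mul]
    unfold symbol
    rw [← Complex.ofReal_neg, Complex.norm_exp_ofReal_mul_I, one_mul])

/-- The multiplication by `symbol t` on `L²(E)`. -/
noncomputable def mulSymbol (t : ℝ) (g : H E) : H E :=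
  (memLp_symbol_mul t g).toLp (fun ξ => symbol t ξ * g ξ)

/-- The free Schrödinger propagator `e^{itΔ}` on `L²(E)`:
the Fourier transform of `e^{itΔ} f` is `e^{-it|2πξ|²} (𝓕 f)(ξ)`. -/
noncomputable def propagator (t : ℝ) (f : H E) : H E := 𝓕⁻ (mulSymbol t (𝓕 f))

/-- The mixed norm `‖F‖_{L^p_t L^q_x} = (∫ ‖F(t,·)‖_{L^q}^p dt)^{1/p}`. -/
noncomputable def mixedNorm (p q : ℝ) (F : ℝ → E → ℂ) : ℝ≥0∞ :=
  (∫⁻ t, ((∫⁻ x, ‖F t x‖ₑ ^ q) ^ (1 / q)) ^ p) ^ (1 / p)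

/-- The decreasing rearrangement of `|lam|`: `rearr lam n` is the term with index `n + 1` (that is,
`rearr lam 0 ≥ rearr lam 1 ≥ ...`). -/
noncomputable def rearr {ι : Type} (lam : ι → ℂ) (n : ℕ) : ℝ≥0∞ :=
  sInf {s : ℝ≥0∞ | {i | s < ‖lam i‖ₑ}.encard ≤ n}

/-- The norm `∑_{j ≥ 1} j^{1/α - 1} lam*_j` of the Lorentz sequence space `ℓ^{α,1}`. -/
noncomputable def lorentzNorm {ι : Type} (α : ℝ) (lam : ι → ℂ) : ℝ≥0∞ :=
  ∑' n : ℕ, ENNReal.ofReal (((n : ℝ) + 1) ^ (1 / α - 1)) * rearr lam n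

/-- The `j`-th term `lam_j |e^{itΔ} f_j|²(x)` of the density. -/
noncomputable def densTerm {ι : Type} (lam : ι → ℂ) (f : ι → H E) (t : ℝ) (x : E) (j : ι) : ℂ :=
  lam j * ((‖propagator t (f j) x‖ ^ 2 : ℝ) : ℂ)

/-- The density `∑_j lam_j |e^{itΔ} f_j|²`. -/
noncomputable def density {ι : Type} (lam : ι → ℂ) (f : ι → H E) (t : ℝ) (x : E) : ℂ :=
  ∑' j, densTerm lam f t x j

variable (E) in
/-- The estimate `‖∑_j lam_j |e^{itΔ} f_j|²‖_{L^p_t L^q_x} ≤ C ‖lam‖_{ℓ^{p,1}}` on `E`. -/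
def Estimate (p q : ℝ) : Prop :=
    ∃ C : ℝ≥0, ∀ (ι : Type) [Countable ι] (f : ι → H E), Orthonormal ℂ f →
      ∀ lam : ι → ℂ, lorentzNorm p lam < ∞ →
        (∀ᵐ t : ℝ, ∀ᵐ x : E, Summable (densTerm lam f t x)) ∧
        (∃ G : ℝ × E → ℂ, Measurable G ∧ ∀ t, ∀ᵐ x, density lam f t x = G (t, x)) ∧
        mixedNorm p q (density lam f) ≤ C * lorentzNorm p lam

end Pool.Agent.D0H30.ES.Stmt
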