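import Pool.Agent.D0H30.ES.Main

set_option autoImplicit false

/-! The bound for the block masses. -/

namespace Pool.Agent.D0H30.ES

open MeasureTheory Filter Topology FourierTransform
open scoped ENNReal NNReal InnerProductSpace

variable {d : ℕ} {ι : Type*} (s : Finset ι) (f : ι → L2 d) (R : ℝ)

/-- the constant -/
noncomputable def KK (d : ℕ) : ℝ≥0∞ := 16 * (2 * CD d)

theorem KK_ne_top (hd : 2 ≤ d) : KK d ≠ ∞ := by
  unfold KK
  have h := CD_ne_top (d := (d : ℝ)) (by exact_mod_cast hd)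
  exact ENNReal.mul_ne_top (by norm_num) (ENNReal.mul_ne_top (by norm_num) h)

theorem NN_sum (hd : 2 ≤ d) (Λ : Finset (ℤ × ℤ)) :
    ∑ p ∈ Λ, ∑ q ∈ Λ, NN s f R p q ≤ KK d * ∑ p ∈ Λ, JJ s f R p := by
  calc ∑ p ∈ Λ, ∑ q ∈ Λ, NN s f R p q ≤
        ∑ p ∈ Λ, ∑ q ∈ Λ, 16 * (DD d p q * (JJ s f R p + JJ s f R q)) :=
        Finset.sum_le_sum fun p _ => Finset.sum_le_sum fun q _ => NN_le s f R hd p q
    _ = 16 * ∑ p ∈ Λ, ∑ q ∈ Λ, DD d p q * (JJ s f R p + JJ s f R q) := by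
        simp only [Finset.mul_sum]
    _ ≤ 16 * (2 * CD d * ∑ p ∈ Λ, JJ s f R p) := by
        gcongr
        exact sum_pairs (d : ℝ) Λ (JJ s f R)
    _ = _ := by unfold KK; ring

theorem XX_sum (hd : 2 ≤ d) (Λ : Finset (ℤ × ℤ)) :
    ∑ p ∈ Λ, ∑ q ∈ Λ, XX s f R p q ≤ KK d * ∑ p ∈ Λ, JJ s f R p := by
  calc ∑ p ∈ Λ, ∑ q ∈ Λ, XX s f R p q ≤
        ∑ p ∈ Λ, ∑ q ∈ Λ, 16 * (DD d p q * (JJ s f R p + JJ s f R q)) :=
        Finset.sum_le_sum fun p _ => Finset.sum_le_sum fun q _ => XX_le s f R hd p q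
    _ = 16 * ∑ p ∈ Λ, ∑ q ∈ Λ, DD d p q * (JJ s f R p + JJ s f R q) := by
        simp only [Finset.mul_sum]
    _ ≤ 16 * (2 * CD d * ∑ p ∈ Λ, JJ s f R p) := by
        gcongr
        exact sum_pairs (d : ℝ) Λ (JJ s f R)
    _ = _ := by unfold KK; ring

theorem gram_le (hd : 2 ≤ d) (hfo : Orthonormal ℂ f) (Λ : Finset (ℤ × ℤ)) :
    ENNReal.ofReal (∑ j ∈ s, ‖gram (WW s f R Λ) (f j)‖ ^ 2) ≤
      KK d * ∑ p ∈ Λ, JJ s f R p + (KK d * ∑ p ∈ Λ, JJ s f R p) ^ (1 / 2 : ℝ) *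
      (ENNReal.ofReal (∑ i ∈ s, ∑ j ∈ s,
        ‖⟪phi (WW s f R Λ) (f i), phi (WW s f R Λ) (f j)⟫_ℂ‖ ^ 2)) ^ (1 / 2 : ℝ) := by
  refine (gram_sum (WW s f R Λ) s f).trans ?_
  calc _ ≤ ∫⁻ a, ∫⁻ t, ∑ p ∈ Λ, ∑ q ∈ Λ, Bd s f R p q (a, t) := by
        refine lintegral_mono fun a => lintegral_mono_ae ?_
        have hne : ∀ᵐ t : ℝ, t ≠ a := by
          rw [ae_iff]
          simp
        filter_upwards [hne] with t ht
        refine (pair_expand s f R Λ a t).trans ?_
        exact Finset.sum_le_sum fun p _ => Finset.sum_le_sum fun q _ =>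
          bp_le_Bd s f R hd hfo p q ht.symm
    _ = ∑ p ∈ Λ, ∑ q ∈ Λ, ∫⁻ a, ∫⁻ t, Bd s f R p q (a, t) := by
        have e1 : ∀ a : ℝ, ∫⁻ t, ∑ p ∈ Λ, ∑ q ∈ Λ, Bd s f R p q (a, t) =
            ∑ p ∈ Λ, ∑ q ∈ Λ, ∫⁻ t, Bd s f R p q (a, t) := by
          intro a
          have hm : ∀ p q : ℤ × ℤ, Measurable fun t : ℝ => Bd s f R p q (a, t) :=
            fun p q => (Bd_meas s f R p q).comp measurable_prodMk_left
          rw [lintegral_finsetSum _ fun p _ => Finset.measurable_sum _ fun q _ => hm p q]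
          apply Finset.sum_congr rfl
          intro p _
          rw [lintegral_finsetSum _ fun q _ => hm p q]
        simp only [e1]
        have hm : ∀ p q : ℤ × ℤ, Measurable fun a : ℝ => ∫⁻ t, Bd s f R p q (a, t) :=
          fun p q => (Bd_meas s f R p q).lintegral_prod_right' (ν := volume)
        rw [lintegral_finsetSum _ fun p _ => Finset.measurable_sum _ fun q _ => hm p q]
        apply Finset.sum_congr rfl
        intro p _
        rw [lintegral_finsetSum _ fun q _ => hm p q]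
    _ ≤ ∑ p ∈ Λ, ∑ q ∈ Λ,
          (NN s f R p q + XX s f R p q ^ (1 / 2 : ℝ) * YY s f R p q ^ (1 / 2 : ℝ)) :=
        Finset.sum_le_sum fun p _ => Finset.sum_le_sum fun q _ => Bd_int s f R p q
    _ = (∑ p ∈ Λ, ∑ q ∈ Λ, NN s f R p q) +
          ∑ p ∈ Λ, ∑ q ∈ Λ, XX s f R p q ^ (1 / 2 : ℝ) * YY s f R p q ^ (1 / 2 : ℝ) := by
        simp only [Finset.sum_add_distrib]
    _ ≤ _ := by
        apply add_le_add (NN_sum s f R hd Λ)
        refine (cs_sum Λ (XX s f R) (YY s f R)).trans ?_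
        rw [YY_sum]
        gcongr
        exact XX_sum s f R hd Λ

theorem mass_eq (W : Weight d) :
    ENNReal.ofReal (∑ j ∈ s, ‖phi W (f j)‖ ^ 2) =
      ∫⁻ a, ∫⁻ x, ENNReal.ofReal (W.V (a, x)) * rho s f (a, x) := by
  have h1 : ∀ j ∈ s, ENNReal.ofReal (‖phi W (f j)‖ ^ 2) =
      ∫⁻ z, ENNReal.ofReal (W.V z) * ‖uu (f j) z‖ₑ ^ 2 ∂(st d) := by
    intro j _
    rw [ENNReal.ofReal_pow (norm_nonneg _), ofReal_norm, ← lintegral_sq]
    apply lintegral_congr_ae
    filter_upwards [phi_coe W (f j)] with z hz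
    rw [hz, norm_sqrt_sq]
  have hm : ∀ j ∈ s, Measurable fun z => ENNReal.ofReal (W.V z) * ‖uu (f j) z‖ₑ ^ 2 := fun j _ =>
    W.meas.ennreal_ofReal.mul ((uu_meas (f j)).enorm.pow_const 2)
  rw [ENNReal.ofReal_sum_of_nonneg fun j _ => by positivity, Finset.sum_congr rfl h1,
    ← lintegral_finsetSum _ hm]
  have h2 : ∀ z, ∑ j ∈ s, ENNReal.ofReal (W.V z) * ‖uu (f j) z‖ₑ ^ 2 =
      ENNReal.ofReal (W.V z) * rho s f z := by
    intro z
    unfold rho
    rw [Finset.mul_sum]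
  simp only [h2]
  have hm2 : Measurable fun z => ENNReal.ofReal (W.V z) * rho s f z :=
    W.meas.ennreal_ofReal.mul (rho_meas s f)
  rw [lintegral_prod _ hm2.aemeasurable]

/-- the lower bound for the mass -/
theorem mass_lower (hd : 2 ≤ d) (Λ : Finset (ℤ × ℤ)) :
    ∑ p ∈ Λ, JJ s f R p ≤ ENNReal.ofReal (∑ j ∈ s, ‖phi (WW s f R Λ) (f j)‖ ^ 2) := by
  rw [mass_eq]
  have e1 : ∀ a x, ENNReal.ofReal ((WW s f R Λ).V (a, x)) * rho s f (a, x) =
      ∑ p ∈ Λ, ENNReal.ofReal (wt d p) *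
        ((GG s f R p).indicator (fun _ => (1 : ℝ≥0∞)) (a, x) * rho s f (a, x)) := by
    intro a x
    rw [WW_ofReal, Finset.sum_mul]
    simp only [mul_assoc]
  simp only [e1]
  have mb : ∀ p : ℤ × ℤ, Measurable fun z : ℝ × Rd d => ENNReal.ofReal (wt d p) *
        ((GG s f R p).indicator (fun _ => (1 : ℝ≥0∞)) z * rho s f z) := fun p =>
    ((measurable_const.indicator (GG_meas s f R p)).mul (rho_meas s f)).const_mul _
  have e2 : ∀ a, ∫⁻ x, ∑ p ∈ Λ, ENNReal.ofReal (wt d p) *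
        ((GG s f R p).indicator (fun _ => (1 : ℝ≥0∞)) (a, x) * rho s f (a, x)) =
      ∑ p ∈ Λ, ∫⁻ x, ENNReal.ofReal (wt d p) *
        ((GG s f R p).indicator (fun _ => (1 : ℝ≥0∞)) (a, x) * rho s f (a, x)) := by
    intro a
    exact lintegral_finsetSum _ fun p _ => (mb p).comp measurable_prodMk_left
  simp only [e2]
  rw [lintegral_finsetSum _ fun p _ => (mb p).lintegral_prod_right' (ν := volume)]
  apply Finset.sum_le_sum
  intro p _
  have hd0 : (0 : ℝ) < d := by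
    have : (2 : ℝ) ≤ d := by exact_mod_cast hd
    linarith
  have hexp : pw (LL d p.1 p.2 / d) = wt d p * (pw p.1 * pw p.2) := by
    unfold wt
    rw [← pw_add, ← pw_add]
    congr 1
    unfold LL
    field_simp
    ring
  calc JJ s f R p = ∫⁻ a in TT s f R p, ENNReal.ofReal (pw (LL d p.1 p.2 / d)) := by
        unfold JJ
        rw [setLIntegral_const]
    _ = ∫⁻ a, (TT s f R p).indicator (fun _ => ENNReal.ofReal (pw (LL d p.1 p.2 / d))) a :=
        (lintegral_indicator (TT_meas s f R p) _).symm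
    _ ≤ _ := by
        refine lintegral_mono fun a => ?_
        by_cases ha : a ∈ TT s f R p
        · rw [Set.indicator_of_mem ha, lintegral_const_mul' _ _ ENNReal.ofReal_ne_top, hexp,
            ENNReal.ofReal_mul (wt_nonneg d p)]
          gcongr
          rw [ENNReal.ofReal_mul (pw_nonneg _)]
          calc ENNReal.ofReal (pw p.1) * ENNReal.ofReal (pw p.2) ≤
                ENNReal.ofReal (pw p.1) * volume (GS s f R p a) := by
                gcongr
                rw [GS_vol s f R ha]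
                exact ha.2.1
            _ = ∫⁻ x, (GS s f R p a).indicator (fun _ => ENNReal.ofReal (pw p.1)) x := by
                rw [lintegral_indicator (GS_meas s f R p a), setLIntegral_const]
            _ ≤ _ := by
                refine lintegral_mono fun x => ?_
                by_cases hx : x ∈ GS s f R p a
                · rw [Set.indicator_of_mem hx,
                    Set.indicator_of_mem (show (a, x) ∈ GG s f R p from hx), one_mul]
                  exact hx.2.1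
                · rw [Set.indicator_of_notMem hx]
                  exact zero_le
        · rw [Set.indicator_of_notMem ha]
          exact zero_le

/-- **The bound for the block masses.** -/
theorem blocks_bound (hd : 2 ≤ d) (hfo : Orthonormal ℂ f) (Λ : Finset (ℤ × ℤ)) :
    ∑ p ∈ Λ, JJ s f R p ≤ 4 * KK d * s.card := by
  have h1 := gram_le s f R hd hfo Λ
  have h2 := mass_lower s f R hd Λ
  have h3 := gram_bessel (WW s f R Λ) s f hfo
  have h4 := phi_mass (WW s f R Λ) s f hfo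
  set Q : ℝ := ∑ j ∈ s, ‖gram (WW s f R Λ) (f j)‖ ^ 2 with hQ
  set P : ℝ := ∑ i ∈ s, ∑ j ∈ s, ‖⟪phi (WW s f R Λ) (f i), phi (WW s f R Λ) (f j)⟫_ℂ‖ ^ 2 with hP
  set M : ℝ := ∑ j ∈ s, ‖phi (WW s f R Λ) (f j)‖ ^ 2 with hM
  set J : ℝ≥0∞ := ∑ p ∈ Λ, JJ s f R p with hJ
  have hQ0 : 0 ≤ Q := Finset.sum_nonneg fun j _ => by positivity
  have hP0 : 0 ≤ P := Finset.sum_nonneg fun i _ => Finset.sum_nonneg fun j _ => by positivity
  have hM0 : 0 ≤ M := Finset.sum_nonneg fun j _ => by positivity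
  have hJt : J ≠ ∞ := ne_top_of_le_ne_top ENNReal.ofReal_ne_top h2
  have hKt := KK_ne_top (d := d) hd
  obtain ⟨j, hj0, hj⟩ : ∃ j : ℝ, 0 ≤ j ∧ J = ENNReal.ofReal j :=
    ⟨J.toReal, ENNReal.toReal_nonneg, (ENNReal.ofReal_toReal hJt).symm⟩
  obtain ⟨k, hk0, hk⟩ : ∃ k : ℝ, 0 ≤ k ∧ KK d = ENNReal.ofReal k :=
    ⟨(KK d).toReal, ENNReal.toReal_nonneg, (ENNReal.ofReal_toReal hKt).symm⟩
  rw [hj, hk] at h1
  rw [hj] at h2
  rw [hj, hk]
  have h2' : j ≤ M := (ENNReal.ofReal_le_ofReal_iff hM0).1 h2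
  rw [← ENNReal.ofReal_mul hk0, ENNReal.ofReal_rpow_of_nonneg (mul_nonneg hk0 hj0) (by norm_num),
    ENNReal.ofReal_rpow_of_nonneg hP0 (by norm_num), ← ENNReal.ofReal_mul (by positivity),
    ← ENNReal.ofReal_add (by positivity) (by positivity),
    ENNReal.ofReal_le_ofReal_iff (by positivity), ← Real.sqrt_eq_rpow, ← Real.sqrt_eq_rpow] at h1
  have h5 : Q ≤ 4 * (k * j) := by
    have h6 : √P ≤ √Q := Real.sqrt_le_sqrt h3
    set y := √(k * j) with hy
    set x := √Q with hx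
    have hx2 : x ^ 2 = Q := Real.sq_sqrt hQ0
    have hy2 : y ^ 2 = k * j := Real.sq_sqrt (mul_nonneg hk0 hj0)
    have hy0 : 0 ≤ y := Real.sqrt_nonneg _
    have hx0 : 0 ≤ x := Real.sqrt_nonneg _
    have h7 : x ^ 2 ≤ y ^ 2 + y * x := by
      rw [hx2, hy2]
      refine h1.trans ?_
      gcongr
    rw [← hx2, ← hy2]
    have h8 : x ≤ 2 * y := by
      by_contra hc
      push Not at hc
      nlinarith
    nlinarith
  have h9 : j ≤ 4 * k * s.card := by
    by_cases hM1 : M = 0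
    · rw [hM1] at h2'
      have : 0 ≤ 4 * k * s.card := by positivity
      linarith
    · have hMpos : 0 < M := lt_of_le_of_ne hM0 (Ne.symm hM1)
      have h10 : M ^ 2 ≤ (4 * k * s.card) * M := by
        calc M ^ 2 ≤ s.card * Q := h4
          _ ≤ s.card * (4 * (k * j)) := by gcongr
          _ ≤ s.card * (4 * (k * M)) := by gcongr
          _ = _ := by ring
      have h11 : M ≤ 4 * k * s.card := by
        rw [sq] at h10
        exact le_of_mul_le_mul_right h10 hMpos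
      linarith
  calc ENNReal.ofReal j ≤ ENNReal.ofReal (4 * k * s.card) := ENNReal.ofReal_le_ofReal h9
    _ = 4 * ENNReal.ofReal k * s.card := by
        rw [ENNReal.ofReal_mul (by positivity), ENNReal.ofReal_mul (by norm_num),
          ENNReal.ofReal_natCast]
        norm_num

end Pool.Agent.D0H30.ES
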